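import Pool.Agent.Lib.H60E.C2
import Pool.Agent.Lib.H79G.I7
import Pool.Agent.Lib.H79G.T3

/-!
# C3: averages of natural functions on a closed manifold; the integral of the Laplacian
-/

set_option autoImplicit false

open scoped ContDiff Topology Manifold
open Set MeasureTheory

namespace H60E

open H31R H79G
open EinsteinSix (OG)

variable {d : ℕ} {M : Type} [TopologicalSpace M] [ChartedSpace (EE d) M]

/-- a field of orthonormal frames in the chart at `p` -/
noncomputable def frm (g : Ch.Metric d M) (p : M) : EE d → WW d :=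
  (exists_frame (metOn g p)).choose

theorem frm_smooth (g : Ch.Metric d M) (p : M) (k i : Fin d) :
    ContDiffOn ℝ ∞ (fun y => frm g p y k i) (chartAt (EE d) p).target :=
  (exists_frame (metOn g p)).choose_spec.1 k i

theorem frm_mem (g : Ch.Metric d M) (p : M) {y : EE d} (hy : y ∈ (chartAt (EE d) p).target) :
    ((y, frm g p y) : QQ d) ∈ PU (chartAt (EE d) p).target (g.mat p) :=
  (exists_frame (metOn g p)).choose_spec.2 y hy

/-- the average of a natural function, in the charts -/
noncomputable def avgS (g : Ch.Metric d M) (Ψ : (Fin d → Fin d → Fin d → Fin d → ℝ) → ℝ) (p : M) :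
    EE d → ℝ := avgU (frm g p) (natF Ψ (g.mat p))

/-- a metric on a smaller open set -/
theorem MetOn.mono' {U V : Set (EE d)} {G : EE d → Mt d} (h : MetOn U G) (hV : IsOpen V)
    (hVU : V ⊆ U) : MetOn V G where
  hU := hV
  sm i j := (h.sm i j).mono hVU
  symm y hy := h.symm y (hVU hy)
  pos y hy := h.pos y (hVU hy)

variable [IsManifold (𝓡 d) ∞ M]

theorem sField_avgS (g : Ch.Metric d M) {Ψ : (Fin d → Fin d → Fin d → Fin d → ℝ) → ℝ}
    (hΨ : ContDiff ℝ ∞ Ψ) : SField (avgS g Ψ) where
  smooth p := avgU_smooth (metOn g p) (frm_smooth g p) (natF_smooth (metOn g p) hΨ)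
  compat p q y hy := avgU_pull (pull g p q)
    (fun y hy => ⟨hy, (frm_mem g p (chDom_sub p q hy)).2⟩) (fun y hy => frm_mem g q hy) Ψ hy

/-- The Laplacian of a smooth function. -/
theorem sField_lap (g : Ch.Metric d M) {f : M → EE d → ℝ} (hf : SField f) :
    SField (fun p => lap (g.mat p) (f p)) where
  smooth p := by
    have h := metOn g p
    unfold lap
    refine ContDiffOn.sum fun i _ => ContDiffOn.sum fun j _ => (h.smooth_inv i j).mul ?_
    exact (pd_smooth' h.hU (pd_smooth' h.hU (hf.smooth p) j) i).sub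
      (ContDiffOn.sum fun k _ => (h.smooth_chr k i j).mul (pd_smooth' h.hU (hf.smooth p) k))
  compat p q y hy := lap_pull (pull g p q)
    (MetOn.mono' (metOn g p) (isOpen_chDom p q) (chDom_sub p q)) (metOn g q)
    ((hf.smooth p).mono (chDom_sub p q)) (hf.smooth q) (fun x hx => hf.compat p q x hx) hy

/-- The gradient of a smooth function. -/
noncomputable def gradF (g : Ch.Metric d M) {f : M → EE d → ℝ} (hf : SField f) : VField d M where
  vec p := grd (g.mat p) (f p)
  smooth p i := grd_smooth (metOn g p) (hf.smooth p) i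
  compat p q y hy hq := by
    exact grd_pull (pull g p q) (hf.smooth q) (fun x hx => hf.compat p q x hx) ⟨hy, hq⟩

variable [MeasurableSpace M] [BorelSpace M] [T2Space M] [CompactSpace M]

theorem integral_lap (g : Ch.Metric d M) {μ : Measure M} (hμ : IsVol g μ) [IsFiniteMeasure μ]
    {f : M → EE d → ℝ} (hf : SField f) :
    ∫ m, glob (fun p => lap (g.mat p) (f p)) m ∂μ = 0 := by
  have hL := sField_lap g hf
  refine divergence g hμ (gradF g hf) (glob_continuous hL) fun p y hy => ?_
  rw [glob_symm hL hy]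
  exact dens_lap (metOn g p) (hf.smooth p) hy

/-- The integral of the horizontal Laplacian of a natural function. -/
theorem integral_hlap (g : Ch.Metric d M) {μ : Measure M} (hμ : IsVol g μ) [IsFiniteMeasure μ]
    {Ψ : (Fin d → Fin d → Fin d → Fin d → ℝ) → ℝ} (hΨ : ContDiff ℝ ∞ Ψ) :
    Continuous (fun m => avgF 1 (fun q => ∑ k, Bf (g.mat m) k (Bf (g.mat m) k (natF Ψ (g.mat m))) q)
      (chartAt (EE d) m m, frm g m (chartAt (EE d) m m))) ∧
    ∫ m, avgF 1 (fun q => ∑ k, Bf (g.mat m) k (Bf (g.mat m) k (natF Ψ (g.mat m))) q)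
      (chartAt (EE d) m m, frm g m (chartAt (EE d) m m)) ∂μ = 0 := by
  have hf := sField_avgS g hΨ
  have h1 : (fun m => avgF 1 (fun q => ∑ k, Bf (g.mat m) k
      (Bf (g.mat m) k (natF Ψ (g.mat m))) q) (chartAt (EE d) m m, frm g m (chartAt (EE d) m m))) =
      glob (fun p => lap (g.mat p) (avgS g Ψ p)) := by
    funext m
    exact (lap_avgU (metOn g m) (frm_smooth g m) (fun y hy => frm_mem g m hy)
      (natF_smooth (metOn g m) hΨ) (mem_chart_target (EE d) m)).symm
  rw [h1]
  exact ⟨glob_continuous (sField_lap g hf), integral_lap g hμ hf⟩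

/-- The average of a natural function is continuous. -/
theorem continuous_avg (g : Ch.Metric d M) {Ψ : (Fin d → Fin d → Fin d → Fin d → ℝ) → ℝ}
    (hΨ : ContDiff ℝ ∞ Ψ) : Continuous (fun m => avgF 1 (natF Ψ (g.mat m))
      (chartAt (EE d) m m, frm g m (chartAt (EE d) m m))) :=
  glob_continuous (sField_avgS g hΨ)

end H60E
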