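import Pool.Agent.Lib.H79G.Stmt

/-!
# H60E: Einstein metrics and nonpositive sectional curvature, in charts

Definitions used in the final statement. `H79G.riem` is the curvature tensor in coordinates, with
`R_{ijij}` the sectional curvature of an orthonormal pair `∂_i`, `∂_j`.
-/

set_option autoImplicit false

open scoped ContDiff Manifold
open Set

namespace H60E

open H31R H79G

variable {d : ℕ} {M : Type} [TopologicalSpace M] [ChartedSpace (EE d) M]

/-- `g` is an Einstein metric, `Ric = lam g`: in the charts,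
`∑ j l, G^{jl} R_{ijkl} = lam * G_{ik}`. -/
def IsEinstein (g : Ch.Metric d M) (lam : ℝ) : Prop :=
  ∀ p : M, ∀ y ∈ (chartAt (EE d) p).target, ∀ i k : Fin d,
    ∑ j, ∑ l, (g.mat p y)⁻¹ j l * riem (g.mat p) y i j k l = lam * g.mat p y i k

/-- Nonpositive sectional curvature: `R(v, w, v, w) ≤ 0` for all tangent vectors `v`, `w`. -/
def SecNonpos (g : Ch.Metric d M) : Prop :=
  ∀ p : M, ∀ y ∈ (chartAt (EE d) p).target, ∀ v w : Fin d → ℝ,
    ∑ i, ∑ j, ∑ k, ∑ l, riem (g.mat p) y i j k l * v i * w j * v k * w l ≤ 0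

end H60E
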