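import Pool.Agent.Lib.H60E.A4

/-!
# A5: tangency of the horizontal fields
-/

set_option autoImplicit false

open scoped ContDiff Topology
open Set

namespace H60E

open H31R H79G
open EinsteinSix (OG)

variable {d : ℕ} {U : Set (EE d)} {G : EE d → Mt d}

theorem met_det_ne (h : MetOn U G) : ∀ y ∈ U, (G y).det ≠ 0 := by
  intro y hy h0
  obtain ⟨v, hv, hv0⟩ := Matrix.exists_mulVec_eq_zero_iff.2 h0
  have h1 := h.pos y hy v hv
  have h2 : ∑ i, ∑ j, G y i j * v i * v j = ∑ i, v i * (G y).mulVec v i := by
    refine Finset.sum_congr rfl fun i _ => ?_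
    rw [Matrix.mulVec, dotProduct, Finset.mul_sum]
    exact Finset.sum_congr rfl fun j _ => by ring
  rw [h2, hv0] at h1
  simp at h1

theorem met_compat (h : MetOn U G) {x : EE d} (hx : x ∈ U) (i : Fin d) :
    pdM i G x = (chM G i x).transpose * G x + G x * chM G i x :=
  N_chM_compat h.hU hx h.symm (met_det_ne h) i

theorem met_GT (h : MetOn U G) {x : EE d} (hx : x ∈ U) : (G x).transpose = G x := by
  ext i j
  exact h.symm x hx j i

/-- A frame field through a given frame, and its derivative. -/
theorem A5_deriv (h : MetOn U G) {x : EE d} (v : EE d) {e : WW d} {E : EE d → WW d}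
    (hEs : ∀ k i, ContDiffOn ℝ ∞ (fun y => E y k i) U) (hE : ∀ y ∈ U, ((y, E y) : QQ d) ∈ PU U G)
    (hx : x ∈ U) (he : E x = e) :
    let Γ : Mt d := ∑ a, v a • chM G a x
    let D : Mt d := fun k i => ∑ m, v m * pd m (fun y => E y k i) x
    let S : Mt d := -((Matrix.of e).transpose * G x * (Γ * Matrix.of e + D))
    S.transpose = -S := by
  intro Γ D S
  have hdG : ∀ k l, DifferentiableAt ℝ (fun y => G y k l) x := fun k l =>
    ((h.sm k l).contDiffAt (h.hU.mem_nhds hx)).differentiableAt (by simp)
  have hdE : ∀ k l, DifferentiableAt ℝ (fun y => E y k l) x := fun k l =>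
    ((hEs k l).contDiffAt (h.hU.mem_nhds hx)).differentiableAt (by simp)
  set DG : Mt d := fun k l => ∑ m, v m * pd m (fun y => G y k l) x with hDG
  -- derivative of the orthonormality relation
  have h1 : ∀ i j, ∑ k, ∑ l, (DG k l * e k i * e l j + G x k l * (D k i * e l j + e k i * D l j))
      = 0 := by
    intro i j
    have hd : HasDerivAt (fun t : ℝ => ∑ k, ∑ l, G (x + t • v) k l * E (x + t • v) k i *
        E (x + t • v) l j) (∑ k, ∑ l, (DG k l * e k i * e l j +
          G x k l * (D k i * e l j + e k i * D l j))) 0 := by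
      refine HasDerivAt.fun_sum fun k _ => HasDerivAt.fun_sum fun l _ => ?_
      have a1 := A4_dir (v := v) (hdG k l)
      have a2 := A4_dir (v := v) (hdE k i)
      have a3 := A4_dir (v := v) (hdE l j)
      refine ((a1.fun_mul a2).fun_mul a3).congr_deriv ?_
      simp only [zero_smul, add_zero, he]
      simp only [hDG, D]
      ring
    have hc : HasDerivAt (fun t : ℝ => ∑ k, ∑ l, G (x + t • v) k l * E (x + t • v) k i *
        E (x + t • v) l j) 0 0 := by
      refine (hasDerivAt_const (0 : ℝ) (if i = j then (1 : ℝ) else 0)).congr_of_eventuallyEq ?_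
      have hcont : ContinuousAt (fun t : ℝ => x + t • v) 0 := by fun_prop
      have hn : U ∈ 𝓝 (x + (0 : ℝ) • v) := by
        rw [zero_smul, add_zero]
        exact h.hU.mem_nhds hx
      filter_upwards [hcont.preimage_mem_nhds hn] with t ht
      exact (hE _ ht).2 i j
    exact hd.unique hc
  -- in matrix form
  have h2 : (Matrix.of e).transpose * DG * Matrix.of e + (D.transpose * G x * Matrix.of e +
      (Matrix.of e).transpose * G x * D) = 0 := by
    ext i j
    have h3 := h1 i j
    rw [Matrix.zero_apply, ← h3]
    simp only [Matrix.add_apply, Matrix.mul_apply, Matrix.transpose_apply, Matrix.of_apply,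
      Finset.sum_mul]
    rw [Finset.sum_comm, Finset.sum_comm (f := fun l k => D k i * G x k l * e l j),
      Finset.sum_comm (f := fun l k => e k i * G x k l * D l j), ← Finset.sum_add_distrib,
      ← Finset.sum_add_distrib]
    refine Finset.sum_congr rfl fun k _ => ?_
    rw [← Finset.sum_add_distrib, ← Finset.sum_add_distrib]
    exact Finset.sum_congr rfl fun l _ => by ring
  have h4 : DG = Γ.transpose * G x + G x * Γ := by
    have h5 : DG = ∑ m, v m • pdM m G x := by
      ext k l
      rw [Matrix.sum_apply]
      rfl
    rw [h5]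
    simp only [met_compat h hx, smul_add, Finset.sum_add_distrib, Γ]
    rw [Matrix.transpose_sum, Matrix.sum_mul, Matrix.mul_sum]
    simp only [Matrix.transpose_smul, Matrix.smul_mul, Matrix.mul_smul]
  have hGT := met_GT h hx
  rw [h4] at h2
  have h6 : S + S.transpose = 0 := by
    simp only [S, Matrix.transpose_neg, Matrix.transpose_mul, Matrix.transpose_add,
      Matrix.transpose_transpose, hGT]
    have h7 : (Matrix.of e).transpose * G x * (Γ * Matrix.of e + D) +
        ((Matrix.of e).transpose * Γ.transpose + D.transpose) * (G x * Matrix.of e) = 0 := by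
      rw [← h2]
      simp only [Matrix.mul_add, Matrix.add_mul, Matrix.mul_assoc]
      abel
    rw [← neg_add, h7, neg_zero]
  exact eq_neg_of_add_eq_zero_right h6

/-- The horizontal fields are tangent to the set of orthonormal frames. -/
noncomputable def hor (h : MetOn U G) (m : Fin d) : VF U G where
  X := horX G m
  smooth := A4_hor_smooth h m
  tang := by
    rintro F hF h0 ⟨x, e⟩ hq
    obtain ⟨E0, hE0s, hE0⟩ := exists_frame h
    obtain ⟨b, hb⟩ := exists_rt (hE0 x hq.1) hq
    set E : EE d → WW d := fun y => rt (E0 y) (b : Mt d) with hE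
    have hEs : ∀ k i, ContDiffOn ℝ ∞ (fun y => E y k i) U := by
      intro k i
      simp only [hE, rt]
      exact ContDiffOn.sum fun m _ => (hE0s k m).mul contDiffOn_const
    have hEm : ∀ y ∈ U, ((y, E y) : QQ d) ∈ PU U G := fun y hy => rt_mem (hE0 y hy) b
    have hEx : E x = e := hb.symm
    have hx : x ∈ U := hq.1
    set v : EE d := ∑ k, e k m • ebas k with hv
    have hva : ∀ a, v a = e a m := by
      intro a
      rw [hv]
      simp [ebas, Pi.single_apply]
    set Γ : Mt d := ∑ a, v a • chM G a x with hΓ
    set D : Mt d := fun k i => ∑ m, v m * pd m (fun y => E y k i) x with hD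
    set S : Mt d := -((Matrix.of e).transpose * G x * (Γ * Matrix.of e + D)) with hS
    have hskew : S.transpose = -S := A5_deriv h v hEs hEm hx hEx
    have hdE : ∀ k l, DifferentiableAt ℝ (fun y => E y k l) x := fun k l =>
      ((hEs k l).contDiffAt (h.hU.mem_nhds hx)).differentiableAt (by simp)
    refine A4_curve h hF h0 hq
      (γ := fun t => (x + t • v, rt (E (x + t • v)) (NormedSpace.exp (t • S)))) ?_ ?_ ?_
    · rw [A4_exp_zero, rt_one, zero_smul, add_zero, hEx]
    · have c1 : HasDerivAt (fun t : ℝ => x + t • v) v 0 := by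
        have := ((hasDerivAt_id (0 : ℝ)).smul_const v).const_add x
        simpa using this
      refine c1.prodMk ?_
      -- the second component
      have eS : Matrix.of e * S = -(Γ * Matrix.of e + D) := by
        rw [hS, Matrix.mul_neg, ← Matrix.mul_assoc, PU_mul' hq, Matrix.one_mul]
      show HasDerivAt _ (fun k l => -∑ a, ∑ b, chr G k a b x * e a m * e b l) 0
      rw [hasDerivAt_pi]
      intro k
      rw [hasDerivAt_pi]
      intro i
      unfold rt
      have c2 : HasDerivAt (fun t : ℝ => ∑ m', E (x + t • v) k m' *
          (NormedSpace.exp (t • S) : Mt d) m' i) (∑ m', (D k m' * (1 : Mt d) m' i +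
            e k m' * S m' i)) 0 := by
        refine HasDerivAt.fun_sum fun m' _ => ?_
        have a1 := A4_dir (v := v) (hdE k m')
        have a2 := EinsteinSix.hasDerivAt_exp_entry S m' i
        refine (a1.fun_mul a2).congr_deriv ?_
        simp only [zero_smul, add_zero, hEx, NormedSpace.exp_zero]
        rfl
      refine c2.congr_deriv ?_
      rw [Finset.sum_add_distrib]
      have e1 : ∑ m', D k m' * (1 : Mt d) m' i = D k i := by
        have := congrFun (congrFun (Matrix.mul_one D) k) i
        rwa [Matrix.mul_apply] at this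
      have e2 : ∑ m', e k m' * S m' i = -(Γ * Matrix.of e + D) k i := by
        have := congrFun (congrFun eS k) i
        rw [Matrix.mul_apply] at this
        exact this
      rw [e1, e2, Matrix.add_apply, Matrix.mul_apply]
      have e3 : ∑ j, Γ k j * Matrix.of e j i = ∑ a, ∑ b, chr G k a b x * e a m * e b i := by
        rw [Finset.sum_comm]
        refine Finset.sum_congr rfl fun j _ => ?_
        rw [hΓ, Matrix.sum_apply, Finset.sum_mul]
        refine Finset.sum_congr rfl fun a _ => ?_
        rw [hva]
        show e a m * chr G k a j x * e j i = _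
        ring
      rw [e3]
      ring
    · have hcont : ContinuousAt (fun t : ℝ => x + t • v) 0 := by fun_prop
      have hn : U ∈ 𝓝 (x + (0 : ℝ) • v) := by
        rw [zero_smul, add_zero]
        exact h.hU.mem_nhds hx
      filter_upwards [hcont.preimage_mem_nhds hn] with t ht
      exact rt_mem (b := ⟨_, A4_exp_mem S hskew t⟩) (hEm _ ht)

end H60E
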