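import Pool.Agent.Lib.H60E.D2
import Pool.Agent.Lib.H79G.Z7
import Pool.Agent.Lib.H79G.I8
import Pool.Agent.Lib.H79G.A11
import Pool.Agent.Lib.H79G.A10

/-!
# D5: the Gauss-Bonnet-Chern theorem with the curvature tensor in orthonormal frames
-/

set_option autoImplicit false

open scoped ContDiff Topology Manifold
open Set MeasureTheory Filter

namespace H60E

open H31R H79G
open EinsteinSix (OG)
open Pool.Agent.H69Hopf (gaussBonnet)

section loc

variable {d : ℕ} {U : Set (EE d)} {G : EE d → Mt d}

/-- The curvature tensor in an orthonormal frame and the curvature with two upper indices. -/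
theorem crv_eq_trC (h : MetOn U G) {x : EE d} {e : WW d} (hq : ((x, e) : QQ d) ∈ PU U G) :
    crv (riem G x) e = trC (Matrix.of e).transpose ((Matrix.of e).transpose * G x) (cuv G x) := by
  have hx : x ∈ U := hq.1
  have hu : IsUnit (G x).det := isUnit_iff_ne_zero.2 (met_det_ne h x hx)
  have hGT := met_GT h hx
  funext i j a b
  have e1 : ∀ k l, (Matrix.of e).transpose * G x * (Rm G k l x * (G x)⁻¹) *
      (G x * Matrix.of e) = (Matrix.of e).transpose * (G x * Rm G k l x) * Matrix.of e := by
    intro k l
    calc (Matrix.of e).transpose * G x * (Rm G k l x * (G x)⁻¹) * (G x * Matrix.of e)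
        = (Matrix.of e).transpose * G x * Rm G k l x * ((G x)⁻¹ * G x) * Matrix.of e := by
          simp only [Matrix.mul_assoc]
      _ = _ := by
          rw [Matrix.nonsing_inv_mul _ hu, Matrix.mul_one]
          simp only [Matrix.mul_assoc]
  have e2 : ∀ k l, ((Matrix.of e).transpose * (G x * Rm G k l x) * Matrix.of e) a b =
      ∑ c, ∑ f, riem G x k l c f * e c a * e f b := by
    intro k l
    rw [Matrix.mul_apply, Finset.sum_comm]
    refine Finset.sum_congr rfl fun f _ => ?_
    rw [Matrix.mul_apply, Finset.sum_mul]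
    refine Finset.sum_congr rfl fun c _ => ?_
    rw [riem_eq, Matrix.transpose_apply]
    simp only [Matrix.of_apply]
    ring
  have e3 : ∀ k l, ((Matrix.of e).transpose * G x * (Rm G k l x * (G x)⁻¹) *
      (G x * Matrix.of e)) a b = ∑ c, ∑ f, ((Matrix.of e).transpose * G x) a c *
        ((Matrix.of e).transpose * G x) b f * cuv G x k l c f := by
    intro k l
    have e4 : (G x * Matrix.of e) = ((Matrix.of e).transpose * G x).transpose := by
      rw [Matrix.transpose_mul, Matrix.transpose_transpose, hGT]
    rw [e4, Matrix.mul_apply, Finset.sum_comm]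
    refine Finset.sum_congr rfl fun f _ => ?_
    rw [Matrix.mul_apply, Finset.sum_mul]
    refine Finset.sum_congr rfl fun c _ => ?_
    rw [Matrix.transpose_apply]
    unfold cuv
    ring
  show crv (riem G x) e i j a b = ∑ k, ∑ l, ∑ c, ∑ f, (Matrix.of e).transpose i k *
    (Matrix.of e).transpose j l * ((Matrix.of e).transpose * G x) a c *
      ((Matrix.of e).transpose * G x) b f * cuv G x k l c f
  unfold crv
  refine Finset.sum_congr rfl fun k _ => Finset.sum_congr rfl fun l _ => ?_
  have e5 := e3 k l
  rw [e1, e2] at e5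
  have e6 : ∑ c, ∑ f, riem G x k l c f * e k i * e l j * e c a * e f b =
      e k i * e l j * ∑ c, ∑ f, riem G x k l c f * e c a * e f b := by
    simp only [Finset.mul_sum]
    exact Finset.sum_congr rfl fun c _ => Finset.sum_congr rfl fun f _ => by ring
  rw [e6, e5]
  simp only [Finset.mul_sum, Matrix.transpose_apply, Matrix.of_apply]
  exact Finset.sum_congr rfl fun c _ => Finset.sum_congr rfl fun f _ => by ring

end loc

/-- The Gauss-Bonnet-Chern integrand in an orthonormal frame. -/
theorem gb_cuv {n : ℕ} {U : Set (EE (2 * n))} {G : EE (2 * n) → Mt (2 * n)} (h : MetOn U G)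
    {x : EE (2 * n)} {e : WW (2 * n)} (hq : ((x, e) : QQ (2 * n)) ∈ PU U G) :
    gaussBonnet n (crv (riem G x) e) = gaussBonnet n (cuv G x) := by
  have hdet : (Matrix.of e).transpose.det * ((Matrix.of e).transpose * G x).det = 1 := by
    have h1 := congrArg Matrix.det (PU_mul hq)
    rw [Matrix.det_mul, Matrix.det_one] at h1
    rw [mul_comm, Matrix.det_transpose]
    exact h1
  have h1 := evM_PC_trC (Matrix.of e).transpose ((Matrix.of e).transpose * G x) 0 (cuv G x)
  rw [← crv_eq_trC h hq, hdet, one_mul, Matrix.mul_zero, Matrix.zero_mul, evM_zero_PC,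
    evM_zero_PC] at h1
  have h2 : (4 ^ n * (n.factorial : ℝ)) ≠ 0 := by positivity
  exact (div_left_inj' h2).1 h1

variable {n : ℕ} {M : Type} [TopologicalSpace M] [ChartedSpace (EE (2 * n)) M]
  [IsManifold (𝓡 (2 * n)) ∞ M] [MeasurableSpace M] [BorelSpace M] [T2Space M] [CompactSpace M]

/-- **The Gauss-Bonnet-Chern theorem**: the integral of the Gauss-Bonnet-Chern integrand and the sum
of the indices of a vector field with nondegenerate zeros. -/
theorem gauss_bonnet_chern (g : Ch.Metric (2 * n) M) {μ : Measure M} (hμ : IsVol g μ)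
    [IsFiniteMeasure μ] (X : VField (2 * n) M) (hX : X.Nondegenerate) :
    ∫ m, gaussBonnet n (curvM g m) ∂μ =
      4 ^ n * n.factorial * ((2 * Real.pi) ^ n * (X.indexSum : ℝ)) := by
  have h1 := global_limit g hμ X hX
  have h2 : (fun t : ℝ => ∫ m, glob (fun p => UU (g.mat p) (X.vec p) t) m ∂μ) =
      fun _ => ∫ m, glob (fun p => UU (g.mat p) (X.vec p) 0) m ∂μ := by
    funext t
    exact integral_UU_const g hμ X t
  rw [h2] at h1
  have h3 : ∫ m, glob (fun p => UU (g.mat p) (X.vec p) 0) m ∂μ =
      Real.sqrt (2 * Real.pi) ^ (2 * n) * (X.indexSum : ℝ) :=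
    tendsto_nhds_unique tendsto_const_nhds h1
  have h4 : ∀ m, glob (fun p => UU (g.mat p) (X.vec p) 0) m =
      gaussBonnet n (curvM g m) / (4 ^ n * n.factorial) := by
    intro m
    have h5 := gb_cuv (metOn g m) (frm_mem g m (mem_chart_target (EE (2 * n)) m))
    have h6 : curvM g m = crv (riem (g.mat m) (chartAt (EE (2 * n)) m m))
      (frm g m (chartAt (EE (2 * n)) m m)) := rfl
    rw [h6, h5, ← evM_zero_PC]
    unfold glob UU
    simp
  simp only [h4] at h3
  rw [integral_div] at h3
  have h7 : (4 ^ n * (n.factorial : ℝ)) ≠ 0 := by positivity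
  rw [div_eq_iff h7, pow_mul, Real.sq_sqrt (by positivity)] at h3
  rw [h3]
  ring

end H60E
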