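import Pool.Agent.Lib.H60E.D4
import Pool.Agent.Lib.H60E.D5
import Pool.Agent.Lib.H79G.E4

/-!
# D6: the Euler characteristic of closed Einstein six-manifolds of nonpositive sectional curvature
-/

set_option autoImplicit false

open scoped ContDiff Topology Manifold
open Set MeasureTheory Filter

namespace H60E

open H31R H79G
open EinsteinSix (OG)
open Pool.Agent.H69Hopf (gaussBonnet)
open H91.Split (T6 M6 rot)

theorem gb_three' (P : Pool.Agent.H69Hopf.Arr (2 * 3)) :
    gaussBonnet 3 P = HopfSix.gaussBonnet P := by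
  unfold gaussBonnet HopfSix.gaussBonnet
  refine Finset.sum_congr rfl fun σ _ => Finset.sum_congr rfl fun τ _ => ?_
  rw [Fin.prod_univ_three]
  rfl

/-- The Euler characteristic of a closed Riemannian manifold of even dimension. -/
theorem exists_euler (n : ℕ) (M : Type) [TopologicalSpace M] [ChartedSpace (EE (2 * n)) M]
    [IsManifold (𝓡 (2 * n)) ∞ M] [T2Space M] [CompactSpace M] [MeasurableSpace M] [BorelSpace M]
    (g : Ch.Metric (2 * n) M) {μ : Measure M} (hμ : IsVol g μ) [IsFiniteMeasure μ] :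
    ∃ χ : ℤ, IsEulerCharacteristic (2 * n) M χ ∧ ∫ m, gaussBonnet n (curvM g m) ∂μ =
      4 ^ n * n.factorial * ((2 * Real.pi) ^ n * (χ : ℝ)) := by
  obtain ⟨X, hX⟩ := E4_exists_nondegenerate (2 * n) M
  refine ⟨X.indexSum, ⟨⟨X, hX⟩, fun Y hY => ?_⟩, gauss_bonnet_chern g hμ X hX⟩
  have h1 := gauss_bonnet_chern g hμ X hX
  rw [gauss_bonnet_chern g hμ Y hY] at h1
  have h2 : (4 ^ n * (n.factorial : ℝ)) ≠ 0 := by positivity
  have h3 : (2 * Real.pi) ^ n ≠ 0 := by positivity
  have h4 := mul_left_cancel₀ h3 (mul_left_cancel₀ h2 h1)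
  exact_mod_cast h4

/-- **Closed Einstein six-manifolds of nonpositive sectional curvature.** -/
theorem einstein_six (M : Closed 6) (g : Ch.Metric 6 M.carrier) (lam : ℝ) (hE : IsEinstein g lam)
    (hK : SecNonpos g) : ∃ χ : ℤ, IsEulerCharacteristic 6 M.carrier χ ∧ χ ≤ 0 ∧
      (χ = 0 → ∀ m : M.carrier, ∃ e : Fin 6 → Fin 6 → ℝ,
        (∀ i j, ∑ k, ∑ l, g.mat m (chartAt (EE 6) m m) k l * e k i * e l j =
          if i = j then 1 else 0) ∧
        ∀ i j k l, ∑ a, ∑ b, ∑ c, ∑ f, riem (g.mat m) (chartAt (EE 6) m m) a b c f *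
          e a i * e b j * e c k * e f l =
            if (i < 3 ↔ j < 3) then (lam / 2) * ((if i = k then 1 else 0) *
              (if j = l then 1 else 0) - (if i = l then 1 else 0) * (if j = k then 1 else 0))
            else 0) := by
  let _ : MeasurableSpace M.carrier := borel M.carrier
  have : BorelSpace M.carrier := ⟨rfl⟩
  obtain ⟨μ, hμ⟩ := exists_vol g
  have : IsFiniteMeasure μ := vol_finite g hμ
  obtain ⟨χ, h1, h2⟩ := exists_euler 3 M.carrier g hμ
  obtain ⟨h3, h4⟩ := D4_main g hμ lam hE hK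
  have h5 : ∀ m, gaussBonnet 3 (curvM g m) = HopfSix.gaussBonnet (curvM g m) := fun m =>
    gb_three' _
  have h6 : ∫ m, HopfSix.gaussBonnet (curvM g m) ∂μ =
      4 ^ 3 * (Nat.factorial 3 : ℝ) * ((2 * Real.pi) ^ 3 * (χ : ℝ)) := by
    rw [← h2]
    exact integral_congr_ae (Filter.Eventually.of_forall fun m => (h5 m).symm)
  have hpi : 0 < 4 ^ 3 * (Nat.factorial 3 : ℝ) * (2 * Real.pi) ^ 3 := by positivity
  have h7 : 4 ^ 3 * (Nat.factorial 3 : ℝ) * ((2 * Real.pi) ^ 3 * (χ : ℝ)) =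
      (4 ^ 3 * (Nat.factorial 3 : ℝ) * (2 * Real.pi) ^ 3) * (χ : ℝ) := by ring
  refine ⟨χ, h1, ?_, fun h0 m => ?_⟩
  · by_contra hc
    have h8 : (0 : ℝ) < χ := by exact_mod_cast not_le.1 hc
    have h9 := mul_pos hpi h8
    rw [← h7, ← h6] at h9
    exact absurd h3 (not_le.2 h9)
  · have h8 : ∫ m, HopfSix.gaussBonnet (curvM g m) ∂μ = 0 := by
      rw [h6, h0]
      simp
    obtain ⟨b, hb, hr⟩ := h4 h8 m
    have hbo : b ∈ Matrix.orthogonalGroup (Fin 6) ℝ := (Matrix.mem_orthogonalGroup_iff' (Fin 6) ℝ).2 hb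
    refine ⟨rt (frm g m (chartAt (EE 6) m m)) b, ?_, fun i j k l => ?_⟩
    · exact (rt_mem (frm_mem g m (mem_chart_target (EE 6) m)) ⟨b, hbo⟩).2
    · have h9 : crv (riem (g.mat m) (chartAt (EE 6) m m)) (rt (frm g m (chartAt (EE 6) m m)) b)
          i j k l = rot b (curvM g m) i j k l := by
        rw [rot_eq_crv]
        exact (crv_crv (riem (g.mat m) (chartAt (EE 6) m m)) (frm g m (chartAt (EE 6) m m)) b
          i j k l).symm
      refine h9.trans ?_
      rw [hr]
      rfl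

end H60E
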