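import Pool.Agent.Lib.H60E.Defs

/-!
# A1: the derivation defined by a tangential vector field
-/

set_option autoImplicit false

open scoped ContDiff Topology
open Set

namespace H60E

open H31R H79G

variable {d : ℕ} {U : Set (EE d)} {G : EE d → Mt d}

theorem SmF.diffAt (hU : IsOpen U) {F : QQ d → ℝ} (hF : SmF U F) {q : QQ d} (hq : q.1 ∈ U) :
    DifferentiableAt ℝ F q :=
  (hF.contDiffAt ((hU.prod isOpen_univ).mem_nhds ⟨hq, trivial⟩)).differentiableAt (by simp)

theorem SmF.fderiv_apply (hU : IsOpen U) {F : QQ d → ℝ} (hF : SmF U F) {X : QQ d → QQ d}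
    (hX : ContDiffOn ℝ ∞ X (U ×ˢ univ)) : SmF U (fun q => fderiv ℝ F q (X q)) := by
  have h1 : ContDiffOn ℝ ∞ (fderiv ℝ F) (U ×ˢ univ) :=
    hF.fderiv_of_isOpen (hU.prod isOpen_univ) (by simp)
  exact h1.clm_apply hX

/-- The value of the derivation does not depend on the extension. -/
theorem VF.congr (hU : IsOpen U) (X : VF U G) {F F' : QQ d → ℝ} (hF : SmF U F) (hF' : SmF U F')
    (h : ∀ q ∈ PU U G, F q = F' q) {q : QQ d} (hq : q ∈ PU U G) :
    fderiv ℝ F q (X.X q) = fderiv ℝ F' q (X.X q) := by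
  have h1 := X.tang (fun q => F q - F' q) (hF.sub hF') (fun q hq => sub_eq_zero.2 (h q hq)) q hq
  rw [fderiv_fun_sub (hF.diffAt hU hq.1) (hF'.diffAt hU hq.1)] at h1
  exact sub_eq_zero.1 h1

/-- An extension of an element of the algebra. -/
noncomputable def AU.ext (u : AU U G) : QQ d → ℝ := Exists.choose (show ∃ F, SmF U F ∧
  ∀ q : PU U G, u.1 q = F q.1 from u.2)

theorem AU.ext_sm (u : AU U G) : SmF U (AU.ext u) :=
  (Exists.choose_spec (show ∃ F, SmF U F ∧ ∀ q : PU U G, u.1 q = F q.1 from u.2)).1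

theorem AU.ext_eq (u : AU U G) (q : PU U G) : AU.ext u q.1 = u.1 q :=
  ((Exists.choose_spec (show ∃ F, SmF U F ∧ ∀ q : PU U G, u.1 q = F q.1 from u.2)).2 q).symm

/-- The derivation of the algebra of smooth functions on the orthonormal frames defined by a
tangential vector field. -/
noncomputable def VF.der (hU : IsOpen U) (X : VF U G) : Derivation ℝ (AU U G) (AU U G) :=
  Derivation.mk'
    { toFun := fun u => AU.mk (fun q => fderiv ℝ (AU.ext u) q (X.X q))
        ((AU.ext_sm u).fderiv_apply hU X.smooth)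
      map_add' := fun u v => by
        apply Subtype.ext
        funext q
        refine (X.congr hU (AU.ext_sm _) (F' := fun q => AU.ext u q + AU.ext v q)
          ((AU.ext_sm u).add (AU.ext_sm v)) (fun q hq => ?_) q.2).trans ?_
        · rw [AU.ext_eq _ ⟨q, hq⟩, AU.ext_eq u ⟨q, hq⟩, AU.ext_eq v ⟨q, hq⟩]
          rfl
        · rw [fderiv_fun_add ((AU.ext_sm u).diffAt hU q.2.1) ((AU.ext_sm v).diffAt hU q.2.1)]
          rfl
      map_smul' := fun c u => by
        apply Subtype.ext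
        funext q
        refine (X.congr hU (AU.ext_sm _) (F' := fun q => c * AU.ext u q)
          (contDiffOn_const.mul (AU.ext_sm u)) (fun q hq => ?_) q.2).trans ?_
        · rw [AU.ext_eq _ ⟨q, hq⟩, AU.ext_eq u ⟨q, hq⟩]
          rfl
        · rw [fderiv_const_mul ((AU.ext_sm u).diffAt hU q.2.1)]
          rfl }
    (fun u v => by
      apply Subtype.ext
      funext q
      refine (X.congr hU (AU.ext_sm _) (F' := fun q => AU.ext u q * AU.ext v q)
        ((AU.ext_sm u).mul (AU.ext_sm v)) (fun q hq => ?_) q.2).trans ?_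
      · rw [AU.ext_eq _ ⟨q, hq⟩, AU.ext_eq u ⟨q, hq⟩, AU.ext_eq v ⟨q, hq⟩]
        rfl
      · rw [fderiv_fun_mul ((AU.ext_sm u).diffAt hU q.2.1) ((AU.ext_sm v).diffAt hU q.2.1),
          AU.ext_eq u, AU.ext_eq v]
        rfl)

theorem VF.der_apply (hU : IsOpen U) (X : VF U G) (u : AU U G) {F : QQ d → ℝ} (hF : SmF U F)
    (h : ∀ q : PU U G, u.1 q = F q.1) (q : PU U G) :
    (X.der hU u).1 q = fderiv ℝ F q.1 (X.X q.1) := by
  exact X.congr hU (AU.ext_sm u) hF (fun q hq => by rw [AU.ext_eq u ⟨q, hq⟩, ← h ⟨q, hq⟩]) q.2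

/-- The commutator of two derivations is given by the bracket of the fields. -/
theorem VF.lie_apply (hU : IsOpen U) (X Y : VF U G) (u : AU U G) {F : QQ d → ℝ} (hF : SmF U F)
    (h : ∀ q : PU U G, u.1 q = F q.1) (q : PU U G) :
    ((⁅X.der hU, Y.der hU⁆ : Derivation ℝ (AU U G) (AU U G)) u).1 q =
      fderiv ℝ F q.1 (fderiv ℝ Y.X q.1 (X.X q.1) - fderiv ℝ X.X q.1 (Y.X q.1)) := by
  have hY := hF.fderiv_apply hU Y.smooth
  have hX := hF.fderiv_apply hU X.smooth
  have hUo := hU.prod (isOpen_univ (X := WW d))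
  have hq : q.1 ∈ U ×ˢ (univ : Set (WW d)) := ⟨q.2.1, trivial⟩
  have e1 : (X.der hU (Y.der hU u)).1 q =
      fderiv ℝ (fun q => fderiv ℝ F q (Y.X q)) q.1 (X.X q.1) :=
    X.der_apply hU _ hY (fun q => Y.der_apply hU u hF h q) q
  have e2 : (Y.der hU (X.der hU u)).1 q =
      fderiv ℝ (fun q => fderiv ℝ F q (X.X q)) q.1 (Y.X q.1) :=
    Y.der_apply hU _ hX (fun q => X.der_apply hU u hF h q) q
  have e0 : ((⁅X.der hU, Y.der hU⁆ : Derivation ℝ (AU U G) (AU U G)) u).1 q =
      (X.der hU (Y.der hU u)).1 q - (Y.der hU (X.der hU u)).1 q := by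
    rw [Derivation.commutator_apply]
    rfl
  have hFc : ContDiffAt ℝ 2 F q.1 := (hF.contDiffAt (hUo.mem_nhds hq)).of_le (by
    exact WithTop.coe_le_coe.2 (le_top : (2 : ℕ∞) ≤ ⊤))
  have hd : DifferentiableAt ℝ (fderiv ℝ F) q.1 :=
    (hFc.fderiv_right (m := 1) (by norm_cast)).differentiableAt (by simp)
  have dX : DifferentiableAt ℝ X.X q.1 :=
    (X.smooth.contDiffAt (hUo.mem_nhds hq)).differentiableAt (by simp)
  have dY : DifferentiableAt ℝ Y.X q.1 :=
    (Y.smooth.contDiffAt (hUo.mem_nhds hq)).differentiableAt (by simp)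
  have hs : IsSymmSndFDerivAt ℝ F q.1 := hFc.isSymmSndFDerivAt (by
    rw [minSmoothness_of_isRCLikeNormedField])
  rw [e0, e1, e2, fderiv_clm_apply hd dX, fderiv_clm_apply hd dY]
  simp only [add_apply, ContinuousLinearMap.comp_apply,
    ContinuousLinearMap.flip_apply, map_sub]
  rw [hs (X.X q.1) (Y.X q.1)]
  ring

/-- Derivations are determined by the values of the fields on the orthonormal frames: linear
combinations with coefficients in the algebra. -/
theorem AU.ext_iff' {D D' : Derivation ℝ (AU U G) (AU U G)}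
    (h : ∀ (F : QQ d → ℝ) (hF : SmF U F) (q : PU U G), (D (AU.mk F hF)).1 q =
      (D' (AU.mk F hF)).1 q) : D = D' := by
  ext u
  obtain ⟨F, hF, hu⟩ := u.2
  have e : u = AU.mk F hF := Subtype.ext (funext hu)
  rw [e]
  exact congrArg (fun f : PU U G → ℝ => f _) (funext fun q => h F hF q)

end H60E
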