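import Pool.Agent.Lib.H60E.A3

/-!
# A2: a smooth field of orthonormal frames (Gram-Schmidt)
-/

set_option autoImplicit false

open scoped ContDiff Topology
open Set

namespace H60E

open H31R H79G

variable {d : ℕ} {U : Set (EE d)} {G : EE d → Mt d}

/-- The scalar product. -/
def A2_ip (G : EE d → Mt d) (y : EE d) (v w : Fin d → ℝ) : ℝ := ∑ i, ∑ j, G y i j * v i * w j

/-- Partial frames with the triangular property, by induction on their number. -/
theorem A2_step (h : MetOn U G) (n : ℕ) (hn : n ≤ d) : ∃ E : Fin n → EE d → Fin d → ℝ,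
    (∀ i k, ContDiffOn ℝ ∞ (fun y => E i y k) U) ∧
    (∀ y ∈ U, ∀ i j, A2_ip G y (E i y) (E j y) = if i = j then 1 else 0) ∧
    (∀ y ∈ U, ∀ (i : Fin n) (k : Fin d), i.1 < k.1 → E i y k = 0) := by
  induction n with
  | zero => exact ⟨fun i => i.elim0, fun i => i.elim0, fun y _ i => i.elim0, fun y _ i => i.elim0⟩
  | succ n ih =>
    obtain ⟨E, h1, h2, h3⟩ := ih (by omega)
    set p : Fin d := ⟨n, by omega⟩ with hp
    -- the new vector before normalisation
    set w : EE d → Fin d → ℝ := fun y k => (if k = p then 1 else 0) -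
      ∑ i, A2_ip G y (fun k => if k = p then 1 else 0) (E i y) * E i y k with hw
    have hsymm : ∀ y ∈ U, ∀ v v' : Fin d → ℝ, A2_ip G y v v' = A2_ip G y v' v := by
      intro y hy v v'
      unfold A2_ip
      rw [Finset.sum_comm]
      exact Finset.sum_congr rfl fun i _ => Finset.sum_congr rfl fun j _ => by
        rw [h.symm y hy j i]; ring
    have hsm : ∀ (v v' : EE d → Fin d → ℝ), (∀ k, ContDiffOn ℝ ∞ (fun y => v y k) U) →
        (∀ k, ContDiffOn ℝ ∞ (fun y => v' y k) U) →
        ContDiffOn ℝ ∞ (fun y => A2_ip G y (v y) (v' y)) U := by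
      intro v v' hv hv'
      unfold A2_ip
      exact ContDiffOn.sum fun i _ => ContDiffOn.sum fun j _ =>
        ((h.sm i j).mul (hv i)).mul (hv' j)
    have hws : ∀ k, ContDiffOn ℝ ∞ (fun y => w y k) U := by
      intro k
      refine contDiffOn_const.sub (ContDiffOn.sum fun i _ => ?_)
      exact (hsm (fun _ k => if k = p then 1 else 0) _ (fun k => contDiffOn_const) (h1 i)).mul
        (h1 i k)
    have hwp : ∀ y ∈ U, w y p = 1 := by
      intro y hy
      simp only [hw, if_true]
      have : ∀ i : Fin n, E i y p = 0 := fun i => h3 y hy i p i.2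
      simp [this]
    have hwz : ∀ y ∈ U, ∀ k : Fin d, n < k.1 → w y k = 0 := by
      intro y hy k hk
      have hkp : k ≠ p := by
        intro h
        rw [h] at hk
        exact absurd hk (lt_irrefl n)
      have : ∀ i : Fin n, E i y k = 0 := fun i => h3 y hy i k (i.2.trans hk)
      simp [hw, hkp, this]
    have hpos : ∀ y ∈ U, 0 < A2_ip G y (w y) (w y) := by
      intro y hy
      refine h.pos y hy (w y) (fun h0 => ?_)
      have := congrFun h0 p
      rw [hwp y hy] at this
      exact one_ne_zero this
    -- linearity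
    have hlin : ∀ (y : EE d) (v : Fin d → ℝ) (a : Fin d → ℝ) (c : Fin n → ℝ) (V : Fin n → Fin d → ℝ),
        A2_ip G y (fun k => a k - ∑ i, c i * V i k) v =
          A2_ip G y a v - ∑ i, c i * A2_ip G y (V i) v := by
      intro y v a c V
      unfold A2_ip
      simp only [Finset.mul_sum, mul_sub, sub_mul, Finset.sum_sub_distrib, Finset.sum_mul]
      congr 1
      rw [Finset.sum_comm' (s := Finset.univ) (t := fun _ => Finset.univ) (t' := Finset.univ)
        (s' := fun _ => Finset.univ) (by simp)]
      have : ∀ k : Fin d, ∑ i : Fin d, ∑ x : Fin n, G y i k * (c x * V x i) * v k =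
          ∑ x : Fin n, ∑ i : Fin d, c x * (G y i k * V x i * v k) := by
        intro k
        rw [Finset.sum_comm]
        exact Finset.sum_congr rfl fun x _ => Finset.sum_congr rfl fun i _ => by ring
      simp only [this]
      rw [Finset.sum_comm]
      exact Finset.sum_congr rfl fun x _ => by rw [Finset.sum_comm]
    have horth : ∀ y ∈ U, ∀ j, A2_ip G y (w y) (E j y) = 0 := by
      intro y hy j
      have e1 := hlin y (E j y) (fun k => if k = p then 1 else 0)
        (fun i => A2_ip G y (fun k => if k = p then 1 else 0) (E i y)) (fun i => E i y)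
      have e2 : A2_ip G y (w y) (E j y) = _ := e1
      rw [e2]
      simp only [h2 y hy]
      simp
    have hscale : ∀ (y : EE d) (c : ℝ) (v v' : Fin d → ℝ),
        A2_ip G y (fun k => c * v k) v' = c * A2_ip G y v v' := by
      intro y c v v'
      unfold A2_ip
      simp only [Finset.mul_sum]
      exact Finset.sum_congr rfl fun i _ => Finset.sum_congr rfl fun j _ => by ring
    set N : EE d → ℝ := fun y => (Real.sqrt (A2_ip G y (w y) (w y)))⁻¹ with hN
    have hNs : ContDiffOn ℝ ∞ N U := by
      refine ContDiffOn.inv (ContDiffOn.sqrt (hsm _ _ hws hws) fun y hy => (hpos y hy).ne') ?_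
      exact fun y hy => (Real.sqrt_pos.2 (hpos y hy)).ne'
    refine ⟨Fin.snoc (α := fun _ => EE d → Fin d → ℝ) E (fun y k => N y * w y k), ?_, ?_, ?_⟩
    · intro i
      refine Fin.lastCases ?_ (fun i => ?_) i
      · intro k
        simp only [Fin.snoc_last]
        exact hNs.mul (hws k)
      · intro k
        simp only [Fin.snoc_castSucc]
        exact h1 i k
    · intro y hy i j
      have hl : A2_ip G y (fun k => N y * w y k) (fun k => N y * w y k) = 1 := by
        rw [hscale, hsymm y hy, hscale]
        have hs := hpos y hy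
        rw [hN]
        simp only
        have h5 := Real.mul_self_sqrt hs.le
        have h6 := (Real.sqrt_pos.2 hs).ne'
        field_simp
        nlinarith
      refine Fin.lastCases ?_ (fun i => ?_) i
      · refine Fin.lastCases ?_ (fun j => ?_) j
        · simp only [Fin.snoc_last, if_true]
          exact hl
        · simp only [Fin.snoc_last, Fin.snoc_castSucc]
          rw [if_neg (Fin.castSucc_lt_last j).ne', hscale, horth y hy j, mul_zero]
      · refine Fin.lastCases ?_ (fun j => ?_) j
        · simp only [Fin.snoc_last, Fin.snoc_castSucc]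
          rw [if_neg (Fin.castSucc_lt_last i).ne, hsymm y hy, hscale, horth y hy i, mul_zero]
        · simp only [Fin.snoc_castSucc, Fin.castSucc_inj]
          exact h2 y hy i j
    · intro y hy i k hik
      revert hik
      refine Fin.lastCases ?_ (fun i => ?_) i
      · intro hik
        simp only [Fin.snoc_last]
        rw [hwz y hy k (by simpa using hik), mul_zero]
      · intro hik
        simp only [Fin.snoc_castSucc]
        exact h3 y hy i k (by simpa using hik)

/-- A smooth field of orthonormal frames. -/
theorem exists_frame (h : MetOn U G) : ∃ E : EE d → WW d,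
    (∀ k i, ContDiffOn ℝ ∞ (fun y => E y k i) U) ∧ ∀ y ∈ U, ((y, E y) : QQ d) ∈ PU U G := by
  obtain ⟨E, h1, h2, -⟩ := A2_step h d le_rfl
  refine ⟨fun y k i => E i y k, fun k i => h1 i k, fun y hy => ⟨hy, fun i j => ?_⟩⟩
  exact h2 y hy i j

end H60E
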