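import Pool.Agent.Lib.H60E.A1
import Pool.Agent.Lib.EinsteinSix.Sphere

/-!
# A3: linear algebra of orthonormal frames
-/

set_option autoImplicit false

open scoped ContDiff Topology
open Set

namespace H60E

open H31R H79G
open EinsteinSix (OG)

variable {d : ℕ} {U : Set (EE d)} {G : EE d → Mt d}

theorem rt_eq (e : WW d) (b : Mt d) : Matrix.of (rt e b) = Matrix.of e * b := by
  ext k i
  rw [Matrix.mul_apply]
  rfl

theorem rt_mul (e : WW d) (b c : Mt d) : rt e (b * c) = rt (rt e b) c := by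
  have h : Matrix.of (rt e (b * c)) = Matrix.of (rt (rt e b) c) := by
    rw [rt_eq, rt_eq, rt_eq, Matrix.mul_assoc]
  exact Matrix.of.injective h

theorem rt_one (e : WW d) : rt e 1 = e := by
  have h : Matrix.of (rt e 1) = Matrix.of e := by rw [rt_eq, Matrix.mul_one]
  exact Matrix.of.injective h

theorem mem_PU_iff {x : EE d} {e : WW d} : ((x, e) : QQ d) ∈ PU U G ↔
    x ∈ U ∧ (Matrix.of e).transpose * G x * Matrix.of e = 1 := by
  constructor
  · rintro ⟨h1, h2⟩
    refine ⟨h1, ?_⟩
    ext i j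
    have h3 := h2 i j
    rw [Matrix.one_apply, ← h3, Matrix.mul_apply]
    simp only [Matrix.mul_apply, Matrix.transpose_apply, Matrix.of_apply, Finset.sum_mul]
    rw [Finset.sum_comm]
    exact Finset.sum_congr rfl fun k _ => Finset.sum_congr rfl fun l _ => by ring
  · rintro ⟨h1, h2⟩
    refine ⟨h1, fun i j => ?_⟩
    have h3 := congrFun (congrFun h2 i) j
    rw [Matrix.one_apply, Matrix.mul_apply] at h3
    rw [← h3]
    simp only [Matrix.mul_apply, Matrix.transpose_apply, Matrix.of_apply, Finset.sum_mul]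
    rw [Finset.sum_comm]
    exact Finset.sum_congr rfl fun k _ => Finset.sum_congr rfl fun l _ => by ring

theorem PU_mul {x : EE d} {e : WW d} (h : ((x, e) : QQ d) ∈ PU U G) :
    (Matrix.of e).transpose * G x * Matrix.of e = 1 := (mem_PU_iff.1 h).2

/-- `e⁻¹ = eᵀ G`. -/
theorem PU_mul' {x : EE d} {e : WW d} (h : ((x, e) : QQ d) ∈ PU U G) :
    Matrix.of e * ((Matrix.of e).transpose * G x) = 1 :=
  mul_eq_one_comm.1 (PU_mul h)

/-- `e eᵀ = G⁻¹`. -/
theorem PU_inv {x : EE d} {e : WW d} (h : ((x, e) : QQ d) ∈ PU U G) :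
    (G x)⁻¹ = Matrix.of e * (Matrix.of e).transpose := by
  apply Matrix.inv_eq_left_inv
  rw [Matrix.mul_assoc]
  exact PU_mul' h

theorem PU_inv_apply {x : EE d} {e : WW d} (h : ((x, e) : QQ d) ∈ PU U G) (i j : Fin d) :
    (G x)⁻¹ i j = ∑ m, e i m * e j m := by
  rw [PU_inv h, Matrix.mul_apply]
  rfl

/-- Rotated frames. -/
theorem rt_mem {x : EE d} {e : WW d} (h : ((x, e) : QQ d) ∈ PU U G) (b : OG d) :
    ((x, rt e b) : QQ d) ∈ PU U G := by
  rw [mem_PU_iff] at h ⊢
  refine ⟨h.1, ?_⟩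
  have e1 : ((b : Mt d).transpose * (Matrix.of e).transpose) * G x * (Matrix.of e * (b : Mt d)) =
      (b : Mt d).transpose * ((Matrix.of e).transpose * G x * Matrix.of e) * (b : Mt d) := by
    simp only [Matrix.mul_assoc]
  rw [rt_eq, Matrix.transpose_mul, e1, h.2, Matrix.mul_one]
  exact EinsteinSix.og_left b

/-- Two orthonormal frames at the same point differ by a rotation. -/
theorem exists_rt {x : EE d} {e e' : WW d} (h : ((x, e) : QQ d) ∈ PU U G)
    (h' : ((x, e') : QQ d) ∈ PU U G) : ∃ b : OG d, e' = rt e b := by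
  have h1 := PU_mul' h
  have h2 := PU_mul h'
  set b : Mt d := (Matrix.of e).transpose * G x * Matrix.of e' with hb
  have e1 : Matrix.of e * b = Matrix.of e' := by
    rw [hb, ← Matrix.mul_assoc, h1, Matrix.one_mul]
  have e2 : b.transpose * b = 1 := by
    have h3 := PU_mul h
    rw [← e1] at h2
    have e4 : (Matrix.of e * b).transpose * G x * (Matrix.of e * b) =
        b.transpose * ((Matrix.of e).transpose * G x * Matrix.of e) * b := by
      rw [Matrix.transpose_mul]
      simp only [Matrix.mul_assoc]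
    rw [e4, h3, Matrix.mul_one] at h2
    exact h2
  refine ⟨⟨b, (Matrix.mem_orthogonalGroup_iff' (Fin d) ℝ).2 e2⟩, ?_⟩
  apply Matrix.of.injective
  rw [rt_eq]
  exact e1.symm

end H60E
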