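import Pool.Agent.Lib.H60E.A2

/-!
# A4: tangency of the vertical and the horizontal fields
-/

set_option autoImplicit false

open scoped ContDiff Topology
open Set

namespace H60E

open H31R H79G
open EinsteinSix (OG)

variable {d : ℕ} {U : Set (EE d)} {G : EE d → Mt d}

/-- A vector which is the velocity of a curve in the set of orthonormal frames annihilates the
functions which vanish on this set. -/
theorem A4_curve (h : MetOn U G) {F : QQ d → ℝ} (hF : SmF U F) (h0 : ∀ q ∈ PU U G, F q = 0)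
    {q v : QQ d} (hq : q ∈ PU U G) {γ : ℝ → QQ d} (hγ0 : γ 0 = q) (hγ : HasDerivAt γ v 0)
    (hP : ∀ᶠ t in 𝓝 (0 : ℝ), γ t ∈ PU U G) : fderiv ℝ F q v = 0 := by
  have h1 : HasFDerivAt F (fderiv ℝ F q) (γ 0) := by
    rw [hγ0]
    exact (hF.diffAt h.hU hq.1).hasFDerivAt
  have h2 : HasDerivAt (fun t => F (γ t)) (fderiv ℝ F q v) 0 := h1.comp_hasDerivAt 0 hγ
  have h3 : HasDerivAt (fun t => F (γ t)) 0 0 := by
    refine (hasDerivAt_const (0 : ℝ) (0 : ℝ)).congr_of_eventuallyEq ?_
    filter_upwards [hP] with t ht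
    exact h0 _ ht
  exact h2.unique h3

theorem A4_exp_mem (S : Mt d) (hS : S.transpose = -S) (t : ℝ) :
    NormedSpace.exp (t • S) ∈ Matrix.orthogonalGroup (Fin d) ℝ := by
  have h := EinsteinSix.exp_mem_og ((1 / 2 : ℝ) • S) t
  have e : (1 / 2 : ℝ) • S - ((1 / 2 : ℝ) • S).transpose = S := by
    rw [Matrix.transpose_smul, hS, smul_neg, sub_neg_eq_add, ← add_smul]
    norm_num
  rwa [e] at h

theorem A4_hasDerivAt_rt (e : WW d) (S : Mt d) :
    HasDerivAt (fun t : ℝ => rt e (NormedSpace.exp (t • S))) (rt e S) 0 := by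
  rw [hasDerivAt_pi]
  intro k
  rw [hasDerivAt_pi]
  intro i
  unfold rt
  refine HasDerivAt.fun_sum fun m _ => ?_
  exact (EinsteinSix.hasDerivAt_exp_entry S m i).const_mul (e k m)

theorem A4_exp_zero (S : Mt d) : NormedSpace.exp ((0 : ℝ) • S) = 1 := by
  rw [zero_smul, NormedSpace.exp_zero]

theorem A4_rt_smooth (S : Mt d) : ContDiff ℝ ∞ (fun e : WW d => rt e S) := by
  rw [contDiff_pi]
  intro k
  rw [contDiff_pi]
  intro i
  unfold rt
  refine ContDiff.sum fun m _ => ?_
  exact (contDiff_apply_apply ℝ ℝ k m).mul contDiff_const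

/-- The vertical field of a skew matrix. -/
def vert (h : MetOn U G) (S : Mt d) (hS : S.transpose = -S) : VF U G where
  X := vertX S
  smooth := by
    have h1 : ContDiff ℝ ∞ (fun q : QQ d => rt q.2 S) := (A4_rt_smooth S).comp contDiff_snd
    exact (contDiff_const.prodMk h1).contDiffOn
  tang := by
    intro F hF h0 q hq
    refine A4_curve h hF h0 hq (γ := fun t => (q.1, rt q.2 (NormedSpace.exp (t • S)))) ?_ ?_ ?_
    · rw [A4_exp_zero, rt_one]
    · exact (hasDerivAt_const (0 : ℝ) q.1).prodMk (A4_hasDerivAt_rt q.2 S)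
    · exact Filter.Eventually.of_forall fun t => rt_mem (b := ⟨_, A4_exp_mem S hS t⟩) hq

/-- directional derivative of a function on `U` -/
theorem A4_dir {f : EE d → ℝ} {x v : EE d} (hf : DifferentiableAt ℝ f x) :
    HasDerivAt (fun t : ℝ => f (x + t • v)) (∑ k, v k * pd k f x) 0 := by
  have h1 : HasDerivAt (fun t : ℝ => x + t • v) v 0 := by
    have := ((hasDerivAt_id (0 : ℝ)).smul_const v).const_add x
    simpa using this
  have h2 : HasFDerivAt f (fderiv ℝ f x) (x + (0 : ℝ) • v) := by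
    rw [zero_smul, add_zero]
    exact hf.hasFDerivAt
  have h3 := h2.comp_hasDerivAt (0 : ℝ) h1
  refine h3.congr_deriv ?_
  have hv : v = ∑ k, v k • ebas k := N_basis v
  conv_lhs => rw [hv]
  rw [map_sum]
  exact Finset.sum_congr rfl fun k _ => by rw [map_smul]; rfl

/-- The horizontal field. -/
theorem A4_hor_smooth (h : MetOn U G) (m : Fin d) : ContDiffOn ℝ ∞ (horX G m) (U ×ˢ univ) := by
  have hdet : ∀ y ∈ U, (G y).det ≠ 0 := by
    intro y hy h0
    obtain ⟨v, hv, hv0⟩ := Matrix.exists_mulVec_eq_zero_iff.2 h0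
    have h1 := h.pos y hy v hv
    have h2 : ∑ i, ∑ j, G y i j * v i * v j = ∑ i, v i * (G y).mulVec v i := by
      refine Finset.sum_congr rfl fun i _ => ?_
      rw [Matrix.mulVec, dotProduct, Finset.mul_sum]
      exact Finset.sum_congr rfl fun j _ => by ring
    rw [h2, hv0] at h1
    simp at h1
  have hinv : ∀ i j, ContDiffOn ℝ ∞ (fun y => (G y)⁻¹ i j) U := by
    intro i j
    rw [contDiffOn_infty]
    intro n
    exact N_inv_sm (fun i j => (h.sm i j).of_le (by exact_mod_cast le_top)) hdet i j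
  have hpd : ∀ {f : EE d → ℝ}, ContDiffOn ℝ ∞ f U → ∀ k, ContDiffOn ℝ ∞ (pd k f) U := by
    intro f hf k
    exact (hf.fderiv_of_isOpen h.hU (by simp)).clm_apply contDiffOn_const
  have hchr : ∀ k a b, ContDiffOn ℝ ∞ (chr G k a b) U := by
    intro k a b
    unfold chr
    exact contDiffOn_const.mul (ContDiffOn.sum fun l _ => (hinv k l).mul
      (((hpd (h.sm b l) a).add (hpd (h.sm a l) b)).sub (hpd (h.sm a b) l)))
  have hc : ∀ a m, ContDiff ℝ ∞ (fun q : QQ d => q.2 a m) := fun a m =>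
    (contDiff_apply_apply ℝ ℝ a m).comp contDiff_snd
  unfold horX
  refine ContDiffOn.prodMk ?_ ?_
  · exact (ContDiff.sum fun k _ => (hc k m).smul contDiff_const).contDiffOn
  · rw [contDiffOn_pi]
    intro k
    rw [contDiffOn_pi]
    intro l
    refine ContDiffOn.neg (ContDiffOn.sum fun a _ => ContDiffOn.sum fun b _ => ?_)
    refine ContDiffOn.mul (ContDiffOn.mul ?_ (hc a m).contDiffOn) (hc b l).contDiffOn
    exact (hchr k a b).comp contDiffOn_fst fun q hq => hq.1

end H60E
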