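import Pool.Agent.Lib.H60E.A5

/-!
# A6: the vertical and horizontal derivations and their commutators `[V, V]`, `[V, B]`
-/

set_option autoImplicit false

open scoped ContDiff Topology
open Set

namespace H60E

open H31R H79G
open EinsteinSix (OG EM EM_mul EM_T)

variable {d : ℕ} {U : Set (EE d)} {G : EE d → Mt d}

/-- The vertical field as a linear map. -/
def vertL (S : Mt d) : QQ d →ₗ[ℝ] QQ d where
  toFun := vertX S
  map_add' p q := by
    refine Prod.ext ?_ ?_
    · simp [vertX]
    · funext k i
      simp only [vertX, rt, Prod.snd_add, Pi.add_apply, add_mul, Finset.sum_add_distrib]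
  map_smul' c q := by
    refine Prod.ext ?_ ?_
    · simp [vertX]
    · funext k i
      simp only [vertX, rt, Prod.smul_snd, Pi.smul_apply, smul_eq_mul, Finset.mul_sum,
        RingHom.id_apply]
      exact Finset.sum_congr rfl fun m _ => by ring

theorem fderiv_vertX (S : Mt d) (q w : QQ d) : fderiv ℝ (vertX S) q w = vertX S w := by
  have h : vertX S = ⇑(LinearMap.toContinuousLinearMap (vertL S)) := rfl
  rw [h, ContinuousLinearMap.fderiv]

/-- The derivative of the horizontal field. -/
theorem fderiv_horX (h : MetOn U G) (m : Fin d) {q : QQ d} (hq : q.1 ∈ U) (w : QQ d) :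
    fderiv ℝ (horX G m) q w = (∑ k, w.2 k m • ebas k, fun k l => -∑ a, ∑ b,
      ((∑ j, w.1 j * pd j (chr G k a b) q.1) * q.2 a m * q.2 b l +
        chr G k a b q.1 * (w.2 a m * q.2 b l + q.2 a m * w.2 b l))) := by
  have hd : DifferentiableAt ℝ (horX G m) q :=
    ((A4_hor_smooth h m).contDiffAt ((h.hU.prod isOpen_univ).mem_nhds ⟨hq, trivial⟩)).differentiableAt
      (by simp)
  have h1 : HasDerivAt (fun t : ℝ => q + t • w) w 0 := by
    have := ((hasDerivAt_id (0 : ℝ)).smul_const w).const_add q
    simpa using this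
  have h2 : HasFDerivAt (horX G m) (fderiv ℝ (horX G m) q) (q + (0 : ℝ) • w) := by
    rw [zero_smul, add_zero]
    exact hd.hasFDerivAt
  have h3 := h2.comp_hasDerivAt (0 : ℝ) h1
  refine h3.unique ?_
  have he : ∀ a i, HasDerivAt (fun t : ℝ => (q + t • w).2 a i) (w.2 a i) 0 := by
    intro a i
    have := ((hasDerivAt_id (0 : ℝ)).mul_const (w.2 a i)).const_add (q.2 a i)
    simpa using this
  have hdet := (met_det_ne h)
  have hchr : ∀ k a b, ContDiffOn ℝ ∞ (chr G k a b) U := by
    intro k a b
    rw [contDiffOn_infty]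
    intro n
    exact N_chr_sm (n := n) h.hU (fun i j => (h.sm i j).of_le (by exact_mod_cast le_top)) hdet k a b
  have hc : ∀ k a b, HasDerivAt (fun t : ℝ => chr G k a b (q + t • w).1)
      (∑ j, w.1 j * pd j (chr G k a b) q.1) 0 := fun k a b =>
    A4_dir (v := w.1) (((hchr k a b).contDiffAt (h.hU.mem_nhds hq)).differentiableAt (by simp))
  refine HasDerivAt.prodMk ?_ ?_
  · refine HasDerivAt.fun_sum fun k _ => ?_
    exact (he k m).smul_const _
  · rw [hasDerivAt_pi]
    intro k
    rw [hasDerivAt_pi]
    intro l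
    refine HasDerivAt.neg (HasDerivAt.fun_sum fun a _ => HasDerivAt.fun_sum fun b _ => ?_)
    refine (((hc k a b).fun_mul (he a m)).fun_mul (he b l)).congr_deriv ?_
    simp only [zero_smul, add_zero]
    ring

/-- The vertical derivation of the skew matrix `M - Mᵀ`. -/
noncomputable def VM (h : MetOn U G) (M : Mt d) : Derivation ℝ (AU U G) (AU U G) :=
  (vert h (M - M.transpose) (by
    rw [Matrix.transpose_sub, Matrix.transpose_transpose, neg_sub])).der h.hU

/-- The horizontal derivations. -/
noncomputable def Bd (h : MetOn U G) (m : Fin d) : Derivation ℝ (AU U G) (AU U G) :=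
  (hor h m).der h.hU

theorem VM_mk (h : MetOn U G) (M : Mt d) {F : QQ d → ℝ} (hF : SmF U F) (q : PU U G) :
    (VM h M (AU.mk F hF)).1 q = fderiv ℝ F q.1 (vertX (M - M.transpose) q.1) :=
  VF.der_apply h.hU _ _ hF (fun _ => rfl) q

theorem Bd_mk (h : MetOn U G) (m : Fin d) {F : QQ d → ℝ} (hF : SmF U F) (q : PU U G) :
    (Bd h m (AU.mk F hF)).1 q = fderiv ℝ F q.1 (horX G m q.1) :=
  VF.der_apply h.hU _ _ hF (fun _ => rfl) q

theorem vertX_add (S T : Mt d) (q : QQ d) : vertX (S + T) q = vertX S q + vertX T q := by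
  refine Prod.ext ?_ ?_
  · simp [vertX]
  · funext k i
    simp only [vertX, rt, Prod.snd_add, Pi.add_apply, Matrix.add_apply, mul_add,
      Finset.sum_add_distrib]

theorem vertX_smul (c : ℝ) (S : Mt d) (q : QQ d) : vertX (c • S) q = c • vertX S q := by
  refine Prod.ext ?_ ?_
  · simp [vertX]
  · funext k i
    simp only [vertX, rt, Prod.smul_snd, Pi.smul_apply, Matrix.smul_apply, smul_eq_mul,
      Finset.mul_sum]
    exact Finset.sum_congr rfl fun m _ => by ring

theorem vertX_zero (q : QQ d) : vertX (0 : Mt d) q = 0 := by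
  have := vertX_smul (0 : ℝ) (0 : Mt d) q
  rwa [zero_smul, zero_smul] at this

theorem vertX_neg (S : Mt d) (q : QQ d) : vertX (-S) q = -vertX S q := by
  have := vertX_smul (-1 : ℝ) S q
  rwa [neg_one_smul, neg_one_smul] at this

theorem vertX_sum {ι : Type*} (s : Finset ι) (S : ι → Mt d) (q : QQ d) :
    vertX (∑ i ∈ s, S i) q = ∑ i ∈ s, vertX (S i) q := by
  classical
  induction s using Finset.induction_on with
  | empty => simp [vertX_zero]
  | insert a s ha ih => rw [Finset.sum_insert ha, Finset.sum_insert ha, vertX_add, ih]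

theorem VM_congr (h : MetOn U G) {M N : Mt d} (hMN : M - M.transpose = N - N.transpose) :
    VM h M = VM h N :=
  AU.ext_iff' fun F hF q => by rw [VM_mk, VM_mk, hMN]

theorem VM_add (h : MetOn U G) (M N : Mt d) : VM h (M + N) = VM h M + VM h N :=
  AU.ext_iff' fun F hF q => by
    have e : M + N - (M + N).transpose = (M - M.transpose) + (N - N.transpose) := by
      rw [Matrix.transpose_add]
      abel
    have e2 : ((VM h M + VM h N) (AU.mk F hF)).1 q =
      (VM h M (AU.mk F hF)).1 q + (VM h N (AU.mk F hF)).1 q := rfl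
    rw [e2, VM_mk, VM_mk, VM_mk, e, vertX_add, map_add]

theorem VM_zero (h : MetOn U G) : VM h (0 : Mt d) = 0 :=
  AU.ext_iff' fun F hF q => by
    rw [VM_mk]
    simp [vertX_zero]

theorem VM_neg (h : MetOn U G) (M : Mt d) : VM h (-M) = -VM h M :=
  AU.ext_iff' fun F hF q => by
    have e : -M - (-M).transpose = -(M - M.transpose) := by
      rw [Matrix.transpose_neg]
      abel
    have e2 : ((-VM h M) (AU.mk F hF)).1 q = -(VM h M (AU.mk F hF)).1 q := rfl
    rw [e2, VM_mk, VM_mk, e, vertX_neg, map_neg]

theorem VM_sub (h : MetOn U G) (M N : Mt d) : VM h (M - N) = VM h M - VM h N := by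
  rw [sub_eq_add_neg, VM_add, VM_neg]
  exact (sub_eq_add_neg (VM h M) (VM h N)).symm

theorem VM_transpose (h : MetOn U G) (M : Mt d) : VM h M.transpose = -VM h M := by
  rw [← VM_neg]
  refine VM_congr h ?_
  simp
  abel

theorem vertX_comp (S T : Mt d) (q : QQ d) : vertX T (vertX S q) = vertX (S * T) q := by
  refine Prod.ext rfl ?_
  show rt (rt q.2 S) T = rt q.2 (S * T)
  rw [rt_mul]

theorem VM_lie (h : MetOn U G) (M N : Mt d) :
    ⁅VM h M, VM h N⁆ = VM h ((M - M.transpose) * (N - N.transpose)) :=
  AU.ext_iff' fun F hF q => by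
    rw [VM_mk]
    have h1 := VF.lie_apply h.hU (vert h (M - M.transpose) (by
      rw [Matrix.transpose_sub, Matrix.transpose_transpose, neg_sub])) (vert h (N - N.transpose) (by
      rw [Matrix.transpose_sub, Matrix.transpose_transpose, neg_sub])) (AU.mk F hF) hF
      (fun _ => rfl) q
    refine h1.trans ?_
    congr 1
    show fderiv ℝ (vertX (N - N.transpose)) q.1 (vertX (M - M.transpose) q.1) -
      fderiv ℝ (vertX (M - M.transpose)) q.1 (vertX (N - N.transpose) q.1) = _
    rw [fderiv_vertX, fderiv_vertX, vertX_comp, vertX_comp]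
    have e : (M - M.transpose) * (N - N.transpose) -
        ((M - M.transpose) * (N - N.transpose)).transpose =
        (M - M.transpose) * (N - N.transpose) + -((N - N.transpose) * (M - M.transpose)) := by
      rw [Matrix.transpose_mul, Matrix.transpose_sub, Matrix.transpose_sub,
        Matrix.transpose_transpose, Matrix.transpose_transpose]
      have e3 : (N.transpose - N) * (M.transpose - M) = (N - N.transpose) * (M - M.transpose) := by
        rw [← neg_sub N, ← neg_sub M, neg_mul_neg]
      rw [e3, sub_eq_add_neg]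
    rw [e, vertX_add, vertX_neg, sub_eq_add_neg]

/-- The vertical derivations of a basis of the skew matrices. -/
noncomputable def Vd (h : MetOn U G) (i j : Fin d) : Derivation ℝ (AU U G) (AU U G) := VM h (EM i j)

theorem Vd_skew (h : MetOn U G) (i j : Fin d) : Vd h i j = -Vd h j i := by
  unfold Vd
  rw [← EM_T j i, VM_transpose]

/-- The commutation relations of the orthogonal Lie algebra. -/
theorem Vd_lie (h : MetOn U G) (i j k l : Fin d) : ⁅Vd h i j, Vd h k l⁆ =
    (if j = k then Vd h i l else 0) - (if j = l then Vd h i k else 0)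
    - (if i = k then Vd h j l else 0) + (if i = l then Vd h j k else 0) := by
  unfold Vd
  rw [VM_lie, EM_T, EM_T, sub_mul, mul_sub, mul_sub, EM_mul, EM_mul, EM_mul, EM_mul,
    VM_sub, VM_sub, VM_sub]
  have e : ∀ (p : Prop) [Decidable p] (M : Mt d),
      VM h (if p then M else 0) = if p then VM h M else 0 := by
    intro p _ M
    split_ifs
    · rfl
    · exact VM_zero h
  rw [e, e, e, e]
  abel

/-- The vertical fields rotate the horizontal fields. -/
theorem VB_lie (h : MetOn U G) (S : Mt d) (hS : S.transpose = -S) (m : Fin d) {F : QQ d → ℝ}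
    (q : PU U G) :
    fderiv ℝ F q.1 (fderiv ℝ (horX G m) q.1 (vertX S q.1) - fderiv ℝ (vertX S) q.1 (horX G m q.1)) =
      ∑ i, S i m * fderiv ℝ F q.1 (horX G i q.1) := by
  have key : fderiv ℝ (horX G m) q.1 (vertX S q.1) - fderiv ℝ (vertX S) q.1 (horX G m q.1) =
      ∑ i, S i m • horX G i q.1 := by
    rw [fderiv_horX h m q.2.1, fderiv_vertX]
    refine Prod.ext ?_ ?_
    · simp only [Prod.fst_sub, Prod.fst_sum, Prod.smul_fst, vertX, horX, sub_zero, rt]
      simp only [Finset.sum_smul, Finset.smul_sum]
      rw [Finset.sum_comm]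
      refine Finset.sum_congr rfl fun i _ => Finset.sum_congr rfl fun k _ => ?_
      rw [smul_smul]
      congr 1
      ring
    · funext k l
      simp only [Prod.snd_sub, Prod.snd_sum, Prod.smul_snd, vertX, horX, Pi.sub_apply,
        Finset.sum_apply, Pi.smul_apply, smul_eq_mul, rt]
      simp only [Pi.zero_apply, PiLp.zero_apply, zero_mul, Finset.sum_const_zero, zero_add]
      have e1 : ∑ i, S i m * -∑ a, ∑ b, chr G k a b q.1.1 * q.1.2 a i * q.1.2 b l =
          -∑ a, ∑ b, chr G k a b q.1.1 * ((∑ i, q.1.2 a i * S i m) * q.1.2 b l) := by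
        simp only [mul_neg, Finset.sum_neg_distrib, Finset.mul_sum, Finset.sum_mul]
        congr 1
        rw [Finset.sum_comm]
        refine Finset.sum_congr rfl fun a _ => ?_
        rw [Finset.sum_comm]
        exact Finset.sum_congr rfl fun b _ => Finset.sum_congr rfl fun i _ => by ring
      have e2 : ∑ m', (-∑ a, ∑ b, chr G k a b q.1.1 * q.1.2 a m * q.1.2 b m') * S m' l =
          -∑ a, ∑ b, chr G k a b q.1.1 * (q.1.2 a m * ∑ m', q.1.2 b m' * S m' l) := by
        simp only [neg_mul, Finset.sum_neg_distrib, Finset.mul_sum, Finset.sum_mul]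
        congr 1
        rw [Finset.sum_comm]
        refine Finset.sum_congr rfl fun a _ => ?_
        rw [Finset.sum_comm]
        exact Finset.sum_congr rfl fun b _ => Finset.sum_congr rfl fun i _ => by ring
      rw [e1, e2]
      simp only [mul_add, Finset.sum_add_distrib]
      ring
  rw [key, map_sum]
  exact Finset.sum_congr rfl fun i _ => by rw [map_smul, smul_eq_mul]

theorem Vd_Bd_lie (h : MetOn U G) (i j m : Fin d) : ⁅Vd h i j, Bd h m⁆ =
    (if j = m then Bd h i else 0) - (if i = m then Bd h j else 0) :=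
  AU.ext_iff' fun F hF q => by
    have hS : (EM i j - (EM i j).transpose).transpose = -(EM i j - (EM i j).transpose) := by
      rw [Matrix.transpose_sub, Matrix.transpose_transpose, neg_sub]
    have h1 := VF.lie_apply h.hU (vert h (EM i j - (EM i j).transpose) hS) (hor h m) (AU.mk F hF) hF
      (fun _ => rfl) q
    have h2 := VB_lie h (EM i j - (EM i j).transpose) hS m (F := F) q
    refine (h1.trans h2).trans ?_
    have e : ∀ p, (EM i j - (EM i j).transpose) p m =
        (if p = i ∧ j = m then 1 else 0) - (if p = j ∧ i = m then 1 else 0) := by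
      intro p
      rw [Matrix.sub_apply, Matrix.transpose_apply]
      simp only [EM, Matrix.single_apply]
      congr 1
      · exact if_congr ⟨fun h => ⟨h.1.symm, h.2⟩, fun h => ⟨h.1.symm, h.2⟩⟩ rfl rfl
      · exact if_congr ⟨fun h => ⟨h.2.symm, h.1⟩, fun h => ⟨h.2, h.1.symm⟩⟩ rfl rfl
    simp only [e, sub_mul, Finset.sum_sub_distrib, ite_mul, one_mul, zero_mul]
    have e3 : ∀ (p : Prop) [Decidable p] (D : Derivation ℝ (AU U G) (AU U G)),
        ((if p then D else 0) (AU.mk F hF)).1 q = if p then (D (AU.mk F hF)).1 q else 0 := by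
      intro p _ D
      split_ifs <;> rfl
    have e4 : (((if j = m then Bd h i else 0) - (if i = m then Bd h j else 0)) (AU.mk F hF)).1 q =
        ((if j = m then Bd h i else 0) (AU.mk F hF)).1 q -
          ((if i = m then Bd h j else 0) (AU.mk F hF)).1 q := rfl
    rw [e4, e3, e3, Bd_mk, Bd_mk]
    congr 1
    · by_cases hj : j = m
      · simp [hj]
      · simp [hj]
    · by_cases hi : i = m
      · simp [hi]
      · simp [hi]

end H60E
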