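import Pool.Agent.Lib.H60E.A6
import Pool.Agent.Lib.H79G.B3

/-!
# A8: the commutators of the horizontal derivations: curvature
-/

set_option autoImplicit false

open scoped ContDiff Topology
open Set

namespace H60E

open H31R H79G
open EinsteinSix (OG EM EM_mul EM_T)

variable {d : ℕ} {U : Set (EE d)} {G : EE d → Mt d}

/-- The curvature matrix in the direction of the `i`-th and the `j`-th vector of the frame. -/
noncomputable def RR (G : EE d → Mt d) (q : QQ d) (i j : Fin d) : Mt d :=
  ∑ s, ∑ a, (q.2 s i * q.2 a j) • Rm G s a q.1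

/-- The bracket of two horizontal fields. -/
theorem BB_vec (h : MetOn U G) (i j : Fin d) {q : QQ d} (hq : q.1 ∈ U) :
    fderiv ℝ (horX G j) q (horX G i q) - fderiv ℝ (horX G i) q (horX G j q) =
      (0, fun k l => -∑ f, RR G q i j k f * q.2 f l) := by
  have hsymm : ∀ k a b, chr G k a b q.1 = chr G k b a q.1 := fun k a b =>
    N_chr_symm h.hU hq h.symm k a b
  have hw : ∀ (m : Fin d) (s : Fin d), (horX G m q).1 s = q.2 s m := by
    intro m s
    simp [horX, ebas, Pi.single_apply]
  have hw2 : ∀ (m k l : Fin d), (horX G m q).2 k l = -∑ c, ∑ f, chr G k c f q.1 * q.2 c m * q.2 f l :=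
    fun m k l => rfl
  rw [fderiv_horX h j hq, fderiv_horX h i hq]
  refine Prod.ext ?_ ?_
  · simp only [Prod.fst_sub]
    rw [← Finset.sum_sub_distrib]
    refine Finset.sum_eq_zero fun k _ => ?_
    rw [← sub_smul, hw2, hw2]
    have e : ∑ c, ∑ f, chr G k c f q.1 * q.2 c i * q.2 f j =
        ∑ c, ∑ f, chr G k c f q.1 * q.2 c j * q.2 f i := by
      rw [Finset.sum_comm]
      refine Finset.sum_congr rfl fun c _ => Finset.sum_congr rfl fun f _ => ?_
      rw [hsymm k f c]
      ring
    rw [e, sub_self, zero_smul]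
  · funext k l
    simp only [Prod.snd_sub, Pi.sub_apply, hw, hw2]
    -- the three kinds of terms
    have t1 : ∀ m m' : Fin d, ∑ a, ∑ b, (∑ s, q.2 s m * pd s (chr G k a b) q.1) * q.2 a m' * q.2 b l =
        ∑ s, ∑ a, ∑ b, pd s (chr G k a b) q.1 * q.2 s m * q.2 a m' * q.2 b l := by
      intro m m'
      rw [Finset.sum_comm' (s := Finset.univ) (t := fun _ => Finset.univ) (t' := Finset.univ)
        (s' := fun _ => Finset.univ) (by simp)]
      simp only [Finset.sum_mul]
      rw [Finset.sum_comm]
      have : ∀ x : Fin d, ∑ x_1 : Fin d, ∑ i : Fin d, q.2 i m * pd i (chr G k x x_1) q.1 * q.2 x m' *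
          q.2 x_1 l = ∑ i : Fin d, ∑ x_1 : Fin d, pd i (chr G k x x_1) q.1 * q.2 i m * q.2 x m' *
          q.2 x_1 l := by
        intro x
        rw [Finset.sum_comm]
        exact Finset.sum_congr rfl fun i _ => Finset.sum_congr rfl fun x_1 _ => by ring
      simp only [this]
      rw [Finset.sum_comm]
    have t2 : ∀ m m' : Fin d, ∑ a, ∑ b, chr G k a b q.1 *
        ((-∑ c, ∑ f, chr G a c f q.1 * q.2 c m * q.2 f m') * q.2 b l) =
        ∑ a, ∑ b, chr G k a b q.1 *
        ((-∑ c, ∑ f, chr G a c f q.1 * q.2 c m' * q.2 f m) * q.2 b l) := by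
      intro m m'
      refine Finset.sum_congr rfl fun a _ => Finset.sum_congr rfl fun b _ => ?_
      have e : ∑ c, ∑ f, chr G a c f q.1 * q.2 c m * q.2 f m' =
          ∑ c, ∑ f, chr G a c f q.1 * q.2 c m' * q.2 f m := by
        rw [Finset.sum_comm]
        refine Finset.sum_congr rfl fun c _ => Finset.sum_congr rfl fun f _ => ?_
        rw [hsymm a f c]
        ring
      rw [e]
    have t3 : ∀ m m' : Fin d, ∑ a, ∑ b, chr G k a b q.1 *
        (q.2 a m' * -∑ c, ∑ f, chr G b c f q.1 * q.2 c m * q.2 f l) =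
        -∑ s, ∑ a, ∑ b, (∑ f, chr G k a f q.1 * chr G f s b q.1) * q.2 s m * q.2 a m' * q.2 b l := by
      intro m m'
      have e1 : ∑ a, ∑ b, chr G k a b q.1 *
          (q.2 a m' * -∑ c, ∑ f, chr G b c f q.1 * q.2 c m * q.2 f l) =
          -∑ a, ∑ b, ∑ c, ∑ f, chr G k a b q.1 * chr G b c f q.1 * q.2 c m * q.2 a m' * q.2 f l := by
        simp only [mul_neg, Finset.sum_neg_distrib, Finset.mul_sum]
        congr 1
        refine Finset.sum_congr rfl fun a _ => Finset.sum_congr rfl fun b _ =>
          Finset.sum_congr rfl fun c _ => Finset.sum_congr rfl fun f _ => ?_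
        ring
      have e2 : ∑ s, ∑ a, ∑ b, (∑ f, chr G k a f q.1 * chr G f s b q.1) * q.2 s m * q.2 a m' * q.2 b l =
          ∑ s, ∑ a, ∑ b, ∑ f, chr G k a f q.1 * chr G f s b q.1 * q.2 s m * q.2 a m' * q.2 b l := by
        simp only [Finset.sum_mul]
      rw [e1, e2]
      congr 1
      rw [Finset.sum_comm' (s := Finset.univ) (t := fun _ => Finset.univ) (t' := Finset.univ)
        (s' := fun _ => Finset.univ) (by simp)]
      rw [Finset.sum_comm' (s := Finset.univ) (t := fun _ => Finset.univ) (t' := Finset.univ)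
        (s' := fun _ => Finset.univ) (by simp)]
      have e3 : ∀ a : Fin d, ∑ b, ∑ c, ∑ f, chr G k a b q.1 * chr G b c f q.1 * q.2 c m * q.2 a m' *
          q.2 f l = ∑ c, ∑ f, ∑ b, chr G k a b q.1 * chr G b c f q.1 * q.2 c m * q.2 a m' *
          q.2 f l := by
        intro a
        rw [Finset.sum_comm]
        exact Finset.sum_congr rfl fun c _ => Finset.sum_comm
      simp only [e3]
      rw [Finset.sum_comm]
    simp only [mul_add, Finset.sum_add_distrib]
    rw [t1 i j, t1 j i, t2 j i, t3 i j, t3 j i]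
    have hR : ∑ f, RR G q i j k f * q.2 f l = ∑ s, ∑ a, ∑ b, (pd s (chr G k a b) q.1 -
        pd a (chr G k s b) q.1 + (∑ f, chr G k s f q.1 * chr G f a b q.1 -
          ∑ f, chr G k a f q.1 * chr G f s b q.1)) * q.2 s i * q.2 a j * q.2 b l := by
      unfold RR
      simp only [Matrix.sum_apply, Finset.sum_mul, Matrix.smul_apply, smul_eq_mul]
      rw [Finset.sum_comm]
      refine Finset.sum_congr rfl fun s _ => ?_
      rw [Finset.sum_comm]
      refine Finset.sum_congr rfl fun a _ => Finset.sum_congr rfl fun b _ => ?_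
      simp only [Rm, Matrix.add_apply, Matrix.sub_apply, Matrix.mul_apply, pdM, chM]
      ring
    rw [hR]
    have s1 : ∑ s, ∑ a, ∑ b, pd s (chr G k a b) q.1 * q.2 s j * q.2 a i * q.2 b l =
        ∑ s, ∑ a, ∑ b, pd a (chr G k s b) q.1 * q.2 s i * q.2 a j * q.2 b l := by
      rw [Finset.sum_comm]
      exact Finset.sum_congr rfl fun s _ => Finset.sum_congr rfl fun a _ =>
        Finset.sum_congr rfl fun b _ => by ring
    have s2 : ∑ s, ∑ a, ∑ b, (∑ f, chr G k a f q.1 * chr G f s b q.1) * q.2 s j * q.2 a i *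
        q.2 b l = ∑ s, ∑ a, ∑ b, (∑ f, chr G k s f q.1 * chr G f a b q.1) * q.2 s i * q.2 a j *
        q.2 b l := by
      rw [Finset.sum_comm]
      exact Finset.sum_congr rfl fun s _ => Finset.sum_congr rfl fun a _ =>
        Finset.sum_congr rfl fun b _ => by ring
    rw [s1, s2]
    simp only [add_mul, sub_mul, Finset.sum_add_distrib, Finset.sum_sub_distrib]
    ring

theorem crv_riem_eq (G : EE d → Mt d) (q : QQ d) (i j k l : Fin d) :
    crv (riem G q.1) q.2 i j k l =
      ((Matrix.of q.2).transpose * G q.1 * (RR G q i j * Matrix.of q.2)) k l := by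
  have hr : ∀ a b c f, riem G q.1 a b c f = (G q.1 * Rm G a b q.1) c f := by
    intro a b c f
    unfold riem
    rw [Matrix.mul_apply]
    refine Finset.sum_congr rfl fun m _ => ?_
    simp only [Rm, Matrix.add_apply, Matrix.sub_apply, Matrix.mul_apply, pdM, chM,
      Finset.sum_sub_distrib]
  have e1 : (Matrix.of q.2).transpose * G q.1 * (RR G q i j * Matrix.of q.2) =
      ∑ s, ∑ a, (q.2 s i * q.2 a j) •
        ((Matrix.of q.2).transpose * (G q.1 * Rm G s a q.1) * Matrix.of q.2) := by
    unfold RR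
    simp only [Matrix.sum_mul, Matrix.mul_sum, Matrix.smul_mul, Matrix.mul_smul, Matrix.mul_assoc]
  rw [e1, Matrix.sum_apply]
  unfold crv
  refine Finset.sum_congr rfl fun s _ => ?_
  rw [Matrix.sum_apply]
  refine Finset.sum_congr rfl fun a _ => ?_
  rw [Matrix.smul_apply, smul_eq_mul, Matrix.mul_apply]
  simp only [hr]
  rw [Finset.mul_sum, Finset.sum_comm]
  refine Finset.sum_congr rfl fun f _ => ?_
  rw [Matrix.mul_apply, Finset.sum_mul, Finset.mul_sum]
  refine Finset.sum_congr rfl fun c _ => ?_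
  simp only [Matrix.transpose_apply, Matrix.of_apply]
  ring

/-- The curvature functions. -/
theorem RU_smooth (h : MetOn U G) (i j k l : Fin d) :
    SmF U (fun q => crv (riem G q.1) q.2 i j k l) := by
  have hr : ∀ a b c f, ContDiffOn ℝ ∞ (fun y => riem G y a b c f) U := by
    intro a b c f
    have hdet := met_det_ne h
    have hsm : ∀ n, SmM n U G := fun n i j => (h.sm i j).of_le (by exact_mod_cast le_top)
    rw [contDiffOn_infty]
    intro n
    unfold riem
    have hc : ∀ m i j k, Sm m U (chr G k i j) := fun m i j k => N_chr_sm h.hU (hsm _) hdet k i j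
    refine ContDiffOn.sum fun m _ => (hsm n c m).mul ?_
    refine ((N_pd_sm h.hU (hc (n + 1) _ _ _) a).sub (N_pd_sm h.hU (hc (n + 1) _ _ _) b)).add
      (ContDiffOn.sum fun e _ => ?_)
    exact ((hc n _ _ _).mul (hc n _ _ _)).sub ((hc n _ _ _).mul (hc n _ _ _))
  have hc : ∀ a m, ContDiff ℝ ∞ (fun q : QQ d => q.2 a m) := fun a m =>
    (contDiff_apply_apply ℝ ℝ a m).comp contDiff_snd
  unfold crv
  refine ContDiffOn.sum fun a _ => ContDiffOn.sum fun b _ => ContDiffOn.sum fun c _ =>
    ContDiffOn.sum fun f _ => ?_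
  refine ContDiffOn.mul (ContDiffOn.mul (ContDiffOn.mul (ContDiffOn.mul ?_ (hc a i).contDiffOn)
    (hc b j).contDiffOn) (hc c k).contDiffOn) (hc f l).contDiffOn
  exact (hr a b c f).comp contDiffOn_fst fun q hq => hq.1

/-- The curvature functions as elements of the algebra. -/
noncomputable def RU (h : MetOn U G) (i j k l : Fin d) : AU U G :=
  AU.mk (fun q => crv (riem G q.1) q.2 i j k l) (RU_smooth h i j k l)

/-- The curvature matrix in the frame is skew. -/
theorem RM_skew (h : MetOn U G) {q : QQ d} (hq : q ∈ PU U G) (i j : Fin d) :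
    ((Matrix.of q.2).transpose * G q.1 * (RR G q i j * Matrix.of q.2)).transpose =
      -((Matrix.of q.2).transpose * G q.1 * (RR G q i j * Matrix.of q.2)) := by
  have hGT := met_GT h hq.1
  have h1 : G q.1 * RR G q i j + (RR G q i j).transpose * G q.1 = 0 := by
    unfold RR
    simp only [Matrix.transpose_sum, Matrix.sum_mul, Matrix.mul_sum, Matrix.mul_smul,
      Matrix.transpose_smul, Matrix.smul_mul]
    rw [← Finset.sum_add_distrib]
    refine Finset.sum_eq_zero fun s _ => ?_
    rw [← Finset.sum_add_distrib]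
    refine Finset.sum_eq_zero fun a _ => ?_
    rw [← smul_add, Rm_compat h hq.1 s a, smul_zero]
  have h2 : (RR G q i j).transpose * G q.1 = -(G q.1 * RR G q i j) := eq_neg_of_add_eq_zero_right h1
  rw [Matrix.transpose_mul, Matrix.transpose_mul, Matrix.transpose_mul, Matrix.transpose_transpose,
    hGT]
  calc (Matrix.of q.2).transpose * (RR G q i j).transpose * (G q.1 * Matrix.of q.2)
      = (Matrix.of q.2).transpose * ((RR G q i j).transpose * G q.1) * Matrix.of q.2 := by
        simp only [Matrix.mul_assoc]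
    _ = _ := by
        rw [h2]
        simp only [Matrix.mul_neg, Matrix.neg_mul, Matrix.mul_assoc]

theorem RU_skew (h : MetOn U G) (i j k l : Fin d) : RU h i j k l = -RU h i j l k := by
  apply Subtype.ext
  funext q
  show crv (riem G q.1.1) q.1.2 i j k l = -crv (riem G q.1.1) q.1.2 i j l k
  rw [crv_riem_eq, crv_riem_eq]
  have := congrFun (congrFun (RM_skew h q.2 i j) l) k
  rw [Matrix.transpose_apply, Matrix.neg_apply] at this
  rw [this]

/-- Cartan's second structure equation. -/
theorem Bd_lie (h : MetOn U G) (i j : Fin d) : ⁅Bd h i, Bd h j⁆ =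
    -((1 / 2 : ℝ) • ∑ k, ∑ l, RU h i j k l • Vd h k l) :=
  AU.ext_iff' fun F hF q => by
    have h1 := VF.lie_apply h.hU (hor h i) (hor h j) (AU.mk F hF) hF (fun _ => rfl) q
    refine h1.trans ?_
    have h2 := BB_vec h i j q.2.1
    have h2' : fderiv ℝ (hor h j).X q.1 ((hor h i).X q.1) - fderiv ℝ (hor h i).X q.1 ((hor h j).X q.1)
      = _ := h2
    rw [h2']
    set r : Mt d := (Matrix.of q.1.2).transpose * G q.1.1 * (RR G q.1 i j * Matrix.of q.1.2) with hr
    have h3 : ((0 : EE d), fun k l => -∑ f, RR G q.1 i j k f * q.1.2 f l) =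
        -((1 / 2 : ℝ) • ∑ k, ∑ l, r k l • vertX (EM k l - (EM k l).transpose) q.1) := by
      have e1 : ∑ k, ∑ l, r k l • vertX (EM k l - (EM k l).transpose) q.1 =
          vertX (r - r.transpose) q.1 := by
        have e2 : r - r.transpose = ∑ k, ∑ l, r k l • (EM k l - (EM k l).transpose) := by
          have e3 : r = ∑ k, ∑ l, r k l • EM k l := by
            conv_lhs => rw [Matrix.matrix_eq_sum_single r]
            refine Finset.sum_congr rfl fun k _ => Finset.sum_congr rfl fun l _ => ?_
            rw [EM, Matrix.smul_single, smul_eq_mul, mul_one]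
          simp only [smul_sub, Finset.sum_sub_distrib]
          rw [← e3]
          congr 1
          conv_lhs => rw [e3]
          simp only [Matrix.transpose_sum, Matrix.transpose_smul]
        rw [e2]
        simp only [vertX_sum, vertX_smul]
      rw [e1, hr, RM_skew h q.2 i j, ← hr, sub_neg_eq_add, ← two_smul ℝ r, vertX_smul, smul_smul]
      norm_num
      refine Prod.ext ?_ ?_
      · simp [vertX]
      · have e4 : Matrix.of q.1.2 * r = RR G q.1 i j * Matrix.of q.1.2 := by
          rw [hr, ← Matrix.mul_assoc, PU_mul' q.2, Matrix.one_mul]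
        funext k l
        have e5 := congrFun (congrFun e4 k) l
        rw [Matrix.mul_apply, Matrix.mul_apply] at e5
        simp only [vertX, Prod.snd_neg, Pi.neg_apply, rt]
        rw [neg_inj]
        exact e5.symm
    rw [h3, map_neg, map_smul, map_sum]
    have h4 : ((-((1 / 2 : ℝ) • ∑ k, ∑ l, RU h i j k l • Vd h k l)) (AU.mk F hF)).1 q =
        -((1 / 2 : ℝ) • ∑ k, ∑ l, (RU h i j k l).1 q * (Vd h k l (AU.mk F hF)).1 q) := by
      rw [Derivation.neg_apply, Derivation.smul_apply, EinsteinSix.dsum]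
      simp only [EinsteinSix.dsum, Derivation.smul_apply, smul_eq_mul]
      have e6 : ∀ (x : AU U G), (-x).1 q = -x.1 q := fun _ => rfl
      have e7 : ∀ (c : ℝ) (x : AU U G), (c • x).1 q = c • x.1 q := fun _ _ => rfl
      have e8 : ∀ (s : Finset (Fin d)) (f : Fin d → AU U G), (∑ k ∈ s, f k).1 q =
          ∑ k ∈ s, (f k).1 q := by
        intro s f
        rw [AddSubmonoidClass.coe_finsetSum, Finset.sum_apply]
      rw [e6, e7, e8]
      simp only [e8]
      rfl
    rw [h4]
    congr 2
    refine Finset.sum_congr rfl fun k _ => ?_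
    rw [map_sum]
    refine Finset.sum_congr rfl fun l _ => ?_
    rw [map_smul, smul_eq_mul]
    have h5 : (Vd h k l (AU.mk F hF)).1 q = fderiv ℝ F q.1 (vertX (EM k l - (EM k l).transpose) q.1) :=
      VM_mk h _ hF q
    rw [h5]
    have h6 : (RU h i j k l).1 q = r k l := crv_riem_eq G q.1 i j k l
    rw [h6]

end H60E
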