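import Pool.Agent.Lib.H60E.A8

/-!
# A9: the Cartan structure on the orthonormal frames over a chart
-/

set_option autoImplicit false

open scoped ContDiff Topology
open Set

namespace H60E

open H31R H79G Matrix
open EinsteinSix (OG EM EM_mul EM_T)

variable {d : ℕ} {U : Set (EE d)} {G : EE d → Mt d}

theorem A9_val (c : Fin d → AU U G) (b : Fin d → Fin d → AU U G) (h : MetOn U G)
    (F : QQ d → ℝ) (hF : SmF U F) (q : PU U G) :
    ((∑ i, c i • Bd h i + ∑ i, ∑ j, b i j • Vd h i j : Derivation ℝ (AU U G) (AU U G))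
      (AU.mk F hF)).1 q = ∑ i, (c i).1 q * fderiv ℝ F q.1 (horX G i q.1) +
        fderiv ℝ F q.1 (vertX (∑ i, ∑ j, (b i j).1 q • (EM i j - (EM i j).transpose)) q.1) := by
  have e8 : ∀ (s : Finset (Fin d)) (f : Fin d → AU U G), (∑ k ∈ s, f k).1 q =
      ∑ k ∈ s, (f k).1 q := by
    intro s f
    rw [AddSubmonoidClass.coe_finsetSum, Finset.sum_apply]
  have e9 : ∀ x y : AU U G, (x + y).1 q = x.1 q + y.1 q := fun _ _ => rfl
  have e10 : ∀ x y : AU U G, (x * y).1 q = x.1 q * y.1 q := fun _ _ => rfl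
  rw [Derivation.add_apply, EinsteinSix.dsum, EinsteinSix.dsum, e9, e8, e8, vertX_sum, map_sum]
  congr 1
  · refine Finset.sum_congr rfl fun i _ => ?_
    rw [Derivation.smul_apply, smul_eq_mul, e10, Bd_mk]
  · refine Finset.sum_congr rfl fun i _ => ?_
    rw [EinsteinSix.dsum, e8, vertX_sum, map_sum]
    refine Finset.sum_congr rfl fun j _ => ?_
    rw [Derivation.smul_apply, smul_eq_mul, e10, vertX_smul, map_smul, smul_eq_mul]
    congr 1
    exact VM_mk h _ hF q

theorem A9_indep (h : MetOn U G) (a : Fin d → AU U G) (b : Fin d → Fin d → AU U G)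
    (hb : ∀ i j, b i j = -b j i) (h0 : ∑ i, a i • Bd h i + ∑ i, ∑ j, b i j • Vd h i j = 0) :
    (∀ i, a i = 0) ∧ ∀ i j, b i j = 0 := by
  have hval : ∀ (F : QQ d → ℝ) (_ : SmF U F) (q : PU U G),
      ∑ i, (a i).1 q * fderiv ℝ F q.1 (horX G i q.1) +
        fderiv ℝ F q.1 (vertX (∑ i, ∑ j, (b i j).1 q • (EM i j - (EM i j).transpose)) q.1) = 0 := by
    intro F hF q
    rw [← A9_val a b h F hF q, h0]
    rfl
  -- the matrix of `b`
  have hS : ∀ q : PU U G, ∑ i, ∑ j, (b i j).1 q • (EM i j - (EM i j).transpose) =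
      (2 : ℝ) • (Matrix.of fun i j => (b i j).1 q) := by
    intro q
    ext k l
    simp only [Matrix.sum_apply, Matrix.smul_apply, Matrix.sub_apply, Matrix.transpose_apply,
      EM, Matrix.single_apply, smul_eq_mul, mul_sub, Finset.sum_sub_distrib, Matrix.of_apply]
    have e1 : ∀ (k l : Fin d), ∑ i, ∑ j, (b i j).1 q * (if i = k ∧ j = l then (1 : ℝ) else 0) =
        (b k l).1 q := by
      intro k l
      rw [Finset.sum_eq_single k, Finset.sum_eq_single l]
      · simp
      · intro j _ hj; simp [hj]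
      · intro hl; exact absurd (Finset.mem_univ _) hl
      · intro i _ hi
        exact Finset.sum_eq_zero fun j _ => by simp [hi]
      · intro hl; exact absurd (Finset.mem_univ _) hl
    rw [e1 k l, e1 l k, hb l k]
    show (b k l).1 q - -(b k l).1 q = _
    ring
  -- the coordinates
  have hx : ∀ (q : PU U G) (k : Fin d), ∑ i, (a i).1 q * q.1.2 k i = 0 := by
    intro q k
    have hs : ContDiff ℝ ∞ (fun p : QQ d => p.1 k) :=
      (contDiff_piLp_apply (p := 2)).comp contDiff_fst
    have hF : SmF U (fun p : QQ d => p.1 k) := hs.contDiffOn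
    have hd : ∀ v, fderiv ℝ (fun p : QQ d => p.1 k) q.1 v = v.1 k := by
      intro v
      have e : (fun p : QQ d => p.1 k) = ⇑((EuclideanSpace.proj k : EE d →L[ℝ] ℝ).comp
        (ContinuousLinearMap.fst ℝ (EE d) (WW d))) := rfl
      rw [e, ContinuousLinearMap.fderiv]
      rfl
    have h1 := hval _ hF q
    rw [hd] at h1
    simp only [hd] at h1
    have e2 : ∀ i, (horX G i q.1).1 k = q.1.2 k i := by
      intro i
      simp [horX, ebas, Pi.single_apply]
    simp only [e2] at h1
    rw [show (vertX (∑ i, ∑ j, (b i j).1 q • (EM i j - (EM i j).transpose)) q.1).1 k = 0 from rfl,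
      add_zero] at h1
    exact h1
  have ha : ∀ i, a i = 0 := by
    intro i
    apply Subtype.ext
    funext q
    have h1 : Matrix.of q.1.2 *ᵥ (fun i => (a i).1 q) = 0 := by
      funext k
      rw [Matrix.mulVec, dotProduct]
      simp only [Matrix.of_apply, Pi.zero_apply]
      rw [← hx q k]
      exact Finset.sum_congr rfl fun i _ => mul_comm _ _
    have h2 : ((Matrix.of q.1.2).transpose * G q.1.1 * Matrix.of q.1.2) *ᵥ
        (fun i => (a i).1 q) = 0 := by
      rw [← Matrix.mulVec_mulVec, h1, Matrix.mulVec_zero]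
    rw [PU_mul (q.2), Matrix.one_mulVec] at h2
    exact congrFun h2 i
  refine ⟨ha, fun i j => ?_⟩
  apply Subtype.ext
  funext q
  have h3 : Matrix.of q.1.2 * (Matrix.of fun i j => (b i j).1 q) = 0 := by
    ext k l
    have hs : ContDiff ℝ ∞ (fun p : QQ d => p.2 k l) :=
      (contDiff_apply_apply ℝ ℝ k l).comp contDiff_snd
    have hF : SmF U (fun p : QQ d => p.2 k l) := hs.contDiffOn
    have hd : ∀ v, fderiv ℝ (fun p : QQ d => p.2 k l) q.1 v = v.2 k l := by
      intro v
      have e : (fun p : QQ d => p.2 k l) = ⇑(((ContinuousLinearMap.proj l : (Fin d → ℝ) →L[ℝ] ℝ).comp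
        (ContinuousLinearMap.proj k : WW d →L[ℝ] (Fin d → ℝ))).comp
        (ContinuousLinearMap.snd ℝ (EE d) (WW d))) := rfl
      rw [e, ContinuousLinearMap.fderiv]
      rfl
    have h1 := hval _ hF q
    rw [hd, hS q] at h1
    simp only [ha] at h1
    have e1 : ∑ i, (0 : AU U G).1 q * fderiv ℝ (fun p : QQ d => p.2 k l) q.1 (horX G i q.1) = 0 :=
      Finset.sum_eq_zero fun i _ => by
        show (0 : ℝ) * _ = 0
        rw [zero_mul]
    rw [e1, zero_add] at h1
    have e2 : (vertX ((2 : ℝ) • (Matrix.of fun i j => (b i j).1 q)) q.1).2 k l =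
        2 * (Matrix.of q.1.2 * (Matrix.of fun i j => (b i j).1 q)) k l := by
      rw [vertX_smul, Matrix.mul_apply]
      rfl
    rw [e2] at h1
    rw [Matrix.zero_apply]
    linarith
  have h4 : ((Matrix.of q.1.2).transpose * G q.1.1 * Matrix.of q.1.2) *
      (Matrix.of fun i j => (b i j).1 q) = 0 := by
    rw [Matrix.mul_assoc, h3, Matrix.mul_zero]
  rw [PU_mul (q.2), Matrix.one_mul] at h4
  exact congrFun (congrFun h4 i) j

/-- Cartan's structure equations for the orthonormal frames of a Riemannian metric on an open set. -/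
noncomputable def cartanU (h : MetOn U G) : EinsteinSix.Cartan d (AU U G) where
  B := Bd h
  V := Vd h
  R := RU h
  V_skew := Vd_skew h
  R_skew := RU_skew h
  VV := Vd_lie h
  VB := Vd_Bd_lie h
  BB := Bd_lie h
  indep := A9_indep h

end H60E
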