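import Mathlib

/-!
# B1: smoothness of parametric integrals over a compact space
-/

set_option autoImplicit false

open scoped ContDiff Topology
open Set MeasureTheory

namespace H60E

section
variable {K : Type} [TopologicalSpace K] [CompactSpace K] {X E : Type} [TopologicalSpace X]
  [NormedAddCommGroup E]

/-- a continuous function is bounded near `{x₀} × K` -/
theorem B1_bound {f : X → K → E} {V : Set X} (hV : IsOpen V)
    (hf : ContinuousOn (fun p : X × K => f p.1 p.2) (V ×ˢ univ)) {x₀ : X} (hx : x₀ ∈ V) :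
    ∃ C : ℝ, ∀ᶠ x in 𝓝 x₀, ∀ k, ‖f x k‖ ≤ C := by
  have hca : ∀ k, ContinuousAt (fun p : X × K => f p.1 p.2) (x₀, k) := fun k =>
    hf.continuousAt ((hV.prod isOpen_univ).mem_nhds ⟨hx, trivial⟩)
  have h0 : Continuous (fun k => f x₀ k) := by
    rw [continuous_iff_continuousAt]
    intro k
    exact (hca k).comp (f := fun k => (x₀, k)) (by fun_prop)
  obtain ⟨C, hC⟩ := isCompact_univ.exists_bound_of_continuousOn h0.continuousOn
  refine ⟨C + 1, ?_⟩
  have h1 : ∀ᶠ x in 𝓝 x₀, ∀ k ∈ (univ : Set K), ‖f x k‖ < C + 1 := by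
    refine isCompact_univ.eventually_forall_of_forall_eventually (P := fun x k => ‖f x k‖ < C + 1)
      fun k _ => ?_
    have h2 : ContinuousAt (fun p : X × K => ‖f p.1 p.2‖) (x₀, k) := (hca k).norm
    have h3 : ‖f x₀ k‖ < C + 1 := lt_of_le_of_lt (hC k trivial) (lt_add_one C)
    exact h2.eventually_lt_const h3
  filter_upwards [h1] with x hx k
  exact (hx k trivial).le

end

variable {K : Type} [TopologicalSpace K] [CompactSpace K] [SecondCountableTopology K]
  [MeasurableSpace K] [BorelSpace K] (ν : Measure K) [IsFiniteMeasure ν]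

theorem B1_cont {X E : Type} [NormedAddCommGroup X] [NormedSpace ℝ X]
    [NormedAddCommGroup E] [NormedSpace ℝ E] {f : X → K → E} {V : Set X} (hV : IsOpen V)
    (hf : ContinuousOn (fun p : X × K => f p.1 p.2) (V ×ˢ univ)) :
    ContinuousOn (fun x => ∫ k, f x k ∂ν) V := by
  intro x₀ hx
  apply ContinuousAt.continuousWithinAt
  obtain ⟨C, hC⟩ := B1_bound hV hf hx
  have hfx : ∀ x ∈ V, Continuous (f x) := by
    intro x hx
    rw [continuous_iff_continuousAt]
    intro k
    exact (hf.continuousAt ((hV.prod isOpen_univ).mem_nhds ⟨hx, trivial⟩)).comp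
      (f := fun k => (x, k)) (by fun_prop)
  refine continuousAt_of_dominated (bound := fun _ => C) ?_ ?_ (integrable_const C) ?_
  · filter_upwards [hV.mem_nhds hx] with x hx
    exact (hfx x hx).aestronglyMeasurable
  · filter_upwards [hC] with x hx
    exact Filter.Eventually.of_forall hx
  · refine Filter.Eventually.of_forall fun k => ?_
    exact (hf.continuousAt ((hV.prod isOpen_univ).mem_nhds ⟨hx, trivial⟩)).comp
      (f := fun x => (x, k)) (by fun_prop)

theorem B1_deriv {X E : Type} [NormedAddCommGroup X] [NormedSpace ℝ X]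
    [NormedAddCommGroup E] [NormedSpace ℝ E] {f : X → K → E} {f' : X → K → X →L[ℝ] E}
    {V : Set X} (hV : IsOpen V)
    (hf : ContinuousOn (fun p : X × K => f p.1 p.2) (V ×ˢ univ))
    (hf' : ContinuousOn (fun p : X × K => f' p.1 p.2) (V ×ˢ univ))
    (hd : ∀ x ∈ V, ∀ k, HasFDerivAt (fun x => f x k) (f' x k) x) {x₀ : X} (hx : x₀ ∈ V) :
    HasFDerivAt (fun x => ∫ k, f x k ∂ν) (∫ k, f' x₀ k ∂ν) x₀ := by
  obtain ⟨C, hC⟩ := B1_bound hV hf' hx
  have hfx : ∀ x ∈ V, Continuous (f x) := by
    intro x hx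
    rw [continuous_iff_continuousAt]
    intro k
    exact (hf.continuousAt ((hV.prod isOpen_univ).mem_nhds ⟨hx, trivial⟩)).comp
      (f := fun k => (x, k)) (by fun_prop)
  have hfx' : ∀ x ∈ V, Continuous (f' x) := by
    intro x hx
    rw [continuous_iff_continuousAt]
    intro k
    exact (hf'.continuousAt ((hV.prod isOpen_univ).mem_nhds ⟨hx, trivial⟩)).comp
      (f := fun k => (x, k)) (by fun_prop)
  obtain ⟨D, hD⟩ := isCompact_univ.exists_bound_of_continuousOn (hfx x₀ hx).continuousOn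
  refine hasFDerivAt_integral_of_dominated_of_fderiv_le
    (s := {x | (∀ k, ‖f' x k‖ ≤ C)} ∩ V) (bound := fun _ => C) ?_ ?_ ?_ ?_ ?_ ?_ ?_
  · exact Filter.inter_mem hC (hV.mem_nhds hx)
  · filter_upwards [hV.mem_nhds hx] with x hx
    exact (hfx x hx).aestronglyMeasurable
  · exact Integrable.of_bound (hfx x₀ hx).aestronglyMeasurable D
      (Filter.Eventually.of_forall fun k => hD k trivial)
  · exact (hfx' x₀ hx).aestronglyMeasurable
  · exact Filter.Eventually.of_forall fun k x hx => hx.1 k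
  · exact integrable_const C
  · exact Filter.Eventually.of_forall fun k x hx => hd x hx.2 k

/-- Smoothness of `x ↦ ∫ L_k (F (T_k x)) dν(k)`. -/
theorem B1_smooth_nat (n : ℕ) : ∀ {X E E' : Type} [NormedAddCommGroup X] [NormedSpace ℝ X]
    [NormedAddCommGroup E] [NormedSpace ℝ E] [NormedAddCommGroup E'] [NormedSpace ℝ E']
    {V : Set X} (_ : IsOpen V) {F : X → E} (_ : ContDiffOn ℝ n F V) {T : K → X →L[ℝ] X}
    (_ : Continuous T) (_ : ∀ k, ∀ x ∈ V, T k x ∈ V) {L : K → E →L[ℝ] E'} (_ : Continuous L),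
    ContDiffOn ℝ n (fun x => ∫ k, L k (F (T k x)) ∂ν) V := by
  induction n with
  | zero =>
    intro X E E' _ _ _ _ _ _ V hV F hF T hT hTV L hL
    rw [Nat.cast_zero, contDiffOn_zero] at hF ⊢
    refine B1_cont ν hV ?_
    have h1 : ContinuousOn (fun p : X × K => T p.2 p.1) (V ×ˢ univ) := by fun_prop
    have h2 : ContinuousOn (fun p : X × K => F (T p.2 p.1)) (V ×ˢ univ) :=
      hF.comp h1 fun p hp => hTV _ _ hp.1
    exact (hL.comp continuous_snd).continuousOn.clm_apply h2
  | succ n ih =>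
    intro X E E' _ _ _ _ _ _ V hV F hF T hT hTV L hL
    have hF' := hF
    rw [Nat.cast_succ, contDiffOn_succ_iff_fderiv_of_isOpen hV] at hF
    have hcF : ContinuousOn F V := hF'.continuousOn
    have hcD : ContinuousOn (fderiv ℝ F) V := hF.2.2.continuousOn
    have h1 : ContinuousOn (fun p : X × K => T p.2 p.1) (V ×ˢ univ) := by fun_prop
    have h2 : ContinuousOn (fun p : X × K => F (T p.2 p.1)) (V ×ˢ univ) :=
      hcF.comp h1 fun p hp => hTV _ _ hp.1
    have h3 : ContinuousOn (fun p : X × K => fderiv ℝ F (T p.2 p.1)) (V ×ˢ univ) :=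
      hcD.comp h1 fun p hp => hTV _ _ hp.1
    set L' : K → (X →L[ℝ] E) →L[ℝ] (X →L[ℝ] E') := fun k =>
      (ContinuousLinearMap.compL ℝ X E E' (L k)).comp
        ((ContinuousLinearMap.compL ℝ X X E).flip (T k)) with hL'
    have hL'c : Continuous L' :=
      ((ContinuousLinearMap.compL ℝ X E E').continuous.comp hL).clm_comp
        ((ContinuousLinearMap.compL ℝ X X E).flip.continuous.comp hT)
    have hder : ∀ x ∈ V, HasFDerivAt (fun x => ∫ k, L k (F (T k x)) ∂ν)
        (∫ k, L' k (fderiv ℝ F (T k x)) ∂ν) x := by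
      intro x hx
      refine B1_deriv ν hV (f := fun x k => L k (F (T k x)))
        (f' := fun x k => L' k (fderiv ℝ F (T k x))) ?_ ?_ ?_ hx
      · exact (hL.comp continuous_snd).continuousOn.clm_apply h2
      · exact (hL'c.comp continuous_snd).continuousOn.clm_apply h3
      · intro x hx k
        have h4 : HasFDerivAt F (fderiv ℝ F (T k x)) (T k x) :=
          ((hF.1 _ (hTV k x hx)).differentiableAt (hV.mem_nhds (hTV k x hx))).hasFDerivAt
        exact (L k).hasFDerivAt.comp x (h4.comp x (T k).hasFDerivAt)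
    rw [Nat.cast_succ, contDiffOn_succ_iff_fderiv_of_isOpen hV]
    refine ⟨fun x hx => (hder x hx).differentiableAt.differentiableWithinAt, fun h => ?_, ?_⟩
    · exact absurd h (by simp)
    · refine (ih hV hF.2.2 hT hTV hL'c).congr fun x hx => ?_
      exact (hder x hx).fderiv

theorem B1_smooth {X E E' : Type} [NormedAddCommGroup X] [NormedSpace ℝ X]
    [NormedAddCommGroup E] [NormedSpace ℝ E] [NormedAddCommGroup E'] [NormedSpace ℝ E']
    {V : Set X} (hV : IsOpen V) {F : X → E} (hF : ContDiffOn ℝ ∞ F V) {T : K → X →L[ℝ] X}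
    (hT : Continuous T) (hTV : ∀ k, ∀ x ∈ V, T k x ∈ V) {L : K → E →L[ℝ] E'} (hL : Continuous L) :
    ContDiffOn ℝ ∞ (fun x => ∫ k, L k (F (T k x)) ∂ν) V := by
  rw [contDiffOn_infty]
  intro n
  exact B1_smooth_nat ν n hV (hF.of_le (by exact_mod_cast le_top)) hT hTV hL

end H60E
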