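import Pool.Agent.Lib.H60E.A9
import Pool.Agent.Lib.H60E.B1

/-!
# B2: averages over the orthogonal group and the horizontal fields
-/

set_option autoImplicit false

open scoped ContDiff Topology
open Set MeasureTheory

namespace H60E

open H31R H79G
open EinsteinSix (OG)

variable {d : ℕ} {U : Set (EE d)} {G : EE d → Mt d}

instance (m : ℕ) : SecondCountableTopology (OG m) :=
  inferInstanceAs (SecondCountableTopology
    (↥{x : Fin m → Fin m → ℝ | Matrix.of x ∈ Matrix.orthogonalGroup (Fin m) ℝ}))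

/-- Haar probability measure on the orthogonal group. -/
noncomputable def haarO (d : ℕ) : Measure (OG d) := Measure.haarMeasure ⊤

instance (d : ℕ) : IsProbabilityMeasure (haarO d) :=
  ⟨by
    have := Measure.haarMeasure_self (K₀ := (⊤ : TopologicalSpace.PositiveCompacts (OG d)))
    exact this⟩

instance (d : ℕ) : (haarO d).IsMulLeftInvariant := by
  unfold haarO
  infer_instance

/-- rotation of the frame as a linear map of the frame -/
noncomputable def rtC (M : Mt d) : WW d →L[ℝ] WW d :=
  LinearMap.toContinuousLinearMap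
    { toFun := fun e => rt e M
      map_add' := fun e e' => by
        funext k i
        simp only [rt, Pi.add_apply, add_mul, Finset.sum_add_distrib]
      map_smul' := fun c e => by
        funext k i
        simp only [rt, Pi.smul_apply, smul_eq_mul, Finset.mul_sum, RingHom.id_apply]
        exact Finset.sum_congr rfl fun m _ => by ring }

theorem rtC_apply (M : Mt d) (e : WW d) : rtC M e = rt e M := rfl

theorem rtC_cont : Continuous (fun b : OG d => rtC (b : Mt d)) := by
  have h1 : ∀ M : Mt d, rtC M = ∑ m, ∑ i, M m i • rtC (Matrix.single m i (1 : ℝ)) := by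
    intro M
    ext e k i
    rw [ContinuousLinearMap.sum_apply, Finset.sum_apply, Finset.sum_apply]
    simp only [ContinuousLinearMap.sum_apply, Finset.sum_apply, ContinuousLinearMap.smul_apply,
      Pi.smul_apply, smul_eq_mul, rtC_apply, rt, Matrix.single_apply]
    refine Finset.sum_congr rfl fun m _ => ?_
    rw [Finset.sum_eq_single i]
    · rw [Finset.sum_eq_single m]
      · simp [mul_comm]
      · intro j _ hj
        simp [Ne.symm hj]
      · intro hm; exact absurd (Finset.mem_univ _) hm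
    · intro j _ hj
      rw [Finset.sum_eq_zero, mul_zero]
      intro c _
      simp [hj]
    · intro hm; exact absurd (Finset.mem_univ _) hm
  have h2 : (fun b : OG d => rtC (b : Mt d)) = fun b : OG d =>
      ∑ m, ∑ i, (b : Mt d) m i • rtC (Matrix.single m i (1 : ℝ)) := funext fun b => h1 b
  rw [h2]
  refine continuous_finsetSum _ fun m _ => continuous_finsetSum _ fun i _ => ?_
  exact (continuous_subtype_val.matrix_elem m i).smul continuous_const

/-- rotation of the frames by `b` -/
noncomputable def TT (b : OG d) : QQ d →L[ℝ] QQ d :=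
  (ContinuousLinearMap.inl ℝ (EE d) (WW d)).comp (ContinuousLinearMap.fst ℝ (EE d) (WW d)) +
    (ContinuousLinearMap.inr ℝ (EE d) (WW d)).comp ((rtC (b : Mt d)).comp
      (ContinuousLinearMap.snd ℝ (EE d) (WW d)))

theorem TT_apply (b : OG d) (q : QQ d) : TT b q = (q.1, rt q.2 (b : Mt d)) := by
  simp [TT, rtC_apply]

theorem TT_cont : Continuous (TT (d := d)) :=
  continuous_const.add (continuous_const.clm_comp (rtC_cont.clm_comp continuous_const))

theorem TT_mem (b : OG d) {q : QQ d} (hq : q ∈ U ×ˢ (univ : Set (WW d))) :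
    TT b q ∈ U ×ˢ (univ : Set (WW d)) := by
  rw [TT_apply]
  exact ⟨hq.1, trivial⟩

theorem TT_mul (b c : OG d) (q : QQ d) : TT (b * c) q = TT c (TT b q) := by
  rw [TT_apply, TT_apply, TT_apply, Submonoid.coe_mul, rt_mul]

/-- weighted average over the rotations of the frame -/
noncomputable def avgF (w : C(OG d, ℝ)) (F : QQ d → ℝ) (q : QQ d) : ℝ :=
  ∫ b, w b * F (TT b q) ∂(haarO d)

theorem avgF_smooth (hU : IsOpen U) (w : C(OG d, ℝ)) {F : QQ d → ℝ} (hF : SmF U F) :
    SmF U (avgF w F) := by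
  have h := B1_smooth (haarO d) (hU.prod (isOpen_univ (X := WW d))) hF TT_cont
    (fun b q hq => TT_mem b hq) (L := fun b => w b • ContinuousLinearMap.id ℝ ℝ)
    (w.continuous.smul continuous_const)
  exact h

theorem avgF_fderiv (hU : IsOpen U) (w : C(OG d, ℝ)) {F : QQ d → ℝ} (hF : SmF U F) {q : QQ d}
    (hq : q.1 ∈ U) (v : QQ d) :
    fderiv ℝ (avgF w F) q v = ∫ b, w b * fderiv ℝ F (TT b q) (TT b v) ∂(haarO d) := by
  have hV := hU.prod (isOpen_univ (X := WW d))
  have h1 : ContinuousOn (fun p : QQ d × OG d => TT p.2 p.1) ((U ×ˢ univ) ×ˢ univ) := by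
    have := TT_cont (d := d)
    fun_prop
  have hFD : ContinuousOn (fderiv ℝ F) (U ×ˢ univ) :=
    (hF.fderiv_of_isOpen hV (by simp) : ContDiffOn ℝ ∞ (fderiv ℝ F) (U ×ˢ univ)).continuousOn
  have h2 : ContinuousOn (fun p : QQ d × OG d => F (TT p.2 p.1)) ((U ×ˢ univ) ×ˢ univ) :=
    hF.continuousOn.comp h1 fun p hp => TT_mem p.2 hp.1
  have h3 : ContinuousOn (fun p : QQ d × OG d => fderiv ℝ F (TT p.2 p.1)) ((U ×ˢ univ) ×ˢ univ) :=
    hFD.comp h1 fun p hp => TT_mem p.2 hp.1
  have h4 : ContinuousOn (fun p : QQ d × OG d => w p.2 • (fderiv ℝ F (TT p.2 p.1)).comp (TT p.2))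
      ((U ×ˢ univ) ×ˢ univ) :=
    (w.continuous.comp continuous_snd).continuousOn.smul
      (h3.clm_comp (TT_cont.comp continuous_snd).continuousOn)
  have h5 : ContinuousOn (fun p : QQ d × OG d => w p.2 * F (TT p.2 p.1)) ((U ×ˢ univ) ×ˢ univ) :=
    (w.continuous.comp continuous_snd).continuousOn.mul h2
  have h6 := B1_deriv (haarO d) hV (f := fun q b => w b * F (TT b q))
    (f' := fun q b => w b • (fderiv ℝ F (TT b q)).comp (TT b)) h5 h4
    (fun q hq b => by
      have h7 : HasFDerivAt F (fderiv ℝ F (TT b q)) (TT b q) :=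
        (hF.diffAt hU (TT_mem b hq).1).hasFDerivAt
      exact (h7.comp q (TT b).hasFDerivAt).const_mul (w b)) (x₀ := q) ⟨hq, trivial⟩
  have h8 : fderiv ℝ (avgF w F) q = ∫ b, w b • (fderiv ℝ F (TT b q)).comp (TT b) ∂(haarO d) :=
    h6.fderiv
  have hint : Integrable (fun b => w b • (fderiv ℝ F (TT b q)).comp (TT b)) (haarO d) := by
    have hc : Continuous (fun b => w b • (fderiv ℝ F (TT b q)).comp (TT b)) := by
      rw [continuous_iff_continuousAt]
      intro b
      exact (h4.continuousAt ((hV.prod isOpen_univ).mem_nhds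
        (show (q, b) ∈ (U ×ˢ (univ : Set (WW d))) ×ˢ (univ : Set (OG d)) from
          ⟨⟨hq, trivial⟩, trivial⟩))).comp (f := fun b => (q, b)) (by fun_prop)
    obtain ⟨C, hC⟩ := isCompact_univ.exists_bound_of_continuousOn hc.continuousOn
    exact Integrable.of_bound hc.aestronglyMeasurable C
      (Filter.Eventually.of_forall fun k => hC k trivial)
  rw [h8, ContinuousLinearMap.integral_apply hint]
  rfl

/-- The rotation of a horizontal vector. -/
theorem TT_horX (G : EE d → Mt d) (b : OG d) (m : Fin d) (q : QQ d) :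
    TT b (horX G m q) = ∑ m', (b : Mt d) m m' • horX G m' (TT b q) := by
  have hb : ∀ c c' : Fin d, ∑ m', (b : Mt d) c m' * (b : Mt d) c' m' = if c = c' then 1 else 0 := by
    intro c c'
    have h := congrFun (congrFun ((Matrix.mem_orthogonalGroup_iff (Fin d) ℝ).1 b.2) c) c'
    rw [Matrix.mul_apply, Matrix.one_apply] at h
    exact h
  have hr : ∀ a, ∑ m', (b : Mt d) m m' * rt q.2 (b : Mt d) a m' = q.2 a m := by
    intro a
    simp only [rt, Finset.mul_sum]
    rw [Finset.sum_comm]
    have : ∀ c, ∑ m', (b : Mt d) m m' * (q.2 a c * (b : Mt d) c m') =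
        q.2 a c * if m = c then 1 else 0 := by
      intro c
      rw [← hb m c, Finset.mul_sum]
      exact Finset.sum_congr rfl fun m' _ => by ring
    simp [this]
  rw [TT_apply, TT_apply]
  refine Prod.ext ?_ ?_
  · simp only [horX, Prod.fst_sum, Prod.smul_fst, Finset.smul_sum, smul_smul]
    rw [Finset.sum_comm]
    refine Finset.sum_congr rfl fun k _ => ?_
    rw [← Finset.sum_smul, hr]
  · funext k l
    simp only [horX, Prod.snd_sum, Prod.smul_snd, Finset.sum_apply, Pi.smul_apply, smul_eq_mul]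
    have e1 : ∑ m', (b : Mt d) m m' * -∑ a, ∑ c, chr G k a c q.1 * rt q.2 (b : Mt d) a m' *
        rt q.2 (b : Mt d) c l = -∑ a, ∑ c, chr G k a c q.1 *
        (∑ m', (b : Mt d) m m' * rt q.2 (b : Mt d) a m') * rt q.2 (b : Mt d) c l := by
      simp only [mul_neg, Finset.sum_neg_distrib, Finset.mul_sum, Finset.sum_mul]
      congr 1
      rw [Finset.sum_comm]
      refine Finset.sum_congr rfl fun a _ => ?_
      rw [Finset.sum_comm]
      exact Finset.sum_congr rfl fun c _ => Finset.sum_congr rfl fun m' _ => by ring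
    rw [e1]
    simp only [hr]
    show rt (fun k l => -∑ a, ∑ c, chr G k a c q.1 * q.2 a m * q.2 c l) (b : Mt d) k l = _
    simp only [rt, neg_mul, Finset.sum_neg_distrib, Finset.mul_sum, Finset.sum_mul]
    congr 1
    rw [Finset.sum_comm]
    refine Finset.sum_congr rfl fun a _ => ?_
    rw [Finset.sum_comm]
    exact Finset.sum_congr rfl fun c _ => Finset.sum_congr rfl fun m' _ => by ring

/-- horizontal derivative of a function -/
noncomputable def Bf (G : EE d → Mt d) (m : Fin d) (F : QQ d → ℝ) (q : QQ d) : ℝ :=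
  fderiv ℝ F q (horX G m q)

theorem Bf_smooth (h : MetOn U G) (m : Fin d) {F : QQ d → ℝ} (hF : SmF U F) :
    SmF U (Bf G m F) := hF.fderiv_apply h.hU (A4_hor_smooth h m)

/-- the weight `w b * b m m'` -/
noncomputable def wt (w : C(OG d, ℝ)) (m m' : Fin d) : C(OG d, ℝ) := w * EinsteinSix.co m m'

theorem avgF_int (hU : IsOpen U) (w : C(OG d, ℝ)) {F : QQ d → ℝ} (hF : SmF U F) {q : QQ d}
    (hq : q.1 ∈ U) : Integrable (fun b => w b * F (TT b q)) (haarO d) := by
  have hc : Continuous (fun b : OG d => w b * F (TT b q)) := by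
    refine w.continuous.mul ?_
    have h1 : Continuous (fun b : OG d => TT b q) := TT_cont.clm_apply continuous_const
    exact hF.continuousOn.comp_continuous h1 fun b => TT_mem b ⟨hq, trivial⟩
  obtain ⟨C, hC⟩ := isCompact_univ.exists_bound_of_continuousOn hc.continuousOn
  exact Integrable.of_bound hc.aestronglyMeasurable C
    (Filter.Eventually.of_forall fun k => hC k trivial)

/-- Equivariance of the horizontal fields. -/
theorem Bf_avgF (h : MetOn U G) (w : C(OG d, ℝ)) {F : QQ d → ℝ} (hF : SmF U F) (m : Fin d)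
    {q : QQ d} (hq : q.1 ∈ U) :
    Bf G m (avgF w F) q = ∑ m', avgF (wt w m m') (Bf G m' F) q := by
  unfold Bf
  rw [avgF_fderiv h.hU w hF hq]
  simp only [TT_horX, map_sum, map_smul, smul_eq_mul, Finset.mul_sum]
  rw [integral_finsetSum]
  · refine Finset.sum_congr rfl fun m' _ => ?_
    unfold avgF
    refine integral_congr_ae (Filter.Eventually.of_forall fun b => ?_)
    show w b * ((b : Mt d) m m' * _) = w b * (b : Mt d) m m' * _
    ring
  · intro m' _
    have := avgF_int h.hU (wt w m m') (Bf_smooth h m' hF) hq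
    refine this.congr (Filter.Eventually.of_forall fun b => ?_)
    show w b * (b : Mt d) m m' * _ = w b * ((b : Mt d) m m' * _)
    unfold Bf
    ring

theorem Bf_congr (h : MetOn U G) {F F' : QQ d → ℝ} (hFF : ∀ q : QQ d, q.1 ∈ U → F q = F' q)
    (m : Fin d) {q : QQ d} (hq : q.1 ∈ U) : Bf G m F q = Bf G m F' q := by
  unfold Bf
  have : F =ᶠ[𝓝 q] F' := by
    filter_upwards [(h.hU.prod (isOpen_univ (X := WW d))).mem_nhds
      (show q ∈ U ×ˢ (univ : Set (WW d)) from ⟨hq, trivial⟩)] with p hp
    exact hFF p hp.1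
  rw [this.fderiv_eq]

theorem Bf_sum (hU : IsOpen U) {ι : Type} (s : Finset ι) {F : ι → QQ d → ℝ}
    (hF : ∀ i, SmF U (F i)) (m : Fin d) {q : QQ d} (hq : q.1 ∈ U) :
    Bf G m (fun q => ∑ i ∈ s, F i q) q = ∑ i ∈ s, Bf G m (F i) q := by
  unfold Bf
  rw [fderiv_fun_sum fun i _ => (hF i).diffAt hU hq]
  rw [ContinuousLinearMap.sum_apply]

theorem avgF_sum {ι : Type} (s : Finset ι) (hU : IsOpen U) (w : C(OG d, ℝ)) {F : ι → QQ d → ℝ}
    (hF : ∀ i, SmF U (F i)) {q : QQ d} (hq : q.1 ∈ U) :
    avgF w (fun q => ∑ i ∈ s, F i q) q = ∑ i ∈ s, avgF w (F i) q := by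
  unfold avgF
  simp only [Finset.mul_sum]
  rw [integral_finsetSum]
  exact fun i _ => avgF_int hU w (hF i) hq

/-- Averages commute with the horizontal Laplacian. -/
theorem avgF_lap (h : MetOn U G) {F : QQ d → ℝ} (hF : SmF U F) {q : QQ d} (hq : q.1 ∈ U) :
    ∑ m, Bf G m (Bf G m (avgF 1 F)) q = avgF 1 (fun q => ∑ m, Bf G m (Bf G m F) q) q := by
  have h1 : ∀ m, Bf G m (Bf G m (avgF 1 F)) q =
      ∑ m', ∑ m'', avgF (wt (wt 1 m m') m m'') (Bf G m'' (Bf G m' F)) q := by
    intro m
    rw [Bf_congr h (F' := fun q => ∑ m', avgF (wt 1 m m') (Bf G m' F) q)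
      (fun q hq => Bf_avgF h 1 hF m hq) m hq,
      Bf_sum h.hU _ (fun m' => avgF_smooth h.hU _ (Bf_smooth h m' hF)) m hq]
    exact Finset.sum_congr rfl fun m' _ => Bf_avgF h _ (Bf_smooth h m' hF) m hq
  simp only [h1]
  rw [Finset.sum_comm, avgF_sum _ h.hU 1 (fun m => Bf_smooth h m (Bf_smooth h m hF)) hq]
  refine Finset.sum_congr rfl fun m' _ => ?_
  rw [Finset.sum_comm]
  have h2 : ∀ m'', ∑ m, avgF (wt (wt 1 m m') m m'') (Bf G m'' (Bf G m' F)) q =
      if m' = m'' then avgF 1 (Bf G m'' (Bf G m' F)) q else 0 := by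
    intro m''
    unfold avgF
    rw [← integral_finsetSum]
    · have h3 : ∀ b : OG d, ∑ m, (wt (wt 1 m m') m m'') b * Bf G m'' (Bf G m' F) (TT b q) =
          (if m' = m'' then 1 else 0) * Bf G m'' (Bf G m' F) (TT b q) := by
        intro b
        rw [← Finset.sum_mul]
        congr 1
        have h4 := congrFun (congrFun (EinsteinSix.og_left b) m') m''
        rw [Matrix.mul_apply, Matrix.one_apply] at h4
        rw [← h4]
        refine Finset.sum_congr rfl fun m _ => ?_
        show 1 * (b : Mt d) m m' * (b : Mt d) m m'' = _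
        rw [one_mul]
        rfl
      simp only [h3]
      split_ifs
      · refine integral_congr_ae (Filter.Eventually.of_forall fun b => ?_)
        rfl
      · simp
    · exact fun m _ => avgF_int h.hU _ (Bf_smooth h m'' (Bf_smooth h m' hF)) hq
  simp only [h2, Finset.sum_ite_eq, Finset.mem_univ, if_true]

end H60E
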