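import Pool.Agent.Lib.H60E.B2

/-!
# B3: the fibre average as a function on the chart, and its Laplacian
-/

set_option autoImplicit false

open scoped ContDiff Topology
open Set MeasureTheory

namespace H60E

open H31R H79G
open EinsteinSix (OG)

variable {d : ℕ} {U : Set (EE d)} {G : EE d → Mt d}

/-- The average depends only on the base point. -/
theorem avgF_base (F : QQ d → ℝ) {q q' : QQ d} (hq : q ∈ PU U G) (hq' : q' ∈ PU U G)
    (h : q.1 = q'.1) : avgF 1 F q = avgF 1 F q' := by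
  obtain ⟨x, e⟩ := q
  obtain ⟨x', e'⟩ := q'
  obtain rfl : x = x' := h
  obtain ⟨c, rfl⟩ := exists_rt hq hq'
  unfold avgF
  have h1 : ∀ b : OG d, TT b ((x, rt e (c : Mt d)) : QQ d) = TT (c * b) (x, e) := by
    intro b
    rw [TT_mul, TT_apply c]
  simp only [h1, ContinuousMap.one_apply, one_mul]
  exact (integral_mul_left_eq_self (fun b => F (TT b (x, e))) c).symm

/-- The average of a function of the frame, as a function on the chart; `E` is any orthonormal frame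
field. -/
noncomputable def avgU (E : EE d → WW d) (F : QQ d → ℝ) (x : EE d) : ℝ := avgF 1 F (x, E x)

theorem avgU_smooth (h : MetOn U G) {E : EE d → WW d}
    (hE : ∀ k i, ContDiffOn ℝ ∞ (fun y => E y k i) U) {F : QQ d → ℝ} (hF : SmF U F) :
    ContDiffOn ℝ ∞ (avgU E F) U := by
  have h1 : ContDiffOn ℝ ∞ (fun x => ((x, E x) : QQ d)) U := by
    refine contDiffOn_id.prodMk ?_
    rw [contDiffOn_pi]
    intro k
    rw [contDiffOn_pi]
    intro i
    exact hE k i
  exact (avgF_smooth h.hU 1 hF).comp h1 fun x hx => ⟨hx, trivial⟩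

theorem Bf_fst (h : MetOn U G) {φ : EE d → ℝ} (hφ : ContDiffOn ℝ ∞ φ U) (m : Fin d) {q : QQ d}
    (hq : q.1 ∈ U) : Bf G m (fun q => φ q.1) q = ∑ k, q.2 k m * pd k φ q.1 := by
  unfold Bf
  have h1 : HasFDerivAt φ (fderiv ℝ φ q.1) q.1 :=
    ((hφ.contDiffAt (h.hU.mem_nhds hq)).differentiableAt (by simp)).hasFDerivAt
  have h2 : HasFDerivAt (fun q : QQ d => φ q.1)
      ((fderiv ℝ φ q.1).comp (ContinuousLinearMap.fst ℝ (EE d) (WW d))) q :=
    h1.comp q (ContinuousLinearMap.fst ℝ (EE d) (WW d)).hasFDerivAt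
  rw [h2.fderiv]
  show fderiv ℝ φ q.1 (horX G m q).1 = _
  simp only [horX, map_sum, map_smul, smul_eq_mul]
  rfl

theorem SmF_fst {φ : EE d → ℝ} (hφ : ContDiffOn ℝ ∞ φ U) : SmF U (fun q => φ q.1) :=
  hφ.comp contDiffOn_fst fun q hq => hq.1

theorem SmF_co (k m : Fin d) : SmF U (fun q : QQ d => q.2 k m) :=
  ((contDiff_apply_apply ℝ ℝ k m).comp contDiff_snd).contDiffOn

theorem Bf_co (G : EE d → Mt d) (m : Fin d) (k l : Fin d) (q : QQ d) :
    Bf G m (fun q => q.2 k l) q = -∑ a, ∑ b, chr G k a b q.1 * q.2 a m * q.2 b l := by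
  unfold Bf
  have e : (fun p : QQ d => p.2 k l) = ⇑(((ContinuousLinearMap.proj l : (Fin d → ℝ) →L[ℝ] ℝ).comp
    (ContinuousLinearMap.proj k : WW d →L[ℝ] (Fin d → ℝ))).comp
    (ContinuousLinearMap.snd ℝ (EE d) (WW d))) := rfl
  rw [e, ContinuousLinearMap.fderiv]
  rfl

theorem Bf_mul (hU : IsOpen U) {F F' : QQ d → ℝ} (hF : SmF U F) (hF' : SmF U F') (m : Fin d)
    {q : QQ d} (hq : q.1 ∈ U) :
    Bf G m (fun q => F q * F' q) q = F q * Bf G m F' q + F' q * Bf G m F q := by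
  unfold Bf
  rw [fderiv_fun_mul (hF.diffAt hU hq) (hF'.diffAt hU hq)]
  rfl

theorem pd_smooth' (hU : IsOpen U) {f : EE d → ℝ} (hf : ContDiffOn ℝ ∞ f U) (k : Fin d) :
    ContDiffOn ℝ ∞ (pd k f) U :=
  (hf.fderiv_of_isOpen hU (by simp)).clm_apply contDiffOn_const

/-- The horizontal Laplacian of a function on the base is its Laplacian. -/
theorem Bf_fst_lap (h : MetOn U G) {φ : EE d → ℝ} (hφ : ContDiffOn ℝ ∞ φ U) {q : QQ d}
    (hq : q ∈ PU U G) : ∑ m, Bf G m (Bf G m (fun q => φ q.1)) q = lap G φ q.1 := by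
  have hqU : q.1 ∈ U := hq.1
  have h1 : ∀ m, Bf G m (Bf G m (fun q => φ q.1)) q =
      ∑ k, (q.2 k m * ∑ l, q.2 l m * pd l (pd k φ) q.1 +
        pd k φ q.1 * -∑ a, ∑ b, chr G k a b q.1 * q.2 a m * q.2 b m) := by
    intro m
    rw [Bf_congr h (F' := fun q => ∑ k, q.2 k m * pd k φ q.1) (fun q hq => Bf_fst h hφ m hq) m hqU,
      Bf_sum h.hU _ (fun k => (SmF_co k m).mul (SmF_fst (pd_smooth' h.hU hφ k))) m hqU]
    refine Finset.sum_congr rfl fun k _ => ?_
    rw [Bf_mul h.hU (SmF_co k m) (SmF_fst (pd_smooth' h.hU hφ k)) m hqU,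
      Bf_fst h (pd_smooth' h.hU hφ k) m hqU, Bf_co]
  have hinv : ∀ i j, (G q.1)⁻¹ i j = ∑ m, q.2 i m * q.2 j m := fun i j =>
    PU_inv_apply (x := q.1) (e := q.2) hq i j
  unfold lap
  simp only [h1, hinv]
  simp only [mul_sub, Finset.sum_add_distrib, Finset.sum_sub_distrib, Finset.mul_sum, mul_neg,
    Finset.sum_neg_distrib, Finset.sum_mul]
  rw [sub_eq_add_neg]
  congr 1
  · -- second order terms
    rw [Finset.sum_comm]
    rw [Finset.sum_comm (s := (Finset.univ : Finset (Fin d))) (t := Finset.univ)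
      (f := fun i j => ∑ m, q.2 i m * q.2 j m * pd i (pd j φ) q.1)]
    refine Finset.sum_congr rfl fun k _ => ?_
    rw [Finset.sum_comm]
    exact Finset.sum_congr rfl fun l _ => Finset.sum_congr rfl fun m _ => by ring
  · congr 1
    have e1 : ∑ m, ∑ k, ∑ a, ∑ b, pd k φ q.1 * (chr G k a b q.1 * q.2 a m * q.2 b m) =
        ∑ a, ∑ b, ∑ k, ∑ m, q.2 a m * q.2 b m * (chr G k a b q.1 * pd k φ q.1) := by
      have s1 : ∀ m, ∑ k, ∑ a, ∑ b, pd k φ q.1 * (chr G k a b q.1 * q.2 a m * q.2 b m) =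
          ∑ a, ∑ b, ∑ k, q.2 a m * q.2 b m * (chr G k a b q.1 * pd k φ q.1) := by
        intro m
        rw [Finset.sum_comm]
        refine Finset.sum_congr rfl fun a _ => ?_
        rw [Finset.sum_comm]
        exact Finset.sum_congr rfl fun b _ => Finset.sum_congr rfl fun k _ => by ring
      simp only [s1]
      rw [Finset.sum_comm]
      refine Finset.sum_congr rfl fun a _ => ?_
      rw [Finset.sum_comm]
      refine Finset.sum_congr rfl fun b _ => ?_
      rw [Finset.sum_comm]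
    rw [e1]

theorem Bf_tang (h : MetOn U G) (m : Fin d) {F F' : QQ d → ℝ} (hF : SmF U F) (hF' : SmF U F')
    (hFF : ∀ q ∈ PU U G, F q = F' q) {q : QQ d} (hq : q ∈ PU U G) : Bf G m F q = Bf G m F' q :=
  VF.congr h.hU (hor h m) hF hF' hFF hq

/-- **The Laplacian of a fibre average.** -/
theorem lap_avgU (h : MetOn U G) {E : EE d → WW d}
    (hEs : ∀ k i, ContDiffOn ℝ ∞ (fun y => E y k i) U) (hE : ∀ y ∈ U, ((y, E y) : QQ d) ∈ PU U G)
    {F : QQ d → ℝ} (hF : SmF U F) {x : EE d} (hx : x ∈ U) :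
    lap G (avgU E F) x = avgF 1 (fun q => ∑ m, Bf G m (Bf G m F) q) (x, E x) := by
  have hs := avgU_smooth h hEs hF
  have h1 : ∀ q ∈ PU U G, avgU E F q.1 = avgF 1 F q := fun q hq =>
    avgF_base F (hE q.1 hq.1) hq rfl
  rw [← avgF_lap h hF (q := (x, E x)) hx, ← Bf_fst_lap h hs (hE x hx)]
  refine Finset.sum_congr rfl fun m _ => ?_
  exact Bf_tang h m (Bf_smooth h m (SmF_fst hs)) (Bf_smooth h m (avgF_smooth h.hU 1 hF))
    (fun q hq => Bf_tang h m (SmF_fst hs) (avgF_smooth h.hU 1 hF) h1 hq) (hE x hx)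

/-- The derivations of the Cartan structure. -/
theorem Bd_Bf (h : MetOn U G) (m : Fin d) {F : QQ d → ℝ} (hF : SmF U F) :
    Bd h m (AU.mk F hF) = AU.mk (Bf G m F) (Bf_smooth h m hF) :=
  Subtype.ext (funext fun q => Bd_mk h m hF q)

end H60E
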