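import Pool.Agent.Lib.H60E.B3
import Pool.Agent.Lib.H79G.B1
import Pool.Agent.Lib.H79G.T1

/-!
# C1: the Laplacian as a divergence, and its naturality
-/

set_option autoImplicit false

open scoped ContDiff Topology
open Set MeasureTheory

namespace H60E

open H31R H79G

variable {d : ℕ} {U V : Set (EE d)} {G H : EE d → Mt d} {Φ : EE d → EE d}

/-- the gradient -/
noncomputable def grd (G : EE d → Mt d) (f : EE d → ℝ) (x : EE d) (k : Fin d) : ℝ :=
  ∑ j, (G x)⁻¹ k j * pd j f x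

theorem grd_smooth (h : MetOn U G) {f : EE d → ℝ} (hf : ContDiffOn ℝ ∞ f U) (k : Fin d) :
    ContDiffOn ℝ ∞ (fun y => grd G f y k) U :=
  ContDiffOn.sum fun j _ => (h.smooth_inv k j).mul (pd_smooth' h.hU hf j)

theorem C1_inv (h : MetOn U G) {x : EE d} (hx : x ∈ U) (k a b : Fin d) :
    pd k (fun y => (G y)⁻¹ a b) x =
      -((∑ c, chM G k x a c * (G x)⁻¹ c b) + ∑ c, (G x)⁻¹ a c * chM G k x b c) := by
  have hdet := met_det_ne h
  have hu : IsUnit (G x).det := isUnit_iff_ne_zero.2 (hdet x hx)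
  have h1 := N_pdM_inv (n := 1) h.hU hx (h.smM _) hdet k
  have h2 : pd k (fun y => (G y)⁻¹ a b) x = (pdM k (fun y => (G y)⁻¹) x) a b := rfl
  have h3 : (G x)⁻¹ * pdM k G x * (G x)⁻¹ = chM G k x * (G x)⁻¹ +
      (G x)⁻¹ * (chM G k x).transpose := by
    rw [met_compat h hx k, Matrix.mul_add, Matrix.add_mul, ← Matrix.mul_assoc (G x)⁻¹ (G x),
      Matrix.nonsing_inv_mul _ hu, Matrix.one_mul, Matrix.mul_assoc (G x)⁻¹, Matrix.mul_assoc
      (chM G k x).transpose, Matrix.mul_nonsing_inv _ hu, Matrix.mul_one]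
    abel
  rw [h2, h1, h3, Matrix.neg_apply, Matrix.add_apply, Matrix.mul_apply, Matrix.mul_apply]
  rfl

/-- The Laplacian is the divergence of the gradient. -/
theorem lap_eq_nab (h : MetOn U G) {f : EE d → ℝ} (hf : ContDiffOn ℝ ∞ f U) {x : EE d}
    (hx : x ∈ U) : ∑ k, nab G (grd G f) x k k = lap G f x := by
  have d1 : ∀ a b, DifferentiableAt ℝ (fun y => (G y)⁻¹ a b) x := fun a b =>
    ((h.smooth_inv a b).contDiffAt (h.hU.mem_nhds hx)).differentiableAt (by simp)
  have d2 : ∀ j, DifferentiableAt ℝ (pd j f) x := fun j =>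
    ((pd_smooth' h.hU hf j).contDiffAt (h.hU.mem_nhds hx)).differentiableAt (by simp)
  have h1 : ∀ k, pd k (fun y => grd G f y k) x = ∑ j, (pd k (fun y => (G y)⁻¹ k j) x * pd j f x +
      (G x)⁻¹ k j * pd k (pd j f) x) := by
    intro k
    unfold grd
    rw [N_pd_sum Finset.univ (fun j y => (G y)⁻¹ k j * pd j f y) fun j _ => (d1 k j).mul (d2 j)]
    exact Finset.sum_congr rfl fun j _ => N_pd_mul (d1 k j) (d2 j) k
  unfold nab lap
  simp only [h1, C1_inv h hx]
  have e1 : ∑ k, ∑ b, chr G k k b x * grd G f x b =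
      ∑ k, ∑ j, (∑ c, chM G k x k c * (G x)⁻¹ c j) * pd j f x := by
    refine Finset.sum_congr rfl fun k _ => ?_
    unfold grd
    simp only [Finset.mul_sum, Finset.sum_mul]
    rw [Finset.sum_comm]
    exact Finset.sum_congr rfl fun j _ => Finset.sum_congr rfl fun c _ => by
      show chr G k k c x * ((G x)⁻¹ c j * pd j f x) = chr G k k c x * (G x)⁻¹ c j * pd j f x
      ring
  have e2 : ∑ i, ∑ j, (G x)⁻¹ i j * ∑ k, chr G k i j x * pd k f x =
      ∑ k, ∑ j, (∑ c, (G x)⁻¹ k c * chM G k x j c) * pd j f x := by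
    refine Finset.sum_congr rfl fun i _ => ?_
    simp only [Finset.mul_sum, Finset.sum_mul]
    rw [Finset.sum_comm]
    refine Finset.sum_congr rfl fun k _ => Finset.sum_congr rfl fun c _ => ?_
    show (G x)⁻¹ i c * (chr G k i c x * pd k f x) = (G x)⁻¹ i c * chr G k i c x * pd k f x
    ring
  simp only [mul_sub, Finset.sum_sub_distrib]
  rw [e2]
  simp only [Finset.sum_add_distrib, neg_mul, add_mul, neg_add]
  rw [e1]
  simp only [Finset.sum_neg_distrib]
  ring

/-- The divergence theorem in coordinates. -/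
theorem dens_lap (h : MetOn U G) {f : EE d → ℝ} (hf : ContDiffOn ℝ ∞ f U) {x : EE d}
    (hx : x ∈ U) : dens G x * lap G f x = ∑ k, pd k (fun z => dens G z * grd G f z k) x := by
  have dd : DifferentiableAt ℝ (dens G) x :=
    (h.smooth_dens.contDiffAt (h.hU.mem_nhds hx)).differentiableAt (by simp)
  have dg : ∀ k, DifferentiableAt ℝ (fun z => grd G f z k) x := fun k =>
    ((grd_smooth h hf k).contDiffAt (h.hU.mem_nhds hx)).differentiableAt (by simp)
  have h1 : ∀ k, pd k (fun z => dens G z * grd G f z k) x =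
      dens G x * ((chM G k x).trace * grd G f x k + pd k (fun z => grd G f z k) x) := by
    intro k
    rw [N_pd_mul dd (dg k) k, pd_dens h hx k]
    ring
  simp only [h1]
  rw [← lap_eq_nab h hf hx, ← Finset.mul_sum]
  congr 1
  unfold nab
  rw [Finset.sum_add_distrib, Finset.sum_add_distrib, add_comm]
  congr 1
  rw [Finset.sum_comm]
  refine Finset.sum_congr rfl fun b _ => ?_
  rw [← Finset.sum_mul]
  congr 1
  refine Finset.sum_congr rfl fun k _ => ?_
  exact N_chr_symm h.hU hx h.symm k k b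

theorem grd_pull (h : Pull U V Φ G H) {f f' : EE d → ℝ} (hf' : ContDiffOn ℝ ∞ f' U)
    (hff : ∀ x ∈ V, f' (Φ x) = f x) {x : EE d} (hx : x ∈ V) :
    grd H f' (Φ x) = (jac Φ x).mulVec (grd G f x) := by
  have hu : IsUnit (jac Φ x).det := isUnit_iff_ne_zero.2 (h.hJ x hx)
  have hut : IsUnit ((jac Φ x).transpose).det := by rwa [Matrix.det_transpose]
  have huH : IsUnit (H (Φ x)).det := isUnit_iff_ne_zero.2 (h.hd _ (h.hm hx))
  have h1 : ∀ k, pd k f x = ∑ a, jac Φ x a k * pd a f' (Φ x) := by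
    intro k
    rw [← N_chain h.hU h.hV hx h.hΦ h.hm (hf'.of_le (by exact_mod_cast le_top)) k]
    exact N_pd_congr_on h.hV hx k fun y hy => (hff y hy).symm
  have h2 : (fun k => pd k f x) = (jac Φ x).transpose.mulVec (fun a => pd a f' (Φ x)) := by
    funext k
    rw [h1, Matrix.mulVec, dotProduct]
    rfl
  have e1 : grd H f' (Φ x) = (H (Φ x))⁻¹.mulVec (fun a => pd a f' (Φ x)) := rfl
  have e2 : grd G f x = (G x)⁻¹.mulVec (fun k => pd k f x) := rfl
  rw [e1, e2, h2, Matrix.mulVec_mulVec, Matrix.mulVec_mulVec, h.hG x hx, Matrix.mul_inv_rev,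
    Matrix.mul_inv_rev]
  congr 1
  rw [← Matrix.mul_assoc, ← Matrix.mul_assoc, Matrix.mul_nonsing_inv _ hu, Matrix.one_mul,
    Matrix.mul_assoc, Matrix.nonsing_inv_mul _ hut, Matrix.mul_one]

/-- Naturality of the Laplacian. -/
theorem lap_pull (h : Pull U V Φ G H) (hG : MetOn V G) (hH : MetOn U H) {f f' : EE d → ℝ}
    (hf : ContDiffOn ℝ ∞ f V) (hf' : ContDiffOn ℝ ∞ f' U)
    (hff : ∀ x ∈ V, f' (Φ x) = f x) {x : EE d} (hx : x ∈ V) :
    lap H f' (Φ x) = lap G f x := by
  have hu : IsUnit (jac Φ x).det := isUnit_iff_ne_zero.2 (h.hJ x hx)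
  rw [← lap_eq_nab hG hf hx, ← lap_eq_nab hH hf' (h.hm hx)]
  have h1 := nab_pull h (fun a => grd_smooth hG hf a) (fun a => grd_smooth hH hf' a)
    (fun x hx => grd_pull h hf' hff hx) hx
  have e1 : ∑ k, nab G (grd G f) x k k = (nab G (grd G f) x).trace := rfl
  have e2 : ∑ k, nab H (grd H f') (Φ x) k k = (nab H (grd H f') (Φ x)).trace := rfl
  rw [e1, e2, h1, Matrix.trace_mul_comm, ← Matrix.mul_assoc, ← Matrix.transpose_mul,
    Matrix.mul_nonsing_inv _ hu, Matrix.transpose_one, Matrix.one_mul]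

end H60E
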