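import Pool.Agent.Lib.H60E.C1
import Pool.Agent.Lib.H79G.B4

/-!
# C2: natural functions on the orthonormal frames
-/

set_option autoImplicit false

open scoped ContDiff Topology
open Set MeasureTheory

namespace H60E

open H31R H79G
open EinsteinSix (OG)

variable {d : ℕ} {U V : Set (EE d)} {G H : EE d → Mt d} {Φ : EE d → EE d}

theorem crv_crv (T : Fin d → Fin d → Fin d → Fin d → ℝ) (e b : WW d) (i j k l : Fin d) :
    crv (crv T e) b i j k l = crv T (rt e b) i j k l := by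
  have hL : ∀ (a' b' c' f' : Fin d), crv T e a' b' c' f' * b a' i * b b' j * b c' k * b f' l =
      ∑ a, ∑ s, ∑ c, ∑ f, T a s c f * (e a a' * b a' i) * (e s b' * b b' j) * (e c c' * b c' k) *
        (e f f' * b f' l) := by
    intro a' b' c' f'
    unfold crv
    simp only [Finset.sum_mul]
    exact Finset.sum_congr rfl fun a _ => Finset.sum_congr rfl fun s _ =>
      Finset.sum_congr rfl fun c _ => Finset.sum_congr rfl fun f _ => by ring
  have hR : ∀ (a s c f : Fin d), T a s c f * rt e b a i * rt e b s j * rt e b c k * rt e b f l =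
      ∑ a', ∑ b', ∑ c', ∑ f', T a s c f * (e a a' * b a' i) * (e s b' * b b' j) *
        (e c c' * b c' k) * (e f f' * b f' l) := by
    intro a s c f
    have e1 : ∀ (x : ℝ) (F : Fin d → ℝ), x * ∑ m, F m = ∑ m, x * F m := fun x F =>
      Finset.mul_sum _ _ _
    have e2 : ∀ (x : ℝ) (F : Fin d → ℝ), (∑ m, F m) * x = ∑ m, F m * x := fun x F =>
      Finset.sum_mul _ _ _
    simp only [rt]
    rw [e1]
    simp only [e2, e1]
    rw [Finset.sum_comm]
    refine Finset.sum_congr rfl fun a' _ => ?_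
    rw [Finset.sum_comm]
    refine Finset.sum_congr rfl fun b' _ => ?_
    rw [Finset.sum_comm]
  have h1 : crv (crv T e) b i j k l = ∑ a', ∑ b', ∑ c', ∑ f', crv T e a' b' c' f' * b a' i *
      b b' j * b c' k * b f' l := rfl
  have h2 : crv T (rt e b) i j k l = ∑ a, ∑ s, ∑ c, ∑ f, T a s c f * rt e b a i * rt e b s j *
      rt e b c k * rt e b f l := rfl
  rw [h1, h2]
  simp only [hL, hR]
  -- exchange the two quadruple sums
  have sw : ∀ (F : Fin d → Fin d → Fin d → Fin d → Fin d → Fin d → Fin d → Fin d → ℝ),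
      (∑ a', ∑ b', ∑ c', ∑ f', ∑ a, ∑ s, ∑ c, ∑ f, F a' b' c' f' a s c f) =
      ∑ a, ∑ s, ∑ c, ∑ f, ∑ a', ∑ b', ∑ c', ∑ f', F a' b' c' f' a s c f := by
    intro F
    have k1 : ∀ (K : Fin d → Fin d → Fin d → Fin d → Fin d → ℝ),
        (∑ a', ∑ b', ∑ c', ∑ f', ∑ a, K a' b' c' f' a) =
        ∑ a, ∑ a', ∑ b', ∑ c', ∑ f', K a' b' c' f' a := by
      intro K
      have t1 : ∀ a' b' c', ∑ f', ∑ a, K a' b' c' f' a = ∑ a, ∑ f', K a' b' c' f' a :=
        fun _ _ _ => Finset.sum_comm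
      have t2 : ∀ a' b', ∑ c', ∑ a, ∑ f', K a' b' c' f' a = ∑ a, ∑ c', ∑ f', K a' b' c' f' a :=
        fun _ _ => Finset.sum_comm
      have t3 : ∀ a', ∑ b', ∑ a, ∑ c', ∑ f', K a' b' c' f' a =
          ∑ a, ∑ b', ∑ c', ∑ f', K a' b' c' f' a := fun _ => Finset.sum_comm
      simp only [t1, t2, t3]
      rw [Finset.sum_comm]
    rw [k1 fun a' b' c' f' a => ∑ s, ∑ c, ∑ f, F a' b' c' f' a s c f]
    refine Finset.sum_congr rfl fun a _ => ?_
    rw [k1 fun a' b' c' f' s => ∑ c, ∑ f, F a' b' c' f' a s c f]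
    refine Finset.sum_congr rfl fun s _ => ?_
    rw [k1 fun a' b' c' f' c => ∑ f, F a' b' c' f' a s c f]
    refine Finset.sum_congr rfl fun c _ => ?_
    rw [k1 fun a' b' c' f' f => F a' b' c' f' a s c f]
  exact sw fun a' b' c' f' a s c f => T a s c f * (e a a' * b a' i) * (e s b' * b b' j) *
    (e c c' * b c' k) * (e f f' * b f' l)

/-- Naturality of the curvature tensor. -/
theorem riem_pull (h : Pull U V Φ G H) {x : EE d} (hx : x ∈ V) (i j k l : Fin d) :
    riem G x i j k l = crv (riem H (Φ x)) (jac Φ x) i j k l := by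
  rw [riem_eq, h.hG x hx, Matrix.mul_assoc, Matrix.mul_assoc, h.Rm_eq hx i j]
  unfold crv
  simp only [riem_eq]
  rw [← Matrix.mul_assoc, Matrix.mul_apply]
  have e1 : ∀ c f : Fin d, ((jac Φ x).transpose * H (Φ x)) k c *
      ((∑ a, ∑ b, (jac Φ x a i * jac Φ x b j) • Rm H a b (Φ x)) * jac Φ x) c l =
      ((jac Φ x).transpose * H (Φ x)) k c *
      ((∑ a, ∑ b, (jac Φ x a i * jac Φ x b j) • Rm H a b (Φ x)) * jac Φ x) c l := fun _ _ => rfl
  have e2 : (jac Φ x).transpose * H (Φ x) *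
      ((∑ a, ∑ b, (jac Φ x a i * jac Φ x b j) • Rm H a b (Φ x)) * jac Φ x) =
      ∑ a, ∑ b, (jac Φ x a i * jac Φ x b j) •
        ((jac Φ x).transpose * (H (Φ x) * Rm H a b (Φ x)) * jac Φ x) := by
    simp only [Matrix.sum_mul, Matrix.mul_sum, Matrix.smul_mul, Matrix.mul_smul, Matrix.mul_assoc]
  rw [← Matrix.mul_apply, e2, Matrix.sum_apply]
  refine Finset.sum_congr rfl fun a _ => ?_
  rw [Matrix.sum_apply]
  refine Finset.sum_congr rfl fun b _ => ?_
  rw [Matrix.smul_apply, smul_eq_mul, Matrix.mul_apply, Finset.mul_sum, Finset.sum_comm]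
  refine Finset.sum_congr rfl fun f _ => ?_
  rw [Matrix.mul_apply, Finset.sum_mul, Finset.mul_sum]
  refine Finset.sum_congr rfl fun c _ => ?_
  rw [Matrix.transpose_apply]
  ring

/-- The action of the derivative on the frames. -/
theorem PU_pull (h : Pull U V Φ G H) {x : EE d} {e : WW d} (hx : ((x, e) : QQ d) ∈ PU V G) :
    ((Φ x, rt (jac Φ x) e) : QQ d) ∈ PU U H := by
  have h1 := (mem_PU_iff.1 hx)
  rw [mem_PU_iff]
  refine ⟨h.hm h1.1, ?_⟩
  have h2 := h1.2
  rw [h.hG x h1.1] at h2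
  have e1 : Matrix.of (rt (jac Φ x) e) = jac Φ x * Matrix.of e := rt_eq (jac Φ x) e
  rw [e1, Matrix.transpose_mul]
  rw [← h2]
  simp only [Matrix.mul_assoc]

/-- a function of the curvature in the frame -/
noncomputable def natF (Ψ : (Fin d → Fin d → Fin d → Fin d → ℝ) → ℝ) (G : EE d → Mt d) (q : QQ d) :
    ℝ := Ψ fun i j k l => crv (riem G q.1) q.2 i j k l

theorem natF_smooth (h : MetOn U G) {Ψ : (Fin d → Fin d → Fin d → Fin d → ℝ) → ℝ}
    (hΨ : ContDiff ℝ ∞ Ψ) : SmF U (natF Ψ G) := by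
  refine hΨ.comp_contDiffOn ?_
  rw [contDiffOn_pi]
  intro i
  rw [contDiffOn_pi]
  intro j
  rw [contDiffOn_pi]
  intro k
  rw [contDiffOn_pi]
  intro l
  exact RU_smooth h i j k l

theorem natF_pull (h : Pull U V Φ G H) (Ψ : (Fin d → Fin d → Fin d → Fin d → ℝ) → ℝ) {x : EE d}
    (hx : x ∈ V) (e : WW d) : natF Ψ G (x, e) = natF Ψ H (Φ x, rt (jac Φ x) e) := by
  unfold natF
  congr 1
  funext i j k l
  show crv (riem G x) e i j k l = crv (riem H (Φ x)) (rt (jac Φ x) e) i j k l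
  have : riem G x = crv (riem H (Φ x)) (jac Φ x) := by
    funext i j k l
    exact riem_pull h hx i j k l
  rw [this]
  exact crv_crv (riem H (Φ x)) (jac Φ x) e i j k l

theorem avg_pull (h : Pull U V Φ G H) (Ψ : (Fin d → Fin d → Fin d → Fin d → ℝ) → ℝ) {x : EE d}
    (hx : x ∈ V) (e : WW d) :
    avgF 1 (natF Ψ G) (x, e) = avgF 1 (natF Ψ H) (Φ x, rt (jac Φ x) e) := by
  unfold avgF
  refine integral_congr_ae (Filter.Eventually.of_forall fun b => ?_)
  simp only [TT_apply]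
  rw [natF_pull h Ψ hx]
  have e1 : rt (jac Φ x) (rt e (b : Mt d)) = rt (rt (jac Φ x) e) (b : Mt d) :=
    rt_mul (jac Φ x) (Matrix.of e) (b : Mt d)
  rw [e1]

theorem avgU_pull (h : Pull U V Φ G H) {E : EE d → WW d} {E' : EE d → WW d}
    (hE : ∀ y ∈ V, ((y, E y) : QQ d) ∈ PU V G) (hE' : ∀ y ∈ U, ((y, E' y) : QQ d) ∈ PU U H)
    (Ψ : (Fin d → Fin d → Fin d → Fin d → ℝ) → ℝ) {x : EE d} (hx : x ∈ V) :
    avgU E' (natF Ψ H) (Φ x) = avgU E (natF Ψ G) x := by
  unfold avgU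
  rw [avg_pull h Ψ hx]
  exact avgF_base (natF Ψ H) (hE' _ (h.hm hx)) (PU_pull h (hE x hx)) rfl

end H60E
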