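import Pool.Agent.Lib.EinsteinSix.Main

/-!
# D1: the pointwise inequality of `EinsteinSix.Main`, for an abstract Cartan structure
-/

set_option autoImplicit false

open MeasureTheory Finset Matrix H91.Split Polynomial

namespace H60E

open EinsteinSix

theorem D1_prim (h : ℝ[X]) : ∃ H : ℝ[X], derivative H = h := by
  induction h using Polynomial.induction_on' with
  | add p q hp hq =>
    obtain ⟨P, hP⟩ := hp
    obtain ⟨Q, hQ⟩ := hq
    exact ⟨P + Q, by rw [derivative_add, hP, hQ]⟩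
  | monomial n a =>
    refine ⟨monomial (n + 1) (a / (n + 1)), ?_⟩
    rw [derivative_monomial]
    have : (n : ℝ) + 1 ≠ 0 := by positivity
    simp only [Nat.add_sub_cancel]
    congr 1
    push_cast
    field_simp

variable {A : Type*} [CommRing A] [Algebra ℝ A]

theorem D1_prim_apply (D : Derivation ℝ A A) (ψ : A) {h H : ℝ[X]} (hH : derivative H = h) :
    D (aeval ψ H) = aeval ψ h * D ψ := by
  rw [Derivation.map_aeval, hH, smul_eq_mul]

theorem D1_sq (D : Derivation ℝ A A) (e : A →ₐ[ℝ] ℝ) (u : A) :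
    e (D u) ^ 2 = (1 / 2) * e (D (D (u ^ 2))) - e u * e (D (D u)) := by
  have h1 : D (D (u ^ 2)) = 2 * (D u) ^ 2 + 2 * (u * D (D u)) := by
    rw [pow_two, Derivation.leibniz, smul_eq_mul, map_add, Derivation.leibniz, smul_eq_mul,
      smul_eq_mul]
    ring
  rw [h1, map_add, map_mul, map_mul, map_pow, map_mul, map_ofNat]
  ring

/-- The pointwise inequality. -/
theorem D1_pt (C : Cartan 6 A) (e : A →ₐ[ℝ] ℝ) {lam : ℝ} (hlam : lam < 0)
    (hE : ∀ i k, ∑ j, C.R i j k j = algebraMap ℝ A (if i = k then lam else 0))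
    {N k : ℕ} {g : Fin N → M6} {ε ε₁ : ℝ} {h H : ℝ[X]} (hH : derivative H = h)
    (hh : ∀ x : T6, Cls x →
      (defect x - ε ≤ HopfSix.gaussBonnet x +
        h.eval (∑ i, ell (rot (g i) x) ^ k) *
          ∑ i, (k : ℝ) * ell (rot (g i) x) ^ (k - 1) * ell (rot (g i) (react x))) ∧
      ∀ v : Fin N → ℝ, -ε₁ * ∑ i, v i ^ 2 ≤
        h.eval (∑ i, ell (rot (g i) x) ^ k) *
          ∑ i, (k : ℝ) * ((k : ℝ) - 1) * ell (rot (g i) x) ^ (k - 2) * v i ^ 2 +
        (derivative h).eval (∑ i, ell (rot (g i) x) ^ k) *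
          (∑ i, (k : ℝ) * ell (rot (g i) x) ^ (k - 1) * v i) ^ 2)
    (hcls : Cls (fun i j k l => -(5 / -lam) * C.at e i j k l)) :
    (-lam / 5) * (-ε - (HopfSix.gaussBonnet (fun i j k l => -(5 / -lam) * C.at e i j k l) -
        defect (fun i j k l => -(5 / -lam) * C.at e i j k l))) ≤
      ∑ m, e (C.B m (C.B m (aeval (∑ i, C.U (5 / -lam) (g i) ^ k) H))) +
      ε₁ * ∑ i, ((1 / 2) * ∑ m, e (C.B m (C.B m (C.U (5 / -lam) (g i) ^ 2))) -
        ell (rot (g i) (fun i j k l => -(5 / -lam) * C.at e i j k l)) *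
          ((-lam / 5) * ell (rot (g i) (react (fun i j k l => -(5 / -lam) * C.at e i j k l))))) := by
  have hc : 0 < -lam / 5 := by linarith
  set U : Fin N → A := fun i => C.U (5 / -lam) (g i) with hU
  set S : T6 := fun i j k l => -(5 / -lam) * C.at e i j k l with hS
  have hUp : ∀ i, e (U i) = ell (rot (g i) S) := fun i => C.U_at e _ _
  have hlap : ∀ i, ∑ m, e (C.B m (C.B m (U i))) = (-lam / 5) * ell (rot (g i) (react S)) := by
    intro i
    rw [← map_sum]
    exact C.lapl_U e hlam hE (g i)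
  have hW : ∑ i, ((1 / 2) * ∑ m, e (C.B m (C.B m (U i ^ 2))) -
        ell (rot (g i) S) * ((-lam / 5) * ell (rot (g i) (react S)))) =
      ∑ m, ∑ i, e (C.B m (U i)) ^ 2 := by
    rw [sum_comm]
    refine sum_congr rfl fun i _ => ?_
    simp only [D1_sq, sum_sub_distrib, ← mul_sum]
    rw [hlap i, hUp i]
  have hX : ∑ m, e (C.B m (C.B m (aeval (∑ i, U i ^ k) H))) =
      ∑ m, e (C.B m (aeval (∑ i, U i ^ k) h * C.B m (∑ i, U i ^ k))) := by
    refine sum_congr rfl fun m _ => ?_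
    rw [D1_prim_apply _ _ hH]
  rw [hX, hW]
  obtain ⟨h1, h2⟩ := hh _ hcls
  have h1' : -ε ≤ (HopfSix.gaussBonnet S - defect S) + h.eval (∑ i, ell (rot (g i) S) ^ k) *
      ∑ i, (k : ℝ) * ell (rot (g i) S) ^ (k - 1) * ell (rot (g i) (react S)) := by
    linarith
  simp_rw [div_single]
  simp_rw [hUp]
  have e1 : ∑ m, (h.eval (∑ i, ell (rot (g i) S) ^ k) *
        (∑ i, (k : ℝ) * ell (rot (g i) S) ^ (k - 1) * e (C.B m (C.B m (U i))) +
          ∑ i, (k : ℝ) * ((k : ℝ) - 1) * ell (rot (g i) S) ^ (k - 2) * e (C.B m (U i)) ^ 2) +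
        (derivative h).eval (∑ i, ell (rot (g i) S) ^ k) *
          (∑ i, (k : ℝ) * ell (rot (g i) S) ^ (k - 1) * e (C.B m (U i))) ^ 2) =
      (-lam / 5) * (h.eval (∑ i, ell (rot (g i) S) ^ k) *
        ∑ i, (k : ℝ) * ell (rot (g i) S) ^ (k - 1) * ell (rot (g i) (react S))) +
      ∑ m, (h.eval (∑ i, ell (rot (g i) S) ^ k) *
          ∑ i, (k : ℝ) * ((k : ℝ) - 1) * ell (rot (g i) S) ^ (k - 2) * e (C.B m (U i)) ^ 2 +
        (derivative h).eval (∑ i, ell (rot (g i) S) ^ k) *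
          (∑ i, (k : ℝ) * ell (rot (g i) S) ^ (k - 1) * e (C.B m (U i))) ^ 2) := by
    have e2 : (-lam / 5) * (h.eval (∑ i, ell (rot (g i) S) ^ k) *
        ∑ i, (k : ℝ) * ell (rot (g i) S) ^ (k - 1) * ell (rot (g i) (react S))) =
        ∑ m, h.eval (∑ i, ell (rot (g i) S) ^ k) *
          ∑ i, (k : ℝ) * ell (rot (g i) S) ^ (k - 1) * e (C.B m (C.B m (U i))) := by
      rw [← mul_sum, sum_comm]
      have : ∑ i, ∑ m, (k : ℝ) * ell (rot (g i) S) ^ (k - 1) * e (C.B m (C.B m (U i))) =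
          (-lam / 5) * ∑ i, (k : ℝ) * ell (rot (g i) S) ^ (k - 1) *
            ell (rot (g i) (react S)) := by
        rw [mul_sum]
        refine sum_congr rfl fun i _ => ?_
        rw [← mul_sum, hlap i]
        ring
      rw [this]
      ring
    rw [e2, ← sum_add_distrib]
    refine sum_congr rfl fun m _ => ?_
    ring
  rw [e1]
  have e3 : -ε₁ * ∑ m, ∑ i, e (C.B m (U i)) ^ 2 ≤ ∑ m, (h.eval (∑ i, ell (rot (g i) S) ^ k) *
          ∑ i, (k : ℝ) * ((k : ℝ) - 1) * ell (rot (g i) S) ^ (k - 2) * e (C.B m (U i)) ^ 2 +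
        (derivative h).eval (∑ i, ell (rot (g i) S) ^ k) *
          (∑ i, (k : ℝ) * ell (rot (g i) S) ^ (k - 1) * e (C.B m (U i))) ^ 2) := by
    rw [mul_sum]
    exact sum_le_sum fun m _ => h2 _
  have e4 : (-lam / 5) * (-ε - (HopfSix.gaussBonnet S - defect S)) ≤
      (-lam / 5) * (h.eval (∑ i, ell (rot (g i) S) ^ k) *
        ∑ i, (k : ℝ) * ell (rot (g i) S) ^ (k - 1) * ell (rot (g i) (react S))) := by
    refine mul_le_mul_of_nonneg_left ?_ hc.le
    linarith
  linarith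

end H60E
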