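import Pool.Agent.Lib.H60E.D1
import Pool.Agent.Lib.H60E.C3

/-!
# D2: the curvature tensor in orthonormal frames: invariants, Einstein condition
-/

set_option autoImplicit false

open scoped ContDiff Topology Manifold
open Set MeasureTheory

namespace H60E

open H31R H79G
open EinsteinSix (OG)
open H91.Split (T6 M6 rot ell)

section gen
variable {d : ℕ} {U : Set (EE d)} {G : EE d → Mt d}

/-- evaluation at a frame -/
noncomputable def evq (q : PU U G) : AU U G →ₐ[ℝ] ℝ :=
  (Pi.evalAlgHom ℝ (fun _ : PU U G => ℝ) q).comp (AU U G).val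

theorem evq_apply (q : PU U G) (u : AU U G) : evq q u = u.1 q := rfl

theorem crv_symm_sum (e : WW d) (T : Fin d → Fin d → Fin d → Fin d → ℝ) (i k : Fin d) :
    ∑ j, crv T e i j k j = ∑ a, ∑ c, e a i * e c k * ∑ b, ∑ f, (∑ j, e b j * e f j) * T a b c f := by
  unfold crv
  rw [Finset.sum_comm]
  refine Finset.sum_congr rfl fun a _ => ?_
  have h1 : ∀ c : Fin d, e a i * e c k * ∑ b, ∑ f, (∑ j, e b j * e f j) * T a b c f =
      ∑ b, ∑ f, ∑ j, T a b c f * e a i * e b j * e c k * e f j := by
    intro c
    simp only [Finset.mul_sum, Finset.sum_mul]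
    exact Finset.sum_congr rfl fun b _ => Finset.sum_congr rfl fun f _ =>
      Finset.sum_congr rfl fun j _ => by ring
  simp only [h1]
  have h2 : ∑ j, ∑ b, ∑ c, ∑ f, T a b c f * e a i * e b j * e c k * e f j =
      ∑ b, ∑ j, ∑ c, ∑ f, T a b c f * e a i * e b j * e c k * e f j := Finset.sum_comm
  rw [h2, Finset.sum_comm (f := fun c b => ∑ f, ∑ j, T a b c f * e a i * e b j * e c k * e f j)]
  refine Finset.sum_congr rfl fun b _ => ?_
  rw [Finset.sum_comm]
  refine Finset.sum_congr rfl fun c _ => ?_
  rw [Finset.sum_comm]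

/-- The Einstein condition in an orthonormal frame. -/
theorem ein_frame {lam : ℝ} {x : EE d} {e : WW d} (hq : ((x, e) : QQ d) ∈ PU U G)
    (hE : ∀ i k, ∑ j, ∑ l, (G x)⁻¹ j l * riem G x i j k l = lam * G x i k) (i k : Fin d) :
    ∑ j, crv (riem G x) e i j k j = if i = k then lam else 0 := by
  rw [crv_symm_sum]
  have h1 : ∀ b f : Fin d, ∑ j, e b j * e f j = (G x)⁻¹ b f := fun b f =>
    (PU_inv_apply hq b f).symm
  simp only [h1, hE]
  have h2 := hq.2 i k
  have h3 : ∑ a, ∑ c, e a i * e c k * (lam * G x a c) =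
      lam * ∑ a, ∑ c, G x a c * e a i * e c k := by
    simp only [Finset.mul_sum]
    exact Finset.sum_congr rfl fun a _ => Finset.sum_congr rfl fun c _ => by ring
  have h4 : ∑ a, ∑ c, G x a c * e a i * e c k = if i = k then 1 else 0 := h2
  rw [h3, h4]
  split_ifs <;> simp

theorem form_frame (T : Fin d → Fin d → Fin d → Fin d → ℝ) (e : WW d) (x y : Fin d → ℝ) :
    ∑ i, ∑ j, ∑ k, ∑ l, crv T e i j k l * x i * y j * x k * y l =
      ∑ a, ∑ b, ∑ c, ∑ f, T a b c f * (∑ i, e a i * x i) * (∑ j, e b j * y j) *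
        (∑ k, e c k * x k) * (∑ l, e f l * y l) := by
  have h1 := fun (b : WW d) (i j k l : Fin d) => crv_crv T e b i j k l
  -- use the frame with the columns `x` and `y`
  have h2 : ∀ (v w : Fin d → ℝ), ∑ i, ∑ j, ∑ k, ∑ l, crv T e i j k l * v i * w j * v k * w l =
      ∑ a, ∑ b, ∑ c, ∑ f, T a b c f * (∑ i, e a i * v i) * (∑ j, e b j * w j) *
        (∑ k, e c k * v k) * (∑ l, e f l * w l) := by
    intro v w
    rcases Nat.eq_zero_or_pos d with h0 | h0
    · subst h0
      simp
    · by_cases h3 : 1 < d
      · have h4 := h1 (fun m i => if i = ⟨0, h0⟩ then v m else w m) ⟨0, h0⟩ ⟨1, h3⟩ ⟨0, h0⟩ ⟨1, h3⟩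
        have h5 : ((⟨1, h3⟩ : Fin d) = ⟨0, h0⟩) = False := by simp
        simpa only [crv, rt, if_true, h5, if_false] using h4
      · have hd : d = 1 := by omega
        subst hd
        simp only [crv, Finset.univ_unique, Fin.default_eq_zero,
          Finset.sum_singleton]
        ring
  exact h2 x y

end gen

theorem rot_eq_crv (g : M6) (R : T6) (i j k l : Fin 6) : rot g R i j k l = crv R g i j k l := by
  simp only [rot, crv]
  exact Finset.sum_congr rfl fun _ _ => Finset.sum_congr rfl fun _ _ => Finset.sum_congr rfl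
    fun _ _ => Finset.sum_congr rfl fun _ _ => by ring

theorem defect_rot {b : M6} (hb : b.transpose * b = 1) (x : T6) :
    EinsteinSix.defect (rot b x) = EinsteinSix.defect x := by
  have hle : ∀ {b : M6} (_ : b.transpose * b = 1) (x : T6),
      EinsteinSix.defect (rot b x) ≤ EinsteinSix.defect x := by
    intro b hb x
    obtain ⟨g, hg, hs⟩ := EinsteinSix.exists_eq_defect x
    have hbt : b * b.transpose = 1 := mul_eq_one_comm.1 hb
    have h1 : (b.transpose * g).transpose * (b.transpose * g) = 1 := by
      rw [Matrix.transpose_mul, Matrix.transpose_transpose, Matrix.mul_assoc, ← Matrix.mul_assoc b,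
        hbt, Matrix.one_mul, hg]
    have h2 := EinsteinSix.defect_le (rot b x) h1
    rw [H91.Split.rot_rot, ← Matrix.mul_assoc, hbt, Matrix.one_mul, hs] at h2
    exact h2
  refine le_antisymm (hle hb x) ?_
  have hbt : b * b.transpose = 1 := mul_eq_one_comm.1 hb
  have hbt' : b.transpose.transpose * b.transpose = 1 := by rwa [Matrix.transpose_transpose]
  have h3 := hle hbt' (rot b x)
  rwa [H91.Split.rot_rot, hbt, H91.Split.rot_one] at h3

section glob
variable {d : ℕ} {M : Type} [TopologicalSpace M] [ChartedSpace (EE d) M]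

/-- The curvature tensor at the point `m`, in an orthonormal frame. -/
noncomputable def curvM (g : Ch.Metric d M) (m : M) : Fin d → Fin d → Fin d → Fin d → ℝ :=
  fun i j k l => crv (riem (g.mat m) (chartAt (EE d) m m)) (frm g m (chartAt (EE d) m m)) i j k l

variable [IsManifold (𝓡 d) ∞ M]

/-- The value of an invariant function of the curvature does not depend on the chart. -/
theorem inv_symm (g : Ch.Metric d M) {Ψ : (Fin d → Fin d → Fin d → Fin d → ℝ) → ℝ}
    (hinv : ∀ (b : OG d) (T : Fin d → Fin d → Fin d → Fin d → ℝ),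
      Ψ (crv T (b : Mt d)) = Ψ T) {p : M} {y : EE d} (hy : y ∈ (chartAt (EE d) p).target)
    {e : WW d} (he : ((y, e) : QQ d) ∈ PU (chartAt (EE d) p).target (g.mat p)) :
    Ψ (curvM g ((chartAt (EE d) p).symm y)) = Ψ (crv (riem (g.mat p) y) e) := by
  set m := (chartAt (EE d) p).symm y with hm
  have hP := pull g p m
  have hyd : y ∈ chDom p m := mem_chDom_self hy
  have he' : ((y, e) : QQ d) ∈ PU (chDom p m) (g.mat p) := ⟨hyd, he.2⟩
  have h1 := PU_pull hP he'
  have h2 : Ch.change p m y = chartAt (EE d) m m := rfl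
  rw [h2] at h1
  have h3 : ((chartAt (EE d) m m, frm g m (chartAt (EE d) m m)) : QQ d) ∈
      PU (chartAt (EE d) m).target (g.mat m) := frm_mem g m (mem_chart_target (EE d) m)
  obtain ⟨b, hb⟩ := exists_rt h3 h1
  have h4 : crv (riem (g.mat p) y) e = crv (curvM g m) (b : Mt d) := by
    funext i j k l
    have h5 : crv (curvM g m) (b : Mt d) i j k l =
        crv (riem (g.mat m) (chartAt (EE d) m m)) (rt (frm g m (chartAt (EE d) m m)) b) i j k l :=
      crv_crv _ _ _ i j k l
    rw [h5, ← hb]
    have h6 : riem (g.mat p) y = crv (riem (g.mat m) (chartAt (EE d) m m)) (jac (Ch.change p m) y) := by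
      funext i j k l
      exact riem_pull hP hyd i j k l
    rw [h6]
    exact crv_crv (riem (g.mat m) (chartAt (EE d) m m)) (jac (Ch.change p m) y) e i j k l
  rw [h4, hinv]

/-- Invariant continuous functions of the curvature are continuous. -/
theorem inv_continuous (g : Ch.Metric d M) {Ψ : (Fin d → Fin d → Fin d → Fin d → ℝ) → ℝ}
    (hΨ : Continuous Ψ) (hinv : ∀ (b : OG d) (T : Fin d → Fin d → Fin d → Fin d → ℝ),
      Ψ (crv T (b : Mt d)) = Ψ T) : Continuous (fun m => Ψ (curvM g m)) := by
  rw [continuous_iff_continuousAt]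
  intro p
  have h1 : ContinuousOn (fun y => Ψ (crv (riem (g.mat p) y) (frm g p y)))
      (chartAt (EE d) p).target := by
    refine hΨ.comp_continuousOn ?_
    rw [continuousOn_pi]
    intro i
    rw [continuousOn_pi]
    intro j
    rw [continuousOn_pi]
    intro k
    rw [continuousOn_pi]
    intro l
    have h2 : ContinuousOn (fun q : QQ d => crv (riem (g.mat p) q.1) q.2 i j k l)
        ((chartAt (EE d) p).target ×ˢ (univ : Set (WW d))) :=
      ContDiffOn.continuousOn (RU_smooth (metOn g p) i j k l)
    have h3 : ContinuousOn (fun y => ((y, frm g p y) : QQ d)) (chartAt (EE d) p).target := by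
      refine continuousOn_id.prodMk ?_
      rw [continuousOn_pi]
      intro k
      rw [continuousOn_pi]
      intro i
      exact (frm_smooth g p k i).continuousOn
    have h8 : MapsTo (fun y => ((y, frm g p y) : QQ d)) (chartAt (EE d) p).target
        ((chartAt (EE d) p).target ×ˢ (univ : Set (WW d))) :=
      fun y hy => Set.mk_mem_prod hy (Set.mem_univ _)
    have h9 := h2.comp h3 h8
    unfold Function.comp at h9
    exact h9
  have h4 : ContinuousOn (fun m => Ψ (crv (riem (g.mat p) (chartAt (EE d) p m))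
      (frm g p (chartAt (EE d) p m)))) (chartAt (EE d) p).source :=
    h1.comp (chartAt (EE d) p).continuousOn fun m hm => (chartAt (EE d) p).map_source hm
  have h5 := h4.continuousAt ((chartAt (EE d) p).open_source.mem_nhds (mem_chart_source (EE d) p))
  refine h5.congr ?_
  filter_upwards [(chartAt (EE d) p).open_source.mem_nhds (mem_chart_source (EE d) p)] with m hm
  have hy := (chartAt (EE d) p).map_source hm
  have h6 := inv_symm g hinv hy (frm_mem g p hy)
  rw [(chartAt (EE d) p).left_inv hm] at h6
  exact h6.symm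

end glob

end H60E
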