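import Pool.Agent.Lib.H60E.D2
import Pool.Agent.Lib.H60E.Stmt

/-!
# D3: the fibre average of the pointwise inequality
-/

set_option autoImplicit false

open scoped ContDiff Topology Manifold
open Set MeasureTheory

namespace H60E

open H31R H79G
open EinsteinSix (OG Cls defect react quad cf)
open H91.Split (T6 M6 rot ell)

/-- the linear function `ell (rot g (-c R))` -/
noncomputable def ellF (c : ℝ) (gg : M6) (R : T6) : ℝ := ell (rot gg (fun i j k l => -c * R i j k l))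

theorem D3_co (i j k l : Fin 6) : ContDiff ℝ ∞ (fun R : T6 => R i j k l) := by
  have h1 : ContDiff ℝ ∞ (fun R : T6 => R i) := contDiff_apply ℝ (Fin 6 → Fin 6 → Fin 6 → ℝ) i
  have h2 : ContDiff ℝ ∞ (fun R : Fin 6 → Fin 6 → Fin 6 → ℝ => R j) :=
    contDiff_apply ℝ (Fin 6 → Fin 6 → ℝ) j
  have h3 : ContDiff ℝ ∞ (fun R : Fin 6 → Fin 6 → ℝ => R k) := contDiff_apply ℝ (Fin 6 → ℝ) k
  have h4 : ContDiff ℝ ∞ (fun R : Fin 6 → ℝ => R l) := contDiff_apply ℝ ℝ l
  exact h4.comp (h3.comp (h2.comp h1))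

theorem ellF_smooth (c : ℝ) (gg : M6) : ContDiff ℝ ∞ (ellF c gg) := by
  unfold ellF
  simp only [EinsteinSix.ell_rot_eq]
  exact ContDiff.sum fun i _ => ContDiff.sum fun j _ => ContDiff.sum fun k _ => ContDiff.sum
    fun l _ => contDiff_const.mul (contDiff_const.mul (D3_co i j k l))

theorem react_smooth (c : ℝ) (gg : M6) :
    ContDiff ℝ ∞ (fun R : T6 => ell (rot gg (react (fun i j k l => -c * R i j k l)))) := by
  simp only [EinsteinSix.ell_rot_eq, react, quad]
  have hc : ∀ i j k l : Fin 6, ContDiff ℝ ∞ (fun R : T6 => -c * R i j k l) := fun i j k l =>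
    contDiff_const.mul (D3_co i j k l)
  refine ContDiff.sum fun i _ => ContDiff.sum fun j _ => ContDiff.sum fun k _ => ContDiff.sum
    fun l _ => contDiff_const.mul (ContDiff.sub ?_ (contDiff_const.mul (hc i j k l)))
  refine ContDiff.sum fun p _ => ContDiff.sum fun q _ => ?_
  exact ((hc _ _ _ _).mul (hc _ _ _ _)).add (contDiff_const.mul
    (((hc _ _ _ _).mul (hc _ _ _ _)).sub ((hc _ _ _ _).mul (hc _ _ _ _))))

theorem eval_smooth (H : Polynomial ℝ) : ContDiff ℝ ∞ (fun t : ℝ => H.eval t) := by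
  simp only [Polynomial.eval_eq_sum_range]
  exact ContDiff.sum fun i _ => contDiff_const.mul (contDiff_id.pow i)

/-- the function whose horizontal Laplacian is used -/
noncomputable def Psi1 (c : ℝ) {N : ℕ} (k : ℕ) (gg : Fin N → M6) (H : Polynomial ℝ) (ε₁ : ℝ)
    (R : T6) : ℝ :=
  H.eval (∑ i, ellF c (gg i) R ^ k) + ε₁ / 2 * ∑ i, ellF c (gg i) R ^ 2

theorem Psi1_smooth (c : ℝ) {N : ℕ} (k : ℕ) (gg : Fin N → M6) (H : Polynomial ℝ) (ε₁ : ℝ) :
    ContDiff ℝ ∞ (Psi1 c k gg H ε₁) := by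
  unfold Psi1
  refine ContDiff.add ?_ (contDiff_const.mul (ContDiff.sum fun i _ => (ellF_smooth c (gg i)).pow 2))
  exact (eval_smooth H).comp (ContDiff.sum fun i _ => (ellF_smooth c (gg i)).pow k)

/-- the correction term -/
noncomputable def Psi3 (lam : ℝ) {N : ℕ} (gg : Fin N → M6) (R : T6) : ℝ :=
  ∑ i, ellF (5 / -lam) (gg i) R *
    ((-lam / 5) * ell (rot (gg i) (react (fun i j k l => -(5 / -lam) * R i j k l))))

theorem Psi3_smooth (lam : ℝ) {N : ℕ} (gg : Fin N → M6) : ContDiff ℝ ∞ (Psi3 lam gg) := by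
  unfold Psi3
  exact ContDiff.sum fun i _ => (ellF_smooth _ (gg i)).mul (contDiff_const.mul
    (react_smooth _ (gg i)))

section loc
variable {U : Set (EE 6)} {G : EE 6 → Mt 6}

/-- the tensor at a frame -/
theorem at_evq (h : MetOn U G) (q : PU U G) :
    (cartanU h).at (evq q) = crv (riem G q.1.1) q.1.2 := rfl

theorem D3_alg (h : MetOn U G) (q : PU U G) : HopfSix.IsAlgCurv (crv (riem G q.1.1) q.1.2) := by
  have hz : ∀ a b : AU U G, a = b → evq q a = evq q b := by
    rintro a b rfl; rfl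
  rw [← at_evq h q]
  constructor
  · intro i j k l
    have := hz _ _ ((cartanU h).skew12 i j k l)
    rw [map_neg] at this
    exact this
  · intro i j k l
    exact hz _ _ ((cartanU h).pair i j k l)
  · intro i j k l
    have := hz _ _ ((cartanU h).bianchi i j k l)
    rw [map_add, map_add, map_zero] at this
    exact this

theorem D3_cls (h : MetOn U G) {lam : ℝ} (hlam : lam < 0)
    (hE : ∀ x ∈ U, ∀ i k, ∑ j, ∑ l, (G x)⁻¹ j l * riem G x i j k l = lam * G x i k)
    (hK : ∀ x ∈ U, ∀ v w : Fin 6 → ℝ,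
      ∑ i, ∑ j, ∑ k, ∑ l, riem G x i j k l * v i * w j * v k * w l ≤ 0) (q : PU U G) :
    Cls (fun i j k l => -(5 / -lam) * crv (riem G q.1.1) q.1.2 i j k l) := by
  have halg := D3_alg h q
  have hric : ∀ i k, ∑ j, crv (riem G q.1.1) q.1.2 i j k j = if i = k then lam else 0 :=
    ein_frame (x := q.1.1) (e := q.1.2) q.2 (hE _ q.2.1)
  refine ⟨⟨?_, ?_, ?_⟩, ?_, ?_⟩
  · intro i j k l
    rw [halg.skew i j k l]; ring
  · intro i j k l
    rw [halg.pair i j k l]
  · intro i j k l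
    have := halg.bianchi i j k l
    linear_combination (-(5 / -lam)) * this
  · intro i k
    rw [H91.Split.ric, ← Finset.mul_sum, hric i k]
    have : lam ≠ 0 := hlam.ne
    split_ifs
    · field_simp
    · simp
  · intro x y
    have h1 : ∑ i, ∑ j, ∑ k, ∑ l, crv (riem G q.1.1) q.1.2 i j k l * x i * y j * x k * y l ≤ 0 := by
      rw [form_frame]
      exact hK _ q.2.1 _ _
    have e : ∑ i, ∑ j, ∑ k, ∑ l, -(5 / -lam) * crv (riem G q.1.1) q.1.2 i j k l * x i * y j *
        x k * y l = -(5 / -lam) * ∑ i, ∑ j, ∑ k, ∑ l, crv (riem G q.1.1) q.1.2 i j k l * x i *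
          y j * x k * y l := by
      simp only [Finset.mul_sum]
      refine Finset.sum_congr rfl fun i _ => Finset.sum_congr rfl fun j _ =>
        Finset.sum_congr rfl fun k _ => Finset.sum_congr rfl fun l _ => ?_
      ring
    have hc : 0 < 5 / -lam := by
      have : 0 < -lam := by linarith
      positivity
    rw [e]
    nlinarith

theorem D3_elt (h : MetOn U G) (c : ℝ) {N : ℕ} (k : ℕ) (gg : Fin N → M6) (H : Polynomial ℝ)
    (ε₁ : ℝ) : Polynomial.aeval (∑ i, (cartanU h).U c (gg i) ^ k) H +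
      (ε₁ / 2) • ∑ i, (cartanU h).U c (gg i) ^ 2 =
      AU.mk (natF (Psi1 c k gg H ε₁) G) (natF_smooth h (Psi1_smooth c k gg H ε₁)) := by
  apply Subtype.ext
  funext q
  have h1 : evq q (Polynomial.aeval (∑ i, (cartanU h).U c (gg i) ^ k) H +
      (ε₁ / 2) • ∑ i, (cartanU h).U c (gg i) ^ 2) = natF (Psi1 c k gg H ε₁) G q.1 := by
    have hU : ∀ i, evq q ((cartanU h).U c (gg i)) =
        ellF c (gg i) (fun i j k l => crv (riem G q.1.1) q.1.2 i j k l) := fun i =>
      (cartanU h).U_at (evq q) c (gg i)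
    rw [map_add, map_smul, map_sum, ← Polynomial.aeval_algHom_apply, map_sum]
    simp only [map_pow, hU, smul_eq_mul]
    rw [Polynomial.aeval_def, Polynomial.eval₂_eq_eval_map]
    simp only [Algebra.algebraMap_self, Polynomial.map_id]
    rfl
  exact h1

/-- The pointwise inequality at a frame. -/
theorem D3_pt (h : MetOn U G) {lam : ℝ} (hlam : lam < 0)
    (hE : ∀ x ∈ U, ∀ i k, ∑ j, ∑ l, (G x)⁻¹ j l * riem G x i j k l = lam * G x i k)
    (hK : ∀ x ∈ U, ∀ v w : Fin 6 → ℝ,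
      ∑ i, ∑ j, ∑ k, ∑ l, riem G x i j k l * v i * w j * v k * w l ≤ 0)
    {N k : ℕ} {gg : Fin N → M6} {ε ε₁ : ℝ} {hp H : Polynomial ℝ}
    (hH : Polynomial.derivative H = hp)
    (hh : ∀ x : T6, Cls x →
      (defect x - ε ≤ HopfSix.gaussBonnet x +
        hp.eval (∑ i, ell (rot (gg i) x) ^ k) *
          ∑ i, (k : ℝ) * ell (rot (gg i) x) ^ (k - 1) * ell (rot (gg i) (react x))) ∧
      ∀ v : Fin N → ℝ, -ε₁ * ∑ i, v i ^ 2 ≤
        hp.eval (∑ i, ell (rot (gg i) x) ^ k) *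
          ∑ i, (k : ℝ) * ((k : ℝ) - 1) * ell (rot (gg i) x) ^ (k - 2) * v i ^ 2 +
        (Polynomial.derivative hp).eval (∑ i, ell (rot (gg i) x) ^ k) *
          (∑ i, (k : ℝ) * ell (rot (gg i) x) ^ (k - 1) * v i) ^ 2) (q : PU U G) :
    (-lam / 5) * (-ε - (HopfSix.gaussBonnet
        (fun i j k l => -(5 / -lam) * crv (riem G q.1.1) q.1.2 i j k l) -
        defect (fun i j k l => -(5 / -lam) * crv (riem G q.1.1) q.1.2 i j k l))) ≤
      ∑ m, Bf G m (Bf G m (natF (Psi1 (5 / -lam) k gg H ε₁) G)) q.1 -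
        ε₁ * natF (Psi3 lam gg) G q.1 := by
  have hEA : ∀ i k, ∑ j, (cartanU h).R i j k j =
      algebraMap ℝ (AU U G) (if i = k then lam else 0) := by
    intro i k
    apply Subtype.ext
    funext q
    have h1 := ein_frame (x := q.1.1) (e := q.1.2) q.2 (hE _ q.2.1) i k
    rw [AddSubmonoidClass.coe_finsetSum, Finset.sum_apply]
    exact h1
  have h1 := D1_pt (cartanU h) (evq q) hlam hEA hH hh (D3_cls h hlam hE hK q)
  refine h1.trans (le_of_eq ?_)
  have h2 : ∑ m, Bf G m (Bf G m (natF (Psi1 (5 / -lam) k gg H ε₁) G)) q.1 =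
      ∑ m, evq q ((cartanU h).B m ((cartanU h).B m
        (Polynomial.aeval (∑ i, (cartanU h).U (5 / -lam) (gg i) ^ k) H +
      (ε₁ / 2) • ∑ i, (cartanU h).U (5 / -lam) (gg i) ^ 2))) := by
    rw [D3_elt]
    refine Finset.sum_congr rfl fun m _ => ?_
    have h3 : (cartanU h).B m = Bd h m := rfl
    rw [h3, Bd_Bf, Bd_Bf]
    rfl
  rw [h2]
  have h7 : ∀ (D : Derivation ℝ (AU U G) (AU U G)) (x y : AU U G), evq q (D (D (x + (ε₁ / 2) • y))) =
      evq q (D (D x)) + ε₁ / 2 * evq q (D (D y)) := by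
    intro D x y
    rw [map_add, Derivation.map_smul, map_add, Derivation.map_smul, map_add, map_smul, smul_eq_mul]
  simp only [h7, map_sum, Finset.sum_add_distrib]
  have h4 : ∑ m, ε₁ / 2 * ∑ i, evq q ((cartanU h).B m ((cartanU h).B m
      ((cartanU h).U (5 / -lam) (gg i) ^ 2))) = ∑ i, ε₁ / 2 * ∑ m, evq q ((cartanU h).B m
        ((cartanU h).B m ((cartanU h).U (5 / -lam) (gg i) ^ 2))) := by
    simp only [Finset.mul_sum]
    rw [Finset.sum_comm]
  rw [h4]
  have h5 : natF (Psi3 lam gg) G q.1 = ∑ i, ell (rot (gg i)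
      (fun i j k l => -(5 / -lam) * (cartanU h).at (evq q) i j k l)) * ((-lam / 5) *
        ell (rot (gg i) (react (fun i j k l => -(5 / -lam) * (cartanU h).at (evq q) i j k l)))) := rfl
  rw [h5]
  simp only [Finset.mul_sum, mul_sub, Finset.sum_sub_distrib]
  have h6 : ∀ i, ∑ m, ε₁ * (1 / 2 * evq q ((cartanU h).B m ((cartanU h).B m
      ((cartanU h).U (5 / -lam) (gg i) ^ 2)))) = ∑ m, ε₁ / 2 * evq q ((cartanU h).B m
        ((cartanU h).B m ((cartanU h).U (5 / -lam) (gg i) ^ 2))) := by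
    intro i
    refine Finset.sum_congr rfl fun m _ => ?_
    ring
  simp only [h6]
  ring

end loc

end H60E
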