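import Pool.Agent.Lib.H60E.D3
import Pool.Agent.Lib.H79G.I2

/-!
# D4: the integral of the Gauss-Bonnet-Chern integrand of a closed Einstein six-manifold
-/

set_option autoImplicit false

open scoped ContDiff Topology Manifold
open Set MeasureTheory

namespace H60E

open H31R H79G
open EinsteinSix (OG Cls defect react quad cf)
open H91.Split (T6 M6 rot ell)

section inv

theorem crv_smul {d : ℕ} (c : ℝ) (T : Fin d → Fin d → Fin d → Fin d → ℝ) (b : WW d) :
    crv (fun i j k l => c * T i j k l) b = fun i j k l => c * crv T b i j k l := by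
  funext i j k l
  simp only [crv, Finset.mul_sum]
  exact Finset.sum_congr rfl fun _ _ => Finset.sum_congr rfl fun _ _ => Finset.sum_congr rfl
    fun _ _ => Finset.sum_congr rfl fun _ _ => by ring

theorem crv_rot (b : M6) (T : T6) : crv T b = rot b T := by
  funext i j k l
  exact (rot_eq_crv b T i j k l).symm

theorem D4_gb (c : ℝ) (b : OG 6) (T : T6) :
    HopfSix.gaussBonnet (fun i j k l => c * crv T (b : Mt 6) i j k l) =
      HopfSix.gaussBonnet (fun i j k l => c * T i j k l) := by
  rw [← crv_smul c T (b : Mt 6)]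
  have h := crv_rot (b : M6) (fun i j k l => c * T i j k l)
  rw [show crv (fun i j k l => c * T i j k l) (b : Mt 6) =
    rot (b : M6) (fun i j k l => c * T i j k l) from h]
  exact H91.Split.gb_rot _ (EinsteinSix.og_left b)

theorem D4_defect (c : ℝ) (b : OG 6) (T : T6) :
    defect (fun i j k l => c * crv T (b : Mt 6) i j k l) =
      defect (fun i j k l => c * T i j k l) := by
  rw [← crv_smul c T (b : Mt 6)]
  have h := crv_rot (b : M6) (fun i j k l => c * T i j k l)
  rw [show crv (fun i j k l => c * T i j k l) (b : Mt 6) =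
    rot (b : M6) (fun i j k l => c * T i j k l) from h]
  exact defect_rot (EinsteinSix.og_left b) _

theorem D4_cont_smul (c : ℝ) : Continuous (fun T : T6 => (fun i j k l => c * T i j k l : T6)) :=
  continuous_pi fun i => continuous_pi fun j => continuous_pi fun k => continuous_pi fun l =>
    continuous_const.mul (D3_co i j k l).continuous

theorem D4_cont_gb (c : ℝ) :
    Continuous (fun T : T6 => HopfSix.gaussBonnet (fun i j k l => c * T i j k l)) := by
  unfold HopfSix.gaussBonnet
  have h : ∀ i j k l : Fin 6, Continuous (fun T : T6 => c * T i j k l) := fun i j k l =>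
    continuous_const.mul (D3_co i j k l).continuous
  refine continuous_finsetSum _ fun a _ => continuous_finsetSum _ fun b _ => ?_
  exact continuous_const.mul (((h _ _ _ _).mul (h _ _ _ _)).mul (h _ _ _ _))

end inv

variable {M : Type} [TopologicalSpace M] [ChartedSpace (EE 6) M]

/-- The rotated frames at a point. -/
theorem D4_frame (g : Ch.Metric 6 M) (m : M) (b : OG 6) :
    TT b ((chartAt (EE 6) m m, frm g m (chartAt (EE 6) m m)) : QQ 6) ∈
      PU (chartAt (EE 6) m).target (g.mat m) := by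
  rw [TT_apply]
  exact rt_mem (frm_mem g m (mem_chart_target (EE 6) m)) b

theorem D4_crv (g : Ch.Metric 6 M) (m : M) (b : OG 6) :
    crv (riem (g.mat m) (TT b ((chartAt (EE 6) m m, frm g m (chartAt (EE 6) m m)) : QQ 6)).1)
      (TT b ((chartAt (EE 6) m m, frm g m (chartAt (EE 6) m m)) : QQ 6)).2 =
      crv (curvM g m) (b : Mt 6) := by
  rw [TT_apply]
  funext i j k l
  exact (crv_crv (riem (g.mat m) (chartAt (EE 6) m m)) (frm g m (chartAt (EE 6) m m)) (b : Mt 6)
    i j k l).symm

/-- The averaged pointwise inequality. -/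
theorem D4_pt (g : Ch.Metric 6 M) {lam : ℝ} (hlam : lam < 0) (hE : IsEinstein g lam)
    (hK : SecNonpos g) {N k : ℕ} {gg : Fin N → M6} {ε ε₁ : ℝ} {hp H : Polynomial ℝ}
    (hH : Polynomial.derivative H = hp)
    (hh : ∀ x : T6, Cls x →
      (defect x - ε ≤ HopfSix.gaussBonnet x +
        hp.eval (∑ i, ell (rot (gg i) x) ^ k) *
          ∑ i, (k : ℝ) * ell (rot (gg i) x) ^ (k - 1) * ell (rot (gg i) (react x))) ∧
      ∀ v : Fin N → ℝ, -ε₁ * ∑ i, v i ^ 2 ≤
        hp.eval (∑ i, ell (rot (gg i) x) ^ k) *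
          ∑ i, (k : ℝ) * ((k : ℝ) - 1) * ell (rot (gg i) x) ^ (k - 2) * v i ^ 2 +
        (Polynomial.derivative hp).eval (∑ i, ell (rot (gg i) x) ^ k) *
          (∑ i, (k : ℝ) * ell (rot (gg i) x) ^ (k - 1) * v i) ^ 2) (m : M) :
    (-lam / 5) * (-ε - (HopfSix.gaussBonnet (fun i j k l => -(5 / -lam) * curvM g m i j k l) -
        defect (fun i j k l => -(5 / -lam) * curvM g m i j k l))) ≤
      avgF 1 (fun q => ∑ s, Bf (g.mat m) s (Bf (g.mat m) s
        (natF (Psi1 (5 / -lam) k gg H ε₁) (g.mat m))) q)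
          (chartAt (EE 6) m m, frm g m (chartAt (EE 6) m m)) -
        ε₁ * avgF 1 (natF (Psi3 lam gg) (g.mat m))
          (chartAt (EE 6) m m, frm g m (chartAt (EE 6) m m)) := by
  have h := metOn g m
  have hy := mem_chart_target (EE 6) m
  have hF1 : SmF (chartAt (EE 6) m).target (fun q => ∑ s, Bf (g.mat m) s (Bf (g.mat m) s
      (natF (Psi1 (5 / -lam) k gg H ε₁) (g.mat m))) q) :=
    ContDiffOn.sum fun s _ => Bf_smooth h s (Bf_smooth h s
      (natF_smooth h (Psi1_smooth (5 / -lam) k gg H ε₁)))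
  have hF3 : SmF (chartAt (EE 6) m).target (natF (Psi3 lam gg) (g.mat m)) :=
    natF_smooth h (Psi3_smooth lam gg)
  set q0 : QQ 6 := (chartAt (EE 6) m m, frm g m (chartAt (EE 6) m m)) with hq0
  have i1 := avgF_int h.hU 1 hF1 (q := q0) hy
  have i3 := avgF_int h.hU 1 hF3 (q := q0) hy
  have hb : ∀ b : OG 6, (-lam / 5) * (-ε - (HopfSix.gaussBonnet
      (fun i j k l => -(5 / -lam) * curvM g m i j k l) -
        defect (fun i j k l => -(5 / -lam) * curvM g m i j k l))) ≤
      (1 : C(OG 6, ℝ)) b * (fun q => ∑ s, Bf (g.mat m) s (Bf (g.mat m) s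
        (natF (Psi1 (5 / -lam) k gg H ε₁) (g.mat m))) q) (TT b q0) -
        ε₁ * ((1 : C(OG 6, ℝ)) b * natF (Psi3 lam gg) (g.mat m) (TT b q0)) := by
    intro b
    have h1 := D3_pt h hlam (fun x hx => hE m x hx) (fun x hx => hK m x hx) hH hh
      ⟨TT b q0, D4_frame g m b⟩
    have h2 := D4_crv g m b
    rw [h2] at h1
    rw [D4_gb (-(5 / -lam)) b, D4_defect (-(5 / -lam)) b] at h1
    simp only [ContinuousMap.one_apply, one_mul]
    exact h1
  have h3 := integral_mono (μ := haarO 6) (integrable_const _) (i1.sub (i3.const_mul ε₁)) hb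
  simp only [Pi.sub_apply] at h3
  rw [integral_const, integral_sub i1 (i3.const_mul ε₁), integral_const_mul] at h3
  simp only [probReal_univ, one_smul] at h3
  exact h3

theorem D4_int {M : Type} [TopologicalSpace M] [MeasurableSpace M] [BorelSpace M] [CompactSpace M]
    {μ : Measure M} [IsFiniteMeasure μ] {f : M → ℝ} (hf : Continuous f) :
    Integrable f μ := EinsteinSix.integrable_cont (⟨f, hf⟩ : C(M, ℝ))

theorem D4_cont [IsManifold (𝓡 6) ∞ M] (g : Ch.Metric 6 M) (c : ℝ) :
    Continuous (fun m => HopfSix.gaussBonnet (fun i j k l => c * curvM g m i j k l)) ∧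
    Continuous (fun m => defect (fun i j k l => c * curvM g m i j k l)) :=
  ⟨inv_continuous g (D4_cont_gb c) (fun b T => D4_gb c b T),
    inv_continuous g (Ψ := fun T => defect (fun i j k l => c * T i j k l))
      (EinsteinSix.continuous_defect.comp (D4_cont_smul c)) (fun b T => D4_defect c b T)⟩

/-- Nonempty open sets have positive volume. -/
theorem vol_openPos [MeasurableSpace M] [BorelSpace M] (g : Ch.Metric 6 M) {μ : Measure M}
    (hμ : IsVol g μ) :
    μ.IsOpenPosMeasure := by
  refine ⟨fun O hO hne h0 => ?_⟩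
  obtain ⟨m, hm⟩ := hne
  set T : Set M := O ∩ (chartAt (EE 6) m).source with hT
  have hTo : IsOpen T := hO.inter (chartAt (EE 6) m).open_source
  have h1 : μ T = 0 := measure_mono_null inter_subset_left h0
  rw [hμ m T hTo.measurableSet inter_subset_right, chMeas_apply g m hTo.measurableSet] at h1
  set W : Set (EE 6) := (chartAt (EE 6) m).target ∩ (chartAt (EE 6) m).symm ⁻¹' T with hW
  have hWo : IsOpen W := (chartAt (EE 6) m).isOpen_inter_preimage_symm hTo
  have hWne : W.Nonempty := by
    refine ⟨chartAt (EE 6) m m, mem_chart_target (EE 6) m, ?_⟩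
    show (chartAt (EE 6) m).symm (chartAt (EE 6) m m) ∈ T
    rw [(chartAt (EE 6) m).left_inv (mem_chart_source (EE 6) m)]
    exact ⟨hm, mem_chart_source (EE 6) m⟩
  have haem : AEMeasurable (fun y => ENNReal.ofReal (dens (g.mat m) y)) (volume.restrict W) :=
    (aem_dens g m).mono_measure (Measure.restrict_mono inter_subset_left le_rfl)
  rw [lintegral_eq_zero_iff' haem] at h1
  have h2 : ∀ᵐ y ∂(volume.restrict W), y ∈ W := ae_restrict_mem hWo.measurableSet
  have h3 : ∀ᵐ y ∂(volume.restrict W), False := by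
    filter_upwards [h1, h2] with y hy hyW
    have h4 := (metOn g m).dens_pos hyW.1
    rw [Pi.zero_apply, ENNReal.ofReal_eq_zero] at hy
    linarith
  have h5 : volume.restrict W = 0 := by
    rw [← ae_eq_bot]
    exact Filter.eventually_false_iff_eq_bot.1 h3
  rw [Measure.restrict_eq_zero] at h5
  exact (hWo.measure_pos volume hWne).ne' h5

theorem D4_riem_frame (g : Ch.Metric 6 M) (m : M) :
    ((chartAt (EE 6) m m, frm g m (chartAt (EE 6) m m)) : QQ 6) ∈
      PU (chartAt (EE 6) m).target (g.mat m) := frm_mem g m (mem_chart_target (EE 6) m)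

variable [IsManifold (𝓡 6) ∞ M] [MeasurableSpace M] [BorelSpace M] [T2Space M] [CompactSpace M]

theorem D4_nonneg (g : Ch.Metric 6 M) {μ : Measure M} (hμ : IsVol g μ) [IsFiniteMeasure μ]
    {lam : ℝ} (hlam : lam < 0) (hE : IsEinstein g lam) (hK : SecNonpos g) :
    0 ≤ ∫ m, (HopfSix.gaussBonnet (fun i j k l => -(5 / -lam) * curvM g m i j k l) -
        defect (fun i j k l => -(5 / -lam) * curvM g m i j k l)) ∂μ := by
  have hc : 0 < -lam / 5 := by linarith
  set Gd : M → ℝ := fun m => HopfSix.gaussBonnet (fun i j k l => -(5 / -lam) * curvM g m i j k l) -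
        defect (fun i j k l => -(5 / -lam) * curvM g m i j k l) with hGd
  have hGc : Continuous Gd := (D4_cont g _).1.sub (D4_cont g _).2
  have key : ∀ ε : ℝ, 0 < ε → -ε * μ.real Set.univ ≤ ∫ m, Gd m ∂μ := by
    intro ε hε
    obtain ⟨N, k, gg, hk, hgg, happ⟩ := EinsteinSix.approx ε hε
    have hA3 := continuous_avg g (Psi3_smooth lam gg)
    set A3 : M → ℝ := fun m => avgF 1 (natF (Psi3 lam gg) (g.mat m))
          (chartAt (EE 6) m m, frm g m (chartAt (EE 6) m m)) with hA3d
    have key2 : ∀ ε₁ : ℝ, 0 < ε₁ →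
        (-lam / 5) * (-ε * μ.real Set.univ - ∫ m, Gd m ∂μ) ≤ -ε₁ * ∫ m, A3 m ∂μ := by
      intro ε₁ hε₁
      obtain ⟨hp, hh⟩ := happ ε₁ hε₁
      obtain ⟨H, hH⟩ := D1_prim hp
      obtain ⟨hc1, hi1⟩ := integral_hlap g hμ (Psi1_smooth (5 / -lam) k gg H ε₁)
      set A1 : M → ℝ := fun m => avgF 1 (fun q => ∑ s, Bf (g.mat m) s (Bf (g.mat m) s
        (natF (Psi1 (5 / -lam) k gg H ε₁) (g.mat m))) q)
          (chartAt (EE 6) m m, frm g m (chartAt (EE 6) m m)) with hA1d
      have hpt : ∀ m, (-lam / 5) * (-ε - Gd m) ≤ A1 m - ε₁ * A3 m := fun m =>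
        D4_pt g hlam hE hK hH hh m
      have j0 : Integrable (fun m => -ε - Gd m) μ := (integrable_const _).sub (D4_int hGc)
      have j1 : Integrable A1 μ := D4_int hc1
      have j3 : Integrable (fun m => ε₁ * A3 m) μ := (D4_int hA3).const_mul _
      have h1 := integral_mono (j0.const_mul (-lam / 5)) (j1.sub j3) hpt
      simp only [Pi.sub_apply] at h1
      rw [integral_const_mul, integral_sub (integrable_const _) (D4_int hGc), integral_const,
        integral_sub j1 j3, integral_const_mul, hi1, smul_eq_mul] at h1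
      linarith
    have h3 : (-lam / 5) * (-ε * μ.real Set.univ - ∫ m, Gd m ∂μ) ≤ 0 := by
      refine le_of_forall_pos_lt_add fun δ hδ => ?_
      have h4 := key2 (δ / (2 * (|∫ m, A3 m ∂μ| + 1))) (by positivity)
      have h5 : -(δ / (2 * (|∫ m, A3 m ∂μ| + 1))) * ∫ m, A3 m ∂μ < δ := by
        have h6 : -(δ / (2 * (|∫ m, A3 m ∂μ| + 1))) * ∫ m, A3 m ∂μ ≤
            δ / (2 * (|∫ m, A3 m ∂μ| + 1)) * |∫ m, A3 m ∂μ| := by
          have h7 := neg_abs_le (∫ m, A3 m ∂μ)
          have h8 : 0 < δ / (2 * (|∫ m, A3 m ∂μ| + 1)) := by positivity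
          nlinarith
        refine lt_of_le_of_lt h6 ?_
        rw [div_mul_eq_mul_div, div_lt_iff₀ (by positivity)]
        have := abs_nonneg (∫ m, A3 m ∂μ)
        nlinarith
      linarith
    nlinarith
  have hμ0 : 0 ≤ μ.real Set.univ := measureReal_nonneg
  refine le_of_forall_pos_lt_add fun δ hδ => ?_
  have := key (δ / (2 * (μ.real Set.univ + 1))) (by positivity)
  have h5 : δ / (2 * (μ.real Set.univ + 1)) * μ.real Set.univ < δ := by
    rw [div_mul_eq_mul_div, div_lt_iff₀ (by positivity)]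
    nlinarith
  linarith

/-- **The integral inequality for closed Einstein six-manifolds of nonpositive sectional
curvature.** -/
theorem D4_main (g : Ch.Metric 6 M) {μ : Measure M} (hμ : IsVol g μ) [IsFiniteMeasure μ]
    (lam : ℝ) (hE : IsEinstein g lam) (hK : SecNonpos g) :
    ∫ m, HopfSix.gaussBonnet (curvM g m) ∂μ ≤ 0 ∧
      (∫ m, HopfSix.gaussBonnet (curvM g m) ∂μ = 0 → ∀ m : M, ∃ b : M6, b.transpose * b = 1 ∧
        rot b (curvM g m) = EinsteinSix.prodTensor (lam / 2)) := by
  have halg : ∀ m, HopfSix.IsAlgCurv (curvM g m) := fun m =>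
    D3_alg (metOn g m) ⟨_, D4_riem_frame g m⟩
  have hEm : ∀ m i k, ∑ j, curvM g m i j k j = if i = k then lam else 0 := fun m =>
    ein_frame (D4_riem_frame g m) (hE m _ (mem_chart_target (EE 6) m))
  have hric : ∀ m i, ∑ j, curvM g m i j i j = lam := fun m i => by simpa using hEm m i i
  have hKm : ∀ m, ∀ x y : Fin 6 → ℝ,
      ∑ i, ∑ j, ∑ k, ∑ l, curvM g m i j k l * x i * y j * x k * y l ≤ 0 := by
    intro m x y
    have h1 := form_frame (riem (g.mat m) (chartAt (EE 6) m m)) (frm g m (chartAt (EE 6) m m)) x y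
    have h2 := hK m _ (mem_chart_target (EE 6) m)
      (fun a => ∑ i, frm g m (chartAt (EE 6) m m) a i * x i)
      (fun a => ∑ i, frm g m (chartAt (EE 6) m m) a i * y i)
    rw [← h1] at h2
    exact h2
  rcases isEmpty_or_nonempty M with hP | ⟨⟨p₀⟩⟩
  · exact ⟨integral_nonpos fun p => (hP.false p).elim, fun _ p => (hP.false p).elim⟩
  have hlam : lam ≤ 0 := by
    rw [← hric p₀ 0]
    refine Finset.sum_nonpos fun j _ => ?_
    have := hKm p₀ (Pi.single 0 1) (Pi.single j 1)
    have h2 : EinsteinSix.form4 (curvM g p₀) (Pi.single 0 1) (Pi.single j 1) (Pi.single 0 1)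
      (Pi.single j 1) ≤ 0 := this
    rwa [EinsteinSix.form4_single] at h2
  rcases hlam.lt_or_eq with hlam | rfl
  · have hcls : ∀ m, Cls (fun i j k l => -(5 / -lam) * curvM g m i j k l) := fun m =>
      D3_cls (metOn g m) hlam (fun x hx => hE m x hx) (fun x hx => hK m x hx)
        ⟨_, D4_riem_frame g m⟩
    have hc : 0 < 5 / -lam := by
      have : 0 < -lam := by linarith
      positivity
    have h1 := D4_nonneg g hμ hlam hE hK
    obtain ⟨c1, c2⟩ := D4_cont g (-(5 / -lam))
    have i1 : Integrable _ μ := D4_int c1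
    have i2 : Integrable _ μ := D4_int c2
    rw [integral_sub i1 i2] at h1
    simp_rw [EinsteinSix.gb_smul] at h1
    rw [integral_const_mul] at h1
    have h2 : (-(5 / -lam)) ^ 3 < 0 := by
      have : (-(5 / -lam)) ^ 3 = -(5 / -lam) ^ 3 := by ring
      rw [this]
      have : 0 < (5 / -lam) ^ 3 := by positivity
      linarith
    have h3 : 0 ≤ ∫ m, defect (fun i j k l => -(5 / -lam) * curvM g m i j k l) ∂μ :=
      integral_nonneg fun m => (hcls m).defect_nonneg
    refine ⟨by nlinarith, fun h0 => ?_⟩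
    rw [h0, mul_zero, zero_sub] at h1
    have h4 : ∫ m, defect (fun i j k l => -(5 / -lam) * curvM g m i j k l) ∂μ = 0 := by
      linarith
    rw [integral_eq_zero_iff_of_nonneg (fun m => (hcls m).defect_nonneg) i2] at h4
    have hop := vol_openPos g hμ
    have h6 : (fun m => defect (fun i j k l => -(5 / -lam) * curvM g m i j k l)) =
        fun _ => (0 : ℝ) := (Continuous.ae_eq_iff_eq μ c2 continuous_const).1 h4
    intro m
    have hp := congrFun h6 m
    obtain ⟨b, hb, hs⟩ := EinsteinSix.exists_eq_defect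
      (fun i j k l => -(5 / -lam) * curvM g m i j k l)
    refine ⟨b, hb, ?_⟩
    have h5 : EinsteinSix.dfr (rot b (fun i j k l => -(5 / -lam) * curvM g m i j k l)) = 0 := by
      rw [hs]
      exact hp
    have h6 := ((hcls m).rot hb).dfr_zero h5
    funext i j k l
    have h7 := congrFun (congrFun (congrFun (congrFun h6 i) j) k) l
    rw [EinsteinSix.rot_smul'] at h7
    have hne : lam ≠ 0 := hlam.ne
    have h8 : rot b (curvM g m) i j k l = (lam / 5) * EinsteinSix.prodTensor (5 / 2) i j k l := by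
      rw [← h7]
      field_simp
    rw [h8]
    simp only [EinsteinSix.prodTensor]
    split_ifs <;> ring
  · have hz : ∀ m, curvM g m = fun _ _ _ _ => 0 := fun m =>
      EinsteinSix.ricci_flat (halg m) (hric m) (hKm m)
    refine ⟨?_, fun _ m => ⟨1, by simp, ?_⟩⟩
    · simp_rw [hz, EinsteinSix.gb_zero]
      simp
    · rw [hz]
      funext i j k l
      simp [rot, EinsteinSix.prodTensor]

end H60E
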