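import Pool.Agent.Lib.H79G.Defs
import Pool.Agent.Lib.EinsteinSix.Cartan

/-!
# H60E: orthonormal frames of a Riemannian metric in a chart

`U` is an open set of `EE d` (a chart of a Riemannian manifold), `G` the matrix of the metric. A point
of `QQ d` is a pair `(x, e)`, `e k i` is the `k`-th coordinate of the `i`-th vector of the frame.
-/

set_option autoImplicit false

open scoped ContDiff Topology
open Set

namespace H60E

open H31R H79G

/-- Frames: `e k i` is the `k`-th coordinate of the `i`-th vector. -/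
abbrev WW (d : ℕ) := Fin d → Fin d → ℝ

/-- Points with a frame. -/
abbrev QQ (d : ℕ) := EE d × WW d

/-- The frame `e` rotated by the matrix `b`: the `i`-th new vector is `∑ m, b m i • e_m`. -/
def rt {d : ℕ} (e : WW d) (b : Mt d) : WW d := fun k i => ∑ m, e k m * b m i

variable {d : ℕ}

/-- The orthonormal frames. -/
def PU (U : Set (EE d)) (G : EE d → Mt d) : Set (QQ d) :=
  {q | q.1 ∈ U ∧ ∀ i j, ∑ k, ∑ l, G q.1 k l * q.2 k i * q.2 l j = if i = j then 1 else 0}

/-- Smooth functions on `U × WW d`. -/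
def SmF (U : Set (EE d)) (F : QQ d → ℝ) : Prop := ContDiffOn ℝ ∞ F (U ×ˢ univ)

/-- The algebra of smooth functions on the set of orthonormal frames over `U`. -/
def AU (U : Set (EE d)) (G : EE d → Mt d) : Subalgebra ℝ (PU U G → ℝ) where
  carrier := {u | ∃ F, SmF U F ∧ ∀ q : PU U G, u q = F q.1}
  mul_mem' := by
    rintro _ _ ⟨F, hF, h⟩ ⟨F', hF', h'⟩
    exact ⟨fun q => F q * F' q, hF.mul hF', fun q => by rw [Pi.mul_apply, h, h']⟩
  add_mem' := by
    rintro _ _ ⟨F, hF, h⟩ ⟨F', hF', h'⟩
    exact ⟨fun q => F q + F' q, hF.add hF', fun q => by rw [Pi.add_apply, h, h']⟩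
  algebraMap_mem' c := ⟨fun _ => c, contDiffOn_const, fun q => rfl⟩

/-- The restriction of a smooth function. -/
def AU.mk {U : Set (EE d)} {G : EE d → Mt d} (F : QQ d → ℝ) (hF : SmF U F) : AU U G :=
  ⟨fun q => F q.1, F, hF, fun _ => rfl⟩

/-- Smooth vector fields on `U × WW d` which are tangent to the set of orthonormal frames: they
annihilate, along `PU U G`, the smooth functions which vanish on `PU U G`. -/
structure VF (U : Set (EE d)) (G : EE d → Mt d) where
  /-- the field -/
  X : QQ d → QQ d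
  smooth : ContDiffOn ℝ ∞ X (U ×ˢ univ)
  tang : ∀ F, SmF U F → (∀ q ∈ PU U G, F q = 0) → ∀ q ∈ PU U G, fderiv ℝ F q (X q) = 0

/-- The vertical field of the matrix `S`. -/
def vertX (S : Mt d) (q : QQ d) : QQ d := (0, rt q.2 S)

/-- The horizontal field number `m` (parallel transport in the direction of the `m`-th vector of the
frame). -/
noncomputable def horX (G : EE d → Mt d) (m : Fin d) (q : QQ d) : QQ d :=
  (∑ k, q.2 k m • ebas k, fun k l => -∑ a, ∑ b, chr G k a b q.1 * q.2 a m * q.2 b l)

/-- The components of the tensor `T` in the frame `e`. -/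
def crv (T : Fin d → Fin d → Fin d → Fin d → ℝ) (e : WW d) (i j k l : Fin d) : ℝ :=
  ∑ a, ∑ b, ∑ c, ∑ f, T a b c f * e a i * e b j * e c k * e f l

/-- The Laplacian of a function in coordinates. -/
noncomputable def lap (G : EE d → Mt d) (f : EE d → ℝ) (x : EE d) : ℝ :=
  ∑ i, ∑ j, (G x)⁻¹ i j * (pd i (pd j f) x - ∑ k, chr G k i j x * pd k f x)

end H60E
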